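import Pool.Agent.Lib.MP_305fdd_al.F8.G.Pres
import Pool.Agent.Lib.MP_305fdd_al.F8.BG.DefsQ

/-!
# MP_305fdd_al, Bianchi group for `d = 11`: arithmetic of the ring of integers of `ℚ(√-11)`

The norm, division with remainder, and the local structure of the set of the possible quotients.
-/

set_option autoImplicit false

namespace Pool.Agent.F8.BG.D11

open scoped QuadraticAlgebra

/-- `ℤ[w]`, `w² = w - 3` -/
abbrev O11 : Type := Qf (-3) 1 ℤ

/-- the norm of `x + y w` -/
def nm (z : O11) : ℤ := z.re ^ 2 + z.re * z.im + 3 * z.im ^ 2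

theorem O_ext {z w : O11} (h1 : z.re = w.re) (h2 : z.im = w.im) : z = w :=
  QuadraticAlgebra.ext h1 h2

theorem O_re_mul (z w : O11) : (z * w).re = z.re * w.re - 3 * (z.im * w.im) := by
  rw [QuadraticAlgebra.re_mul]; simp only [Int.cast_id]; ring

theorem O_im_mul (z w : O11) : (z * w).im = z.re * w.im + z.im * w.re + z.im * w.im := by
  rw [QuadraticAlgebra.im_mul]; simp only [Int.cast_id]; ring

theorem nm_four (z : O11) : 4 * nm z = (2 * z.re + z.im) ^ 2 + 11 * z.im ^ 2 := by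
  unfold nm; ring

theorem nm_mul (z w : O11) : nm (z * w) = nm z * nm w := by
  unfold nm
  rw [O_re_mul, O_im_mul]
  ring

theorem nm_nonneg (z : O11) : 0 ≤ nm z := by
  have h := nm_four z
  nlinarith [sq_nonneg (2 * z.re + z.im), sq_nonneg z.im]

theorem nm_zero : nm 0 = 0 := by
  unfold nm
  simp

theorem nm_one : nm 1 = 1 := by
  unfold nm
  simp

theorem nm_neg (z : O11) : nm (-z) = nm z := by
  unfold nm
  rw [QuadraticAlgebra.re_neg, QuadraticAlgebra.im_neg]
  ring

theorem nm_eq_zero {z : O11} (h : nm z = 0) : z = 0 := by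
  have h4 := nm_four z
  rw [h] at h4
  have h1 : z.im = 0 := by
    have : z.im ^ 2 = 0 := by nlinarith [sq_nonneg (2 * z.re + z.im), sq_nonneg z.im]
    exact pow_eq_zero_iff (two_ne_zero) |>.1 this
  have h2 : z.re = 0 := by
    rw [h1] at h4
    have : z.re ^ 2 = 0 := by nlinarith [sq_nonneg z.re]
    exact pow_eq_zero_iff (two_ne_zero) |>.1 this
  exact O_ext h2 h1

theorem nm_pos {z : O11} (h : z ≠ 0) : 0 < nm z := by
  rcases (nm_nonneg z).lt_or_eq with h1 | h1
  · exact h1
  · exact absurd (nm_eq_zero h1.symm) h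

/-- parallelogram identity -/
theorem nm_par (x y : O11) : nm (x - y) + nm (x + y) = 2 * nm x + 2 * nm y := by
  unfold nm
  simp only [QuadraticAlgebra.re_sub, QuadraticAlgebra.im_sub, QuadraticAlgebra.re_add,
    QuadraticAlgebra.im_add]
  ring

/-- the norms of the remainders in terms of the quotient `P / nm c` -/
theorem quot (a c : O11) : ∃ P : O11, ∀ q : O11, nm (a - q * c) * nm c =
    (P.re - q.re * nm c) ^ 2 + (P.re - q.re * nm c) * (P.im - q.im * nm c) +
      3 * (P.im - q.im * nm c) ^ 2 := by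
  refine ⟨a * ⟨c.re + c.im, -c.im⟩, fun q => ?_⟩
  unfold nm
  rw [QuadraticAlgebra.re_sub, QuadraticAlgebra.im_sub]
  simp only [O_re_mul, O_im_mul]
  ring

theorem near (P N : ℤ) (hN : 0 < N) : ∃ n : ℤ, |P - 2 * n * N| ≤ N := by
  refine ⟨(P + N) / (2 * N), ?_⟩
  have e1 := Int.emod_add_mul_ediv (P + N) (2 * N)
  have e2 := Int.emod_nonneg (P + N) (show (2 * N) ≠ 0 by omega)
  have e3 := Int.emod_lt_of_pos (P + N) (show 0 < 2 * N by omega)
  rw [abs_le]
  constructor <;> nlinarith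

/-- division with remainder -/
theorem O_div (a c : O11) (hc : c ≠ 0) : ∃ q : O11, nm (a - q * c) < nm c := by
  have hN := nm_pos hc
  obtain ⟨P, hP⟩ := quot a c
  generalize nm c = N at *
  obtain ⟨n, hn⟩ := near (2 * P.im) N hN
  obtain ⟨m, hm⟩ := near (2 * P.re + (P.im - n * N)) N hN
  refine ⟨⟨m, n⟩, ?_⟩
  have h3 := hP ⟨m, n⟩
  simp only at h3
  have e1 : 2 * P.re + (P.im - n * N) - 2 * m * N = 2 * (P.re - m * N) + (P.im - n * N) := by ring
  have e2 : 2 * P.im - 2 * n * N = 2 * (P.im - n * N) := by ring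
  rw [e1] at hm
  rw [e2] at hn
  generalize P.re - m * N = r at *
  generalize P.im - n * N = s at *
  rw [abs_le] at hm hn
  have h7 : (2 * r + s) ^ 2 ≤ N ^ 2 := by
    nlinarith [mul_nonneg (show 0 ≤ N - (2 * r + s) by linarith)
      (show 0 ≤ N + (2 * r + s) by linarith)]
  have h8 : 4 * s ^ 2 ≤ N ^ 2 := by
    nlinarith [mul_nonneg (show 0 ≤ N - 2 * s by linarith) (show 0 ≤ N + 2 * s by linarith)]
  by_contra hcon
  push Not at hcon
  have h9 : N * N ≤ nm (a - ⟨m, n⟩ * c) * N := mul_le_mul_of_nonneg_right hcon hN.le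
  have h10 : 0 < N ^ 2 := by positivity
  nlinarith

/-- the two units -/
theorem unit_cases {v : O11} (h : nm v = 1) : v = 1 ∨ v = -1 := by
  have h4 := nm_four v
  rw [h] at h4
  have h3 : v.im ≤ 0 := by nlinarith [sq_nonneg (2 * v.re + v.im)]
  have h5 : 0 ≤ v.im := by nlinarith [sq_nonneg (2 * v.re + v.im)]
  have h1 : v.im = 0 := by omega
  rw [h1] at h4
  have h7 : (v.re - 1) * (v.re + 1) = 0 := by nlinarith
  rcases mul_eq_zero.1 h7 with h6 | h6
  · left; exact O_ext (by rw [QuadraticAlgebra.re_one]; omega) h1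
  · right
    exact O_ext (by rw [QuadraticAlgebra.re_neg, QuadraticAlgebra.re_one]; omega)
      (by rw [QuadraticAlgebra.im_neg, QuadraticAlgebra.im_one, h1]; rfl)

theorem bounds {v : O11} (h : nm v ≤ 3) : v.re ≤ 1 ∧ -1 ≤ v.re ∧ v.im ≤ 1 ∧ -1 ≤ v.im := by
  have h4 := nm_four v
  have h3 : v.im ≤ 1 := by nlinarith [sq_nonneg (2 * v.re + v.im)]
  have h5 : -1 ≤ v.im := by nlinarith [sq_nonneg (2 * v.re + v.im)]
  have e1 : 12 * nm v = 11 * v.re ^ 2 + (v.re + 6 * v.im) ^ 2 := by unfold nm; ring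
  have h1 : v.re ≤ 1 := by nlinarith [sq_nonneg (v.re + 6 * v.im)]
  have h2 : -1 ≤ v.re := by nlinarith [sq_nonneg (v.re + 6 * v.im)]
  exact ⟨h1, h2, h3, h5⟩

/-- the four elements of norm three -/
theorem three_cases {v : O11} (h : nm v = 3) :
    v = ⟨0, 1⟩ ∨ v = ⟨0, -1⟩ ∨ v = ⟨1, -1⟩ ∨ v = ⟨-1, 1⟩ := by
  obtain ⟨h1, h2, h3, h4⟩ := bounds h.le
  unfold nm at h
  obtain ⟨r, s⟩ := v
  simp only at h h1 h2 h3 h4
  interval_cases r <;> interval_cases s <;> first | (exfalso; revert h; decide) | decide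

/-- there are no elements of norm two -/
theorem two_cases {v : O11} (h : nm v = 2) : False := by
  obtain ⟨h1, h2, h3, h4⟩ := bounds (h.le.trans (by norm_num))
  unfold nm at h
  obtain ⟨r, s⟩ := v
  simp only at h h1 h2 h3 h4
  interval_cases r <;> interval_cases s <;> (revert h; decide)

/-- a remainder for elements of the same norm -/
theorem unit_step (a c : O11) (hc : c ≠ 0) (h : nm a = nm c) :
    ∃ v : O11, (nm v = 1 ∨ nm v = 3) ∧ nm (a - v * c) < nm c := by
  have hN := nm_pos hc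
  obtain ⟨P, hP⟩ := quot a c
  by_contra hcon
  push Not at hcon
  have e0 := hP 0
  rw [zero_mul, sub_zero, h] at e0
  have e1 := hcon 1 (by decide)
  have e2 := hcon (-1) (by decide)
  have e3 := hcon ⟨0, 1⟩ (by decide)
  have e4 := hcon ⟨0, -1⟩ (by decide)
  have e5 := hcon ⟨1, -1⟩ (by decide)
  have e6 := hcon ⟨-1, 1⟩ (by decide)
  have f1 := mul_le_mul_of_nonneg_right e1 hN.le
  have f2 := mul_le_mul_of_nonneg_right e2 hN.le
  have f3 := mul_le_mul_of_nonneg_right e3 hN.le
  have f4 := mul_le_mul_of_nonneg_right e4 hN.le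
  have f5 := mul_le_mul_of_nonneg_right e5 hN.le
  have f6 := mul_le_mul_of_nonneg_right e6 hN.le
  rw [hP] at f1 f2 f3 f4 f5 f6
  simp only [QuadraticAlgebra.re_one, QuadraticAlgebra.im_one, QuadraticAlgebra.re_neg,
    QuadraticAlgebra.im_neg, QuadraticAlgebra.re_zero,
    QuadraticAlgebra.im_zero] at e0 f1 f2 f3 f4 f5 f6
  clear e1 e2 e3 e4 e5 e6 hcon hP
  generalize nm c = N at *
  generalize P.re = x at *
  generalize P.im = y at *
  have g1 : 2 * x + y ≤ N := by
    by_contra hh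
    push Not at hh
    nlinarith
  have g2 : -(2 * x + y) ≤ N := by
    by_contra hh
    push Not at hh
    nlinarith
  have g3 : x + 6 * y ≤ 3 * N := by
    by_contra hh
    push Not at hh
    nlinarith
  have g4 : -(x + 6 * y) ≤ 3 * N := by
    by_contra hh
    push Not at hh
    nlinarith
  have g5 : x - 5 * y ≤ 3 * N := by
    by_contra hh
    push Not at hh
    nlinarith
  have g6 : -(x - 5 * y) ≤ 3 * N := by
    by_contra hh
    push Not at hh
    nlinarith
  have k1 : 4 * (N * N) = (2 * x + y) ^ 2 + 11 * y ^ 2 := by linear_combination 4 * e0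
  obtain ⟨s, hs⟩ : ∃ s, s = 2 * x + y := ⟨_, rfl⟩
  have g3' : s + 11 * y ≤ 6 * N := by rw [hs]; linarith
  have g4' : -(s + 11 * y) ≤ 6 * N := by rw [hs]; linarith
  have g5' : s - 11 * y ≤ 6 * N := by rw [hs]; linarith
  have g6' : -(s - 11 * y) ≤ 6 * N := by rw [hs]; linarith
  rw [← hs] at g1 g2 k1
  have hNN : 0 < N * N := mul_pos hN hN
  have key : ∀ a b : ℤ, 0 ≤ a → 0 ≤ b → a ≤ N → a + 11 * b ≤ 6 * N → a ^ 2 = s ^ 2 →
      b ^ 2 = y ^ 2 → False := by
    intro a b ha hb h1 h2 h3 h4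
    have m1 : (11 * b) ^ 2 ≤ (6 * N - a) ^ 2 := by
      apply pow_le_pow_left₀ (by linarith)
      linarith
    have m2 : a * (N - a) ≥ 0 := mul_nonneg ha (by linarith)
    nlinarith
  rcases le_total 0 s with h1 | h1 <;> rcases le_total 0 y with h2 | h2
  · exact key s y h1 h2 g1 g3' rfl rfl
  · exact key s (-y) h1 (by linarith) g1 (by linarith) rfl (by ring)
  · exact key (-s) y (by linarith) h2 g2 (by linarith) (by ring) rfl
  · exact key (-s) (-y) (by linarith) (by linarith) g2 (by linarith) (by ring) (by ring)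

/-- one step between two possible quotients -/
def Adj (a c q q' : O11) : Prop := (nm (q - q') = 1 ∨ nm (q - q') = 3) ∧
  nm (a - q * c) < nm c ∧ nm (a - q' * c) < nm c

/-- two possible quotients are equal or adjacent -/
theorem step_connect (a c : O11) (hc : c ≠ 0) (q q' : O11) (h : nm (a - q * c) < nm c)
    (h' : nm (a - q' * c) < nm c) : q = q' ∨ Adj a c q q' := by
  have hN := nm_pos hc
  have h1 : nm (q - q') * nm c < 4 * nm c := by
    rw [← nm_mul]
    have e : (q - q') * c = (a - q' * c) - (a - q * c) := by ring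
    rw [e]
    have := nm_par (a - q' * c) (a - q * c)
    have := nm_nonneg ((a - q' * c) + (a - q * c))
    linarith
  have h2 : nm (q - q') < 4 := lt_of_mul_lt_mul_right h1 hN.le
  have h3 := nm_nonneg (q - q')
  rcases (show nm (q - q') = 0 ∨ nm (q - q') = 1 ∨ nm (q - q') = 2 ∨ nm (q - q') = 3 by omega)
    with h5 | h5 | h5 | h5
  · left
    exact sub_eq_zero.1 (nm_eq_zero h5)
  · right; exact ⟨Or.inl h5, h, h'⟩
  · exact absurd h5 two_cases
  · right; exact ⟨Or.inr h5, h, h'⟩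

end Pool.Agent.F8.BG.D11
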