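import Pool.Agent.Lib.MP_305fdd_al.F8.BG.D11.Pres
import Pool.Agent.Lib.MP_305fdd_al.F8.BG.Mat4

/-!
# MP_305fdd_al, the Bianchi group of `ℚ(√-11)`: the subgroup `G₀ = {± 1} × (F₆ ⋊ ℤ)` of index `12`

`O11 = ℤ[w]`, `w² = w - 3`. `al11` is an automorphism of the free group `F` of rank six with `al11 x_i = (positive word)⁻¹`, `N11 = F ⋊ ℤ`,
`rm : N11 → SL₂(O11)`. The image of `rm`, times `± 1`, is the preimage `G0` of a cyclic subgroup of order five of `SL₂(F₄)`,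
`F₄ = O11 / 2`. `tA`, `tU`, `tB` are the tables of the action of the generators on the cosets, with the representatives `r4`.
-/

set_option autoImplicit false

namespace Pool.Agent.F8.BG.D11

open Pool.Agent.F8

/-- `SL₂(O11)` -/
abbrev GG : Type := GQ (-3) 1

/-- the words of `al11` -/
def W11 : Fin 6 → List (Fin 6 × Bool) := ![
  [(3, false), (4, false), (0, false), (1, false), (2, false), (0, false)],
  [(3, false), (4, false), (0, false), (1, false), (2, false), (2, false), (0, false)],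
  [(3, false), (4, false), (0, false), (1, false), (1, false), (2, false), (0, false)],
  [(3, false), (4, false), (0, false), (3, false), (4, false), (4, false), (0, false)],
  [(3, false), (4, false), (0, false), (5, false)],
  [(3, false), (4, false), (4, false), (0, false)]]

/-- the words of the inverse of `al11` -/
def V11 : Fin 6 → List (Fin 6 × Bool) := ![
  [(0, false), (1, true), (0, false), (2, true), (0, false), (3, true), (5, false)],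
  [(5, true), (3, false), (0, true), (2, false), (3, true), (5, false)],
  [(5, true), (3, false), (0, true), (2, false), (0, true), (1, false), (2, true), (0, false), (3, true), (5, false)],
  [(5, true), (3, false), (0, true), (2, false), (0, true), (1, false), (0, true), (5, true), (3, false), (5, true), (5, true), (3, false)],
  [(5, true), (3, false), (0, true), (2, false), (0, true), (1, false), (0, true), (5, false), (3, true), (5, false), (0, false), (1, true), (0, false), (2, true), (0, false), (3, true), (5, false)],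
  [(4, false), (3, true), (5, false)]]

theorem WV : ∀ i, FreeGroup.reduce (sbw W11 (V11 i)) = [(i, true)] := by decide
theorem VW : ∀ i, FreeGroup.reduce (sbw V11 (W11 i)) = [(i, true)] := by decide

/-- the automorphism -/
def al11 : MulAut (FreeGroup (Fin 6)) := autw W11 V11 WV VW

/-- `F₆ ⋊ ℤ` -/
abbrev N11 : Type := GR al11

/-- the matrices of the generators of `F` -/
def y4 : Fin 6 → M4 O11 := ![
  (⟨1, 0⟩, ⟨-1, 1⟩, ⟨-1, 1⟩, ⟨-1, -1⟩),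
  (⟨0, 0⟩, ⟨1, 0⟩, ⟨-1, 0⟩, ⟨-1, -1⟩),
  (⟨0, 0⟩, ⟨-1, 0⟩, ⟨1, 0⟩, ⟨-1, -1⟩),
  (⟨7, -1⟩, ⟨3, 4⟩, ⟨1, 4⟩, ⟨-8, 4⟩),
  (⟨-5, 1⟩, ⟨1, -3⟩, ⟨-3, -3⟩, ⟨7, -2⟩),
  (⟨-5, 1⟩, ⟨-3, -3⟩, ⟨1, -3⟩, ⟨7, -2⟩)]

/-- the matrix of `t` -/
def t4 : M4 O11 := (⟨-3, 1⟩, ⟨-1, -2⟩, ⟨1, -2⟩, ⟨4, 0⟩)

/-- the representatives of the cosets -/
def r4 : Fin 12 → M4 O11 := ![
  (⟨1, 0⟩, ⟨0, 0⟩, ⟨0, 0⟩, ⟨1, 0⟩),
  (⟨-2, -1⟩, ⟨1, -2⟩, ⟨0, 1⟩, ⟨-2, 1⟩),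
  (⟨1, -1⟩, ⟨2, 0⟩, ⟨0, 1⟩, ⟨-2, 1⟩),
  (⟨0, -1⟩, ⟨2, 0⟩, ⟨-2, 1⟩, ⟨-1, -1⟩),
  (⟨0, 1⟩, ⟨-2, 1⟩, ⟨2, 1⟩, ⟨-1, 2⟩),
  (⟨-2, 1⟩, ⟨-1, -1⟩, ⟨0, 1⟩, ⟨-2, 0⟩),
  (⟨1, -1⟩, ⟨1, 0⟩, ⟨2, 0⟩, ⟨0, 1⟩),
  (⟨1, 0⟩, ⟨-1, 1⟩, ⟨0, 1⟩, ⟨-2, 0⟩),
  (⟨-1, 0⟩, ⟨1, 0⟩, ⟨0, 0⟩, ⟨-1, 0⟩),
  (⟨0, 1⟩, ⟨-2, 0⟩, ⟨-1, 0⟩, ⟨1, -1⟩),
  (⟨0, -1⟩, ⟨2, -1⟩, ⟨1, -1⟩, ⟨2, 0⟩),
  (⟨1, -1⟩, ⟨1, 0⟩, ⟨1, 1⟩, ⟨-1, 1⟩)]
theorem y4_det : ∀ i, (y4 i).1 * (y4 i).2.2.2 - (y4 i).2.1 * (y4 i).2.2.1 = 1 := by decide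
theorem t4_det : t4.1 * t4.2.2.2 - t4.2.1 * t4.2.2.1 = 1 := by decide
theorem r4_det : ∀ i, (r4 i).1 * (r4 i).2.2.2 - (r4 i).2.1 * (r4 i).2.2.1 = 1 := by decide

/-- the matrices of the generators of `F` -/
def my (i : Fin 6) : GG := M4.mat (y4 i) (y4_det i)

/-- the matrix of `t` -/
def mt : GG := M4.mat t4 t4_det

/-- the representatives of the cosets -/
def mr (i : Fin 12) : GG := M4.mat (r4 i) (r4_det i)

theorem rel4 : ∀ i, M4.mul (M4.mul t4 (y4 i)) (M4.inv t4) =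
    (W11 i).foldr (fun p m => M4.mul (if p.2 then y4 p.1 else M4.inv (y4 p.1)) m) M4.one := by
  decide

end Pool.Agent.F8.BG.D11
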