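import Pool.Agent.Lib.MP_305fdd_al.F8.BG.D11.StmE

/-!
# MP_305fdd_al, the Bianchi group of `ℚ(√-11)`: the character which corresponds to `ψ ∘ ρ`
-/

set_option autoImplicit false

namespace Pool.Agent.F8.BG.D11

open Pool.Agent.MP_305fdd_al Pool.Agent.Lib.MP_305fdd_al Pool.Agent.F8

private theorem chr_ext {Q : Type} [Group Q] (f g : GG →* Q) (h1 : f (mU 1) = g (mU 1))
    (h2 : f (mU ww) = g (mU ww)) (h3 : f (mB O11) = g (mB O11)) : f = g := by
  apply MonoidHom.ext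
  intro x
  exact sub' (f.eqLocus g) h1 h2 h3 x

private theorem chr_fac (t : ZMod 3) (ht : t * t = ((-3 : ℤ) : ZMod 3) + ((1 : ℤ) : ZMod 3) * t)
    (g h : GG) (e : rdq (-3) 1 3 g = rdq (-3) 1 3 h) :
    SLm (evq (-3) 1 (Int.castRingHom (ZMod 3)) t ht) g =
      SLm (evq (-3) 1 (Int.castRingHom (ZMod 3)) t ht) h := by
  have key : ∀ x : GG, SLm (evq (-3) 1 (Int.castRingHom (ZMod 3)) t ht) x =
      SLm (evq (-3) 1 (RingHom.id (ZMod 3)) t ht) (rdq (-3) 1 3 x) := by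
    intro x
    apply Subtype.ext
    ext i j
    rfl
  rw [key, key, e]

private def chr_pi (n : ℕ) [NeZero n] (b : (ZMod 7)ˣ) (hb : b ^ n = 1) :
    Multiplicative (ZMod n) →* (ZMod 7)ˣ where
  toFun x := b ^ (Multiplicative.toAdd x).val
  map_one' := by
    show b ^ (0 : ZMod n).val = 1
    rw [ZMod.val_zero, pow_zero]
  map_mul' x y := by
    show b ^ (Multiplicative.toAdd x + Multiplicative.toAdd y).val = _
    rw [ZMod.val_add, ← pow_add, ← pow_eq_pow_mod _ hb]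

private theorem chr_B4 : (mB O11) ^ 4 = 1 := by
  apply M4.of_inj
  rw [M4.of_pow, M4.of_one]
  have h : M4.npow (0, -1, 1, 0) 4 = (M4.one : M4 O11) := by decide
  exact h

private theorem chr_AB6 : (mU (1 : O11) * mB O11) ^ 6 = 1 := by
  apply M4.of_inj
  rw [M4.of_pow, M4.of_mul, M4.of_one]
  have h : M4.npow (M4.mul (1, 1, 0, 1) (0, -1, 1, 0)) 6 = (M4.one : M4 O11) := by decide
  exact h

private theorem chr_rU (t : ZMod 3)
    (ht : t * t = ((-3 : ℤ) : ZMod 3) + ((1 : ℤ) : ZMod 3) * t) (x : O11) :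
    chi3 (SLm (evq (-3) 1 (Int.castRingHom (ZMod 3)) t ht) (mU x)) =
      Multiplicative.ofAdd ((x.re : ZMod 3) + (x.im : ZMod 3) * t) := by
  have h : ∀ a b c d : ZMod 3, ∀ y : ZMod 3, a = 1 → b = y → c = 0 → d = 1 →
      Multiplicative.ofAdd ((a + d) * c - b * d * (c * c - 1)) = Multiplicative.ofAdd y := by
    decide
  refine h _ _ _ _ _ ?_ rfl ?_ ?_
  · exact map_one (evq (-3) 1 (Int.castRingHom (ZMod 3)) t ht)
  · exact map_zero (evq (-3) 1 (Int.castRingHom (ZMod 3)) t ht)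
  · exact map_one (evq (-3) 1 (Int.castRingHom (ZMod 3)) t ht)

private theorem chr_rB (t : ZMod 3)
    (ht : t * t = ((-3 : ℤ) : ZMod 3) + ((1 : ℤ) : ZMod 3) * t) :
    chi3 (SLm (evq (-3) 1 (Int.castRingHom (ZMod 3)) t ht) (mB O11)) = 1 := by
  have h : ∀ a b c d : ZMod 3, a = 0 → d = 0 → c = 1 →
      Multiplicative.ofAdd ((a + d) * c - b * d * (c * c - 1)) = Multiplicative.ofAdd 0 := by
    decide
  refine h _ _ _ _ ?_ ?_ ?_
  · exact map_zero (evq (-3) 1 (Int.castRingHom (ZMod 3)) t ht)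
  · exact map_zero (evq (-3) 1 (Int.castRingHom (ZMod 3)) t ht)
  · exact map_one (evq (-3) 1 (Int.castRingHom (ZMod 3)) t ht)

private theorem chr_psA : ps (mU 1) = Multiplicative.ofAdd 1 := by
  show chi3 (r3a (mU 1)) * chi3 (r3a (mU 1)) * chi3 (r3b (mU 1)) * chi3 (r3b (mU 1)) = _
  unfold r3a r3b
  rw [chr_rU, chr_rU]
  decide

private theorem chr_psU : ps (mU ww) = Multiplicative.ofAdd 2 := by
  show chi3 (r3a (mU ww)) * chi3 (r3a (mU ww)) * chi3 (r3b (mU ww)) * chi3 (r3b (mU ww)) = _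
  unfold r3a r3b
  rw [chr_rU, chr_rU]
  decide

/-- [BG chr11] the character which corresponds to `ψ ∘ ρ`. -/
theorem p_chr : S_chr := by
  intro Λ _ Φ ρ hρ
  obtain ⟨p7, hp⟩ : ∃ p7, p7 = e7.comp ps := ⟨_, rfl⟩
  rw [← hp]
  obtain ⟨X, hX⟩ : ∃ X, X = Φ.invFun _ (p7.comp ρ) := ⟨_, rfl⟩
  rw [← hX]
  have hΦ : Φ.toFun _ X = p7.comp ρ := by rw [hX, Φ.right_inv]
  have hpw : ∀ (k : ℕ) (Y : GG →* (ZMod 7)ˣ), Φ.toFun _ (Y ^ k) = (Φ.toFun _ Y) ^ k := by
    intro k Y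
    exact Φ.nat (powMonoidHom k : (ZMod 7)ˣ →* (ZMod 7)ˣ) Y
  have he7 : ∀ x : Multiplicative (ZMod 3), e7 x ^ 3 = 1 := by decide
  have hX3 : X ^ 3 = 1 := by
    apply Φ.injective
    rw [hpw, hΦ, Φ.one, hp]
    apply MonoidHom.ext
    intro l
    exact he7 _
  refine ⟨hX3, fun hA => ?_⟩
  have hg3 : ∀ g, X g ^ 3 = 1 := fun g => DFunLike.congr_fun hX3 g
  have hB : X (mB O11) = 1 := by
    have h1 : X (mB O11) ^ 4 = 1 := by rw [← map_pow, chr_B4, map_one]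
    rw [pow_succ, hg3, one_mul] at h1
    exact h1
  obtain ⟨b, hb⟩ : ∃ b, b = X (mU ww) := ⟨_, rfl⟩
  have hb3 : b ^ 3 = 1 := by rw [hb]; exact hg3 _
  have hb9 : b ^ 9 = 1 := by
    have : b ^ 9 = (b ^ 3) ^ 3 := by rw [← pow_mul]
    rw [this, hb3, one_pow]
  -- the values of `p7`
  have hpA : p7 (mU 1) = e7 (Multiplicative.ofAdd 1) := by
    rw [hp, MonoidHom.comp_apply, chr_psA]
  have hpU : p7 (mU ww) = e7 (Multiplicative.ofAdd 2) := by
    rw [hp, MonoidHom.comp_apply, chr_psU]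
  -- the factorisations
  have hpf : ∀ g h : GG, rdq (-3) 1 3 g = rdq (-3) 1 3 h → p7 g = p7 h := by
    intro g h e
    rw [hp]
    show e7 (chi3 (r3a g) * chi3 (r3a g) * chi3 (r3b g) * chi3 (r3b g)) =
      e7 (chi3 (r3a h) * chi3 (r3a h) * chi3 (r3b h) * chi3 (r3b h))
    have ea : r3a g = r3a h := chr_fac _ _ _ _ e
    have eb : r3b g = r3b h := chr_fac _ _ _ _ e
    rw [ea, eb]
  have hXd : X = ((chr_pi 3 b hb3).comp (chi3.comp r3b)) *
      ((chr_pi 3 b hb3).comp (chi3.comp r3a))⁻¹ := by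
    apply chr_ext
    · rw [hA]
      show 1 = chr_pi 3 b hb3 (chi3 (r3b (mU 1))) * (chr_pi 3 b hb3 (chi3 (r3a (mU 1))))⁻¹
      have e : chi3 (r3b (mU 1)) = chi3 (r3a (mU 1)) := by
        unfold r3a r3b
        rw [chr_rU, chr_rU]
        decide
      rw [e, mul_inv_cancel]
    · rw [← hb]
      show b = chr_pi 3 b hb3 (chi3 (r3b (mU ww))) * (chr_pi 3 b hb3 (chi3 (r3a (mU ww))))⁻¹
      have e1 : chi3 (r3a (mU ww)) = 1 := by
        unfold r3a
        rw [chr_rU]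
        decide
      have e2 : chi3 (r3b (mU ww)) = Multiplicative.ofAdd 1 := by
        unfold r3b
        rw [chr_rU]
        decide
      rw [e1, e2, map_one (chr_pi 3 b hb3), inv_one, mul_one]
      show b = b ^ 1
      rw [pow_one]
    · rw [hB]
      show 1 = chr_pi 3 b hb3 (chi3 (r3b (mB O11))) * (chr_pi 3 b hb3 (chi3 (r3a (mB O11))))⁻¹
      unfold r3a r3b
      rw [chr_rB, chr_rB, mul_inv_cancel]
  have hXf : ∀ g h : GG, rdq (-3) 1 3 g = rdq (-3) 1 3 h → X g = X h := by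
    intro g h e
    rw [hXd]
    show chr_pi 3 b hb3 (chi3 (r3b g)) * (chr_pi 3 b hb3 (chi3 (r3a g)))⁻¹ =
      chr_pi 3 b hb3 (chi3 (r3b h)) * (chr_pi 3 b hb3 (chi3 (r3a h)))⁻¹
    have ea : r3a g = r3a h := chr_fac _ _ _ _ e
    have eb : r3b g = r3b h := chr_fac _ _ _ _ e
    rw [ea, eb]
  -- the character modulo nine
  have hrel : Rel (Multiplicative (ZMod 9)) 1 (Multiplicative.ofAdd 1) 1 := by
    refine ⟨?_, ?_, ?_, ?_⟩ <;> decide
  obtain ⟨X9, hA9, hU9, hB9⟩ := pres' _ _ _ _ hrel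
  obtain ⟨pi, hpi⟩ : ∃ pi, pi = chr_pi 9 b hb9 := ⟨_, rfl⟩
  have hX9 : X = pi.comp X9 := by
    apply chr_ext
    · rw [hA, MonoidHom.comp_apply, hA9, map_one]
    · rw [← hb, MonoidHom.comp_apply, hU9, hpi]
      show b = b ^ 1
      rw [pow_one]
    · rw [hB, MonoidHom.comp_apply, hB9, map_one]
  obtain ⟨Z, hZ⟩ : ∃ Z, Z = Φ.invFun _ (X9.comp ρ) := ⟨_, rfl⟩
  have hΦZ : Φ.toFun _ (pi.comp Z) = X.comp ρ := by
    rw [Φ.nat, hZ, Φ.right_inv, hX9, MonoidHom.comp_assoc]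
  have hZB : Z (mB O11) = 1 := by
    have h1 : Z (mB O11) ^ 4 = 1 := by rw [← map_pow, chr_B4, map_one]
    revert h1
    generalize Z (mB O11) = z
    revert z
    decide
  have hZA : pi (Z (mU 1)) = 1 := by
    have h1 : Z (mU 1) ^ 6 = 1 := by
      have h2 : (Z (mU 1) * Z (mB O11)) ^ 6 = 1 := by
        rw [← map_mul, ← map_pow, chr_AB6, map_one]
      rw [hZB, mul_one] at h2
      exact h2
    have h3 : ∀ z : Multiplicative (ZMod 9), z ^ 6 = 1 →
        ∃ n : Fin 3, (Multiplicative.toAdd z).val = 3 * n.val := by decide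
    obtain ⟨n, hn⟩ := h3 _ h1
    rw [hpi]
    show b ^ (Multiplicative.toAdd (Z (mU 1))).val = 1
    rw [hn, pow_mul, hb3, one_pow]
  obtain ⟨k, hk⟩ : ∃ k, k = (Multiplicative.toAdd (Z (mU ww))).val := ⟨_, rfl⟩
  have hXk : pi.comp Z = X ^ k := by
    apply chr_ext
    · rw [MonoidHom.comp_apply, hZA, MonoidHom.pow_apply, hA, one_pow]
    · rw [MonoidHom.comp_apply, MonoidHom.pow_apply, ← hb, hpi, hk]
      rfl
    · rw [MonoidHom.comp_apply, hZB, map_one, MonoidHom.pow_apply, hB, one_pow]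
  have hρk : ∀ l, X (ρ l) = p7 (ρ l) ^ k := by
    intro l
    have h1 : X.comp ρ = (p7.comp ρ) ^ k := by
      rw [← hΦZ, hXk, hpw, hΦ]
    exact DFunLike.congr_fun h1 l
  have hall : ∀ g, X g = p7 g ^ k := by
    intro g
    obtain ⟨l, hl⟩ := hρ.img 3 g
    rw [← hXf _ _ hl, ← hpf _ _ hl, hρk]
  have hU1 : b = 1 := by
    have h1 := hall (mU 1)
    have h2 := hall (mU ww)
    rw [hA, hpA] at h1
    rw [← hb, hpU] at h2
    have h3 : (Multiplicative.ofAdd 2 : Multiplicative (ZMod 3)) =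
      Multiplicative.ofAdd 1 * Multiplicative.ofAdd 1 := by decide
    rw [h2, h3, map_mul, mul_pow, ← h1, one_mul]
  have hX1 : X = 1 := by
    apply chr_ext
    · rw [hA, MonoidHom.one_apply]
    · rw [← hb, hU1, MonoidHom.one_apply]
    · rw [hB, MonoidHom.one_apply]
  obtain ⟨l, hl⟩ := hρ.img 3 (mU 1)
  have h5 : p7 (ρ l) = 1 := by
    have h6 : p7.comp ρ = 1 := by rw [← hΦ, hX1, Φ.one]
    exact DFunLike.congr_fun h6 l
  rw [hpf _ _ hl, hpA] at h5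
  revert h5
  decide

end Pool.Agent.F8.BG.D11
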