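import Pool.Agent.Lib.MP_305fdd_al.F8.BG.D11.StmE
import Pool.Agent.Lib.MP_305fdd_al.F8.BG.StmC

/-!
# MP_305fdd_al, the Bianchi group of `ℚ(√-11)`: piece cj (helper98), conjugation modulo two
-/

set_option autoImplicit false

namespace Pool.Agent.F8.BG.D11

open Pool.Agent.MP_305fdd_al Pool.Agent.Lib.MP_305fdd_al Pool.Agent.F8
open Pool.Agent.F8.G (SL_ext SL_mul SL_det SL_neg mU00 mU01 mU10 mU11 mB00 mB01 mB10 mB11
  U00 U01 U10 U11 B00 B01 B10 B11)

/-- the field with four elements -/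
private abbrev cjR : Type := Qf (-3) 1 (ZMod 2)

private theorem cj_aux : ∀ x y : ZMod 2, (⟨x, y⟩ : cjR) = 0 ∨
    (⟨x, y⟩ : cjR) * (⟨x, y⟩ * ⟨x, y⟩) = 1 := by decide

private theorem cj_three (z : cjR) : z = 0 ∨ z * (z * z) = 1 := by
  obtain ⟨x, y⟩ := z
  exact cj_aux x y

private theorem cj_ne : (0 : cjR) ≠ 1 := by decide

private theorem cj_loc : IsLocalRing cjR := by
  have : Nontrivial cjR := ⟨0, 1, cj_ne⟩
  refine IsLocalRing.of_isUnit_or_isUnit_one_sub_self fun z => ?_
  rcases cj_three z with h | h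
  · right
    rw [h, sub_zero]
    exact isUnit_one
  · left
    exact IsUnit.of_mul_eq_one _ h

private theorem cj_rU (x : O11) : r2 (mU x) = mU (Qfm (-3) 1 (Int.castRingHom (ZMod 2)) x) := by
  apply SL_ext
  · exact map_one (Qfm (-3) 1 (Int.castRingHom (ZMod 2)))
  · rfl
  · exact map_zero (Qfm (-3) 1 (Int.castRingHom (ZMod 2)))
  · exact map_one (Qfm (-3) 1 (Int.castRingHom (ZMod 2)))

private theorem cj_rB : r2 (mB O11) = mB cjR := by
  apply SL_ext
  · exact map_zero (Qfm (-3) 1 (Int.castRingHom (ZMod 2)))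
  · show Qfm (-3) 1 (Int.castRingHom (ZMod 2)) (-1) = -1
    rw [map_neg, map_one]
  · exact map_one (Qfm (-3) 1 (Int.castRingHom (ZMod 2)))
  · exact map_zero (Qfm (-3) 1 (Int.castRingHom (ZMod 2)))

private theorem cj_U (x : cjR) : mU x ∈ r2.range := by
  obtain ⟨m, hm⟩ := ZMod.intCast_surjective x.re
  obtain ⟨n, hn⟩ := ZMod.intCast_surjective x.im
  refine ⟨mU ⟨m, n⟩, ?_⟩
  rw [cj_rU]
  congr 1
  exact QuadraticAlgebra.ext hm hn

private theorem cj_B : mB cjR ∈ r2.range := ⟨mB O11, cj_rB⟩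

/-- matrices whose lower left entry is not zero -/
private theorem cj_unit (g : SL2 cjR) (hg : g.val 1 0 ≠ 0) : g ∈ r2.range := by
  have hc := (cj_three (g.val 1 0)).resolve_left hg
  have hd := SL_det g
  set a := g.val 0 0 with ha
  set b := g.val 0 1 with hb
  set c := g.val 1 0 with hcc
  set d := g.val 1 1 with hdd
  have key : g = mU ((a - 1) * (c * c)) * (mB cjR * (mU (-c) * ((mB cjR)⁻¹ *
      mU ((d - 1) * (c * c))))) := by
    have h1 : mB cjR * (mU (-c) * ((mB cjR)⁻¹ * mU ((d - 1) * (c * c)))) =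
        (⟨!![1, (d - 1) * (c * c); c, d], by
          rw [Matrix.det_fin_two_of]; linear_combination (-(d - 1)) * hc⟩ : SL2 cjR) := by
      have e1 : (mB cjR)⁻¹ * mU ((d - 1) * (c * c)) =
          (⟨!![0, 1; -1, -((d - 1) * (c * c))], by
            rw [Matrix.det_fin_two_of]; ring⟩ : SL2 cjR) := by
        rw [inv_mul_eq_iff_eq_mul]
        apply SL_ext
        · rw [B00, mU00]; exact (neg_neg _).symm
        · rw [B01, mU01]; exact (neg_neg _).symm
        · rw [B10, mU10]; rfl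
        · rw [B11, mU11]; rfl
      rw [e1]
      apply SL_ext
      · rw [B00, U10]; exact neg_neg _
      · rw [B01, U11]; exact neg_neg _
      · rw [B10, U00]
        show (0 : cjR) + -c * -1 = c
        ring
      · rw [B11, U01]
        show (1 : cjR) + -c * -((d - 1) * (c * c)) = d
        linear_combination (d - 1) * hc
    rw [h1]
    apply SL_ext
    · rw [U00]
      show a = 1 + (a - 1) * (c * c) * c
      linear_combination (-(a - 1)) * hc
    · rw [U01]
      show b = (d - 1) * (c * c) + (a - 1) * (c * c) * d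
      linear_combination (-b) * hc - (c * c) * hd
    · rw [U10]
      rfl
    · rw [U11]
      rfl
  rw [key]
  exact mul_mem (cj_U _) (mul_mem cj_B (mul_mem (cj_U _) (mul_mem (inv_mem cj_B) (cj_U _))))

private theorem cj_onto (g : SL2 cjR) : g ∈ r2.range := by
  by_cases hg : g.val 1 0 = 0
  · have hd := SL_det g
    have h1 : mB cjR * g ∈ r2.range := by
      apply cj_unit
      rw [B10]
      intro h0
      rw [h0, hg, zero_mul, mul_zero, sub_zero] at hd
      exact cj_ne hd
    have h2 := mul_mem (inv_mem cj_B) h1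
    rwa [inv_mul_cancel_left] at h2
  · exact cj_unit g hg

/-- [BG cj11] conjugation modulo two -/
theorem p_cj (h_X3 : BG.S_X3) : S_cj := by
  intro Λ _ Φ ρ htr
  have := cj_loc
  have hU : ∃ l, Φ.toFun _ r2 l = mU 1 := by
    have h1 : mU (1 : cjR) ∈ (Φ.toFun _ r2).range := by
      rw [Φ.range_eq]
      exact cj_U 1
    exact h1
  have hB : ∃ l, Φ.toFun _ r2 l = mB _ := by
    have h1 : mB cjR ∈ (Φ.toFun _ r2).range := by
      rw [Φ.range_eq]
      exact cj_B
    exact h1
  obtain ⟨C, D, hCD, hDC, hl⟩ := h_X3 cjR Λ (Φ.toFun _ r2) (r2.comp ρ) htr hU hB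
  have hdet : C.det * D.det = 1 := by
    rw [← Matrix.det_mul, hCD, Matrix.det_one]
  have hc : C.det * (C.det * C.det) = 1 := by
    refine (cj_three C.det).resolve_left fun h0 => ?_
    rw [h0, zero_mul] at hdet
    exact cj_ne hdet
  have hdC : (C.det • C).det = 1 := by
    rw [Matrix.det_smul, Fintype.card_fin]
    linear_combination hc
  obtain ⟨γ, hγ⟩ := cj_onto ⟨C.det • C, hdC⟩
  refine ⟨γ, fun l => ?_⟩
  rw [map_mul, map_mul, map_inv, mul_inv_eq_iff_eq_mul]
  apply Subtype.ext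
  rw [Matrix.SpecialLinearGroup.coe_mul, Matrix.SpecialLinearGroup.coe_mul, hγ]
  show C.det • C * (r2 (ρ l)).val = (Φ.toFun _ r2 l).val * (C.det • C)
  rw [hl l]
  show C.det • C * (r2 (ρ l)).val = C * (r2 (ρ l)).val * D * (C.det • C)
  rw [Matrix.mul_smul, Matrix.smul_mul, Matrix.mul_assoc (C * (r2 (ρ l)).val), hDC, Matrix.mul_one]

end Pool.Agent.F8.BG.D11
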