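import Pool.Agent.Lib.MP_305fdd_al.F8.BG.D11.StmE

/-!
# MP_305fdd_al, the Bianchi group of `ℚ(√-11)`: the homomorphism `η : G0 → N11`
-/

set_option autoImplicit false

namespace Pool.Agent.F8.BG.D11

open Pool.Agent.MP_305fdd_al Pool.Agent.Lib.MP_305fdd_al Pool.Agent.F8
open Pool.Agent.F8.G (SL_ext SL_mul SL_det SL_neg)

/-! ### Letters and words -/

private def eta_L : Fin 5 → GG := ![mU 1, (mU 1)⁻¹, mU ww, (mU ww)⁻¹, mB O11]

private def eta_T : Fin 5 → Tb 12 (Fin 6) := ![tA, tAi, tU, tUi, tB]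

private def eta_M : Fin 5 → M4 O11 :=
  ![(1, 1, 0, 1), (1, -1, 0, 1), (1, ⟨0, 1⟩, 0, 1), (1, -⟨0, 1⟩, 0, 1), (0, -1, 1, 0)]

private theorem eta_ofL (k : Fin 5) : M4.of (eta_L k) = eta_M k := by
  have h1 : M4.of (mU (1 : O11)) = (1, 1, 0, 1) := rfl
  have h2 : M4.of (mU ww) = (1, ⟨0, 1⟩, 0, 1) := rfl
  have h3 : M4.inv ((1, 1, 0, 1) : M4 O11) = (1, -1, 0, 1) := by decide
  have h4 : M4.inv ((1, ⟨0, 1⟩, 0, 1) : M4 O11) = (1, -⟨0, 1⟩, 0, 1) := by decide
  fin_cases k
  · exact h1
  · show M4.of (mU (1 : O11))⁻¹ = (1, -1, 0, 1)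
    rw [M4.of_inv, h1, h3]
  · exact h2
  · show M4.of (mU ww)⁻¹ = (1, -⟨0, 1⟩, 0, 1)
    rw [M4.of_inv, h2, h4]
  · rfl

private theorem eta_ofW (l : List (Fin 5)) : M4.of ((l.map eta_L).prod) =
    l.foldr (fun k m => M4.mul (eta_M k) m) M4.one := by
  induction l with
  | nil => exact M4.of_one
  | cons k l ih => rw [List.map_cons, List.prod_cons, M4.of_mul, ih, eta_ofL]; rfl

section

variable {f : GG →* Equiv.Perm (Fin 12 × N11)}

private theorem eta_fL (hA : f (mU 1) = pA) (hU : f (mU ww) = pU) (hB : f (mB O11) = pB)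
    (k : Fin 5) (x : Fin 12 × N11) : f (eta_L k) x = Tb.act al11 (eta_T k) x := by
  fin_cases k
  · show f (mU 1) x = Tb.act al11 tA x
    rw [hA]; rfl
  · show f (mU 1)⁻¹ x = Tb.act al11 tAi x
    rw [map_inv, hA]; rfl
  · show f (mU ww) x = Tb.act al11 tU x
    rw [hU]; rfl
  · show f (mU ww)⁻¹ x = Tb.act al11 tUi x
    rw [map_inv, hU]; rfl
  · show f (mB O11) x = Tb.act al11 tB x
    rw [hB]; rfl

private theorem eta_fW (hA : f (mU 1) = pA) (hU : f (mU ww) = pU) (hB : f (mB O11) = pB)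
    (l : List (Fin 5)) (x : Fin 12 × N11) : f ((l.map eta_L).prod) x =
      Tb.act al11 (Tb.prod W11 V11 (l.map eta_T)) x := by
  induction l with
  | nil =>
    rw [List.map_nil, List.prod_nil, map_one, List.map_nil, Tb.prod_nil, Tb.act_one]
    rfl
  | cons k l ih =>
    rw [List.map_cons, List.prod_cons, map_mul, Equiv.Perm.mul_apply, ih, List.map_cons,
      Tb.prod_cons, eta_fL hA hU hB]
    exact (Tb.act_mul W11 V11 WV VW _ _ x).symm

/-- (1) -/
private theorem eta_loc (hA : f (mU 1) = pA) (hU : f (mU ww) = pU) (hB : f (mB O11) = pB)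
    (g : GG) : ∀ x, g * loc x = loc (f g x) ∨ g * loc x = -loc (f g x) := by
  let H : Subgroup GG :=
    { carrier := {g | ∀ x, g * loc x = loc (f g x) ∨ g * loc x = -loc (f g x)}
      one_mem' := by
        intro x
        left
        rw [map_one, one_mul]
        rfl
      mul_mem' := by
        intro g h hg hh x
        rw [map_mul, Equiv.Perm.mul_apply]
        rcases hh x with h1 | h1 <;> rcases hg (f h x) with h2 | h2
        · left; rw [mul_assoc, h1, h2]
        · right; rw [mul_assoc, h1, h2]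
        · right; rw [mul_assoc, h1, mul_neg, h2]
        · left; rw [mul_assoc, h1, mul_neg, h2, neg_neg]
      inv_mem' := by
        intro g hg x
        have h1 := hg (f g⁻¹ x)
        have h2 : f g (f g⁻¹ x) = x := by
          rw [← Equiv.Perm.mul_apply, ← map_mul, mul_inv_cancel, map_one]
          rfl
        rw [h2] at h1
        rcases h1 with h1 | h1
        · left; rw [← h1, inv_mul_cancel_left]
        · right; rw [← neg_eq_iff_eq_neg] at h1; rw [← h1, mul_neg, inv_mul_cancel_left] }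
  exact sub' H (fun x => by rw [hA]; exact loc_A x) (fun x => by rw [hU]; exact loc_U x)
    (fun x => by rw [hB]; exact loc_B x) g

private def eta_R (n : N11) (x : Fin 12 × N11) : Fin 12 × N11 := (x.1, x.2 * n)

private theorem eta_Ract (t : Tb 12 (Fin 6)) (n : N11) (x : Fin 12 × N11) :
    Tb.act al11 t (eta_R n x) = eta_R n (Tb.act al11 t x) := by
  unfold Tb.act eta_R
  simp only [mul_assoc]

/-- (2) -/
private theorem eta_equ (hA : f (mU 1) = pA) (hU : f (mU ww) = pU) (hB : f (mB O11) = pB)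
    (g : GG) : ∀ n x, f g (eta_R n x) = eta_R n (f g x) := by
  let H : Subgroup GG :=
    { carrier := {g | ∀ n x, f g (eta_R n x) = eta_R n (f g x)}
      one_mem' := by
        intro n x
        rw [map_one]
        rfl
      mul_mem' := by
        intro g h hg hh n x
        rw [map_mul, Equiv.Perm.mul_apply, Equiv.Perm.mul_apply, hh, hg]
      inv_mem' := by
        intro g hg n x
        have h1 := hg n (f g⁻¹ x)
        have h2 : f g (f g⁻¹ x) = x := by
          rw [← Equiv.Perm.mul_apply, ← map_mul, mul_inv_cancel, map_one]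
          rfl
        rw [h2] at h1
        rw [← h1, ← Equiv.Perm.mul_apply, ← map_mul, inv_mul_cancel, map_one]
        rfl }
  exact sub' H (fun n x => by rw [hA]; exact eta_Ract tA n x)
    (fun n x => by rw [hU]; exact eta_Ract tU n x) (fun n x => by rw [hB]; exact eta_Ract tB n x) g

end

/-! ### Membership in `G0` -/

private theorem eta_gen (K : Subgroup N11) (hi : ∀ i, iR al11 (FreeGroup.of i) ∈ K)
    (ht : tR al11 ∈ K) (g : N11) : g ∈ K := by
  obtain ⟨w, n, rfl⟩ := GR_cases al11 g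
  refine K.mul_mem ?_ (K.zpow_mem ht n)
  refine FreeGroup.induction_on w ?_ ?_ ?_ ?_
  · rw [map_one]; exact K.one_mem
  · intro i; exact hi i
  · intro i _
    rw [map_inv]; exact K.inv_mem (hi i)
  · intro x y hx hy
    rw [map_mul]; exact K.mul_mem hx hy

/-- reduction modulo two of quadruples -/
private def eta_red (x : M4 O11) : M4 (Qf (-3) 1 (ZMod 2)) :=
  (⟨(x.1.re : ZMod 2), (x.1.im : ZMod 2)⟩, ⟨(x.2.1.re : ZMod 2), (x.2.1.im : ZMod 2)⟩,
    ⟨(x.2.2.1.re : ZMod 2), (x.2.2.1.im : ZMod 2)⟩, ⟨(x.2.2.2.re : ZMod 2), (x.2.2.2.im : ZMod 2)⟩)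

private theorem eta_of_r2 (g : GG) : M4.of (r2 g) = eta_red (M4.of g) := rfl

private theorem eta_mem (g : GG) : g ∈ G0 ↔
    M4.mul (eta_red (M4.of g)) (eta_red (y4 0)) = M4.mul (eta_red (y4 0)) (eta_red (M4.of g)) := by
  have h0 : M4.of s5 = eta_red (y4 0) := rfl
  constructor
  · intro h
    have h1 : r2 g * s5 = s5 * r2 g := h
    have h2 := congrArg M4.of h1
    rw [M4.of_mul, M4.of_mul, eta_of_r2, h0] at h2
    exact h2
  · intro h
    show r2 g * s5 = s5 * r2 g
    apply M4.of_inj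
    rw [M4.of_mul, M4.of_mul, eta_of_r2, h0]
    exact h

private theorem eta_my (i : Fin 6) : my i ∈ G0 := by
  rw [eta_mem]
  have h : ∀ i : Fin 6, M4.mul (eta_red (y4 i)) (eta_red (y4 0)) =
    M4.mul (eta_red (y4 0)) (eta_red (y4 i)) := by decide
  exact h i

private theorem eta_mt : mt ∈ G0 := by
  rw [eta_mem]
  have h : M4.mul (eta_red t4) (eta_red (y4 0)) =
    M4.mul (eta_red (y4 0)) (eta_red t4) := by decide
  exact h

private theorem eta_mr (i : Fin 12) (h : mr i ∈ G0) : i = 0 := by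
  rw [eta_mem] at h
  have h1 : ∀ i : Fin 12, M4.mul (eta_red (r4 i)) (eta_red (y4 0)) =
    M4.mul (eta_red (y4 0)) (eta_red (r4 i)) → i = 0 := by decide
  exact h1 i h

private theorem eta_neg : (-1 : GG) ∈ G0 := by
  rw [eta_mem, M4.of_neg, M4.of_one]
  decide

private theorem eta_rm (m : N11) : rm m ∈ G0 := by
  have h : m ∈ G0.comap rm := by
    refine eta_gen _ ?_ ?_ m
    · intro i
      show rm (iR al11 (FreeGroup.of i)) ∈ G0
      rw [show rm (iR al11 (FreeGroup.of i)) = my i from liR_of _ i]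
      exact eta_my i
    · show rm (tR al11) ∈ G0
      rw [show rm (tR al11) = mt from liR_tR _]
      exact eta_mt
  exact h

private theorem eta_mr0 : mr 0 = 1 := by
  apply M4.of_inj
  rw [M4.of_one]
  rfl

private theorem eta_loc0 : loc (0, 1) = 1 := by
  unfold loc
  rw [map_one, mul_one]
  exact eta_mr0

/-! ### The homomorphism -/

section

variable {f : GG →* Equiv.Perm (Fin 12 × N11)}

/-- (4) -/
private theorem eta_zero (hA : f (mU 1) = pA) (hU : f (mU ww) = pU) (hB : f (mB O11) = pB)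
    (g : GG) (hg : g ∈ G0) : (f g (0, 1)).1 = 0 := by
  have h1 := eta_loc hA hU hB g (0, 1)
  rw [eta_loc0, mul_one] at h1
  apply eta_mr
  unfold loc at h1
  rcases h1 with h1 | h1
  · have h2 : mr (f g (0, 1)).1 = g * (rm (f g (0, 1)).2)⁻¹ := by
      rw [eq_mul_inv_iff_mul_eq]; exact h1.symm
    rw [h2]
    exact G0.mul_mem hg (G0.inv_mem (eta_rm _))
  · have h2 : mr (f g (0, 1)).1 = (-1) * g * (rm (f g (0, 1)).2)⁻¹ := by
      rw [eq_mul_inv_iff_mul_eq, neg_one_mul, ← neg_eq_iff_eq_neg.2 h1]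
    rw [h2]
    exact G0.mul_mem (G0.mul_mem eta_neg hg) (G0.inv_mem (eta_rm _))

private def eta_hom (hA : f (mU 1) = pA) (hU : f (mU ww) = pU) (hB : f (mB O11) = pB) :
    G0 →* N11 where
  toFun g := (f g.val (0, 1)).2
  map_one' := by
    show (f (1 : GG) (0, 1)).2 = 1
    rw [map_one]
    rfl
  map_mul' x y := by
    show (f (x.val * y.val) (0, 1)).2 = _
    rw [map_mul, Equiv.Perm.mul_apply]
    have h1 : f y.val (0, 1) = eta_R (f y.val (0, 1)).2 (0, 1) := by
      unfold eta_R
      rw [one_mul]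
      exact Prod.ext (eta_zero hA hU hB y.val y.2) rfl
    rw [h1, eta_equ hA hU hB]
    unfold eta_R
    simp only [one_mul]

private theorem eta_negf (hB : f (mB O11) = pB) : f (-1) = 1 := by
  have h1 : (-1 : GG) = mB O11 * mB O11 := by
    apply M4.of_inj
    rw [M4.of_neg, M4.of_one, M4.of_mul]
    have h : M4.neg (M4.one : M4 O11) = M4.mul (0, -1, 1, 0) (0, -1, 1, 0) := by decide
    exact h
  rw [h1, map_mul, hB]
  exact table.c2

private theorem eta_fneg (hB : f (mB O11) = pB) (x : GG) : f (-x) = f x := by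
  have h : -x = (-1) * x := (neg_one_mul x).symm
  rw [h, map_mul, eta_negf hB, one_mul]

private theorem eta_pm (hA : f (mU 1) = pA) (hU : f (mU ww) = pU) (hB : f (mB O11) = pB)
    (x : G0) : x.val = rm (eta_hom hA hU hB x) ∨ x.val = -rm (eta_hom hA hU hB x) := by
  have h1 := eta_loc hA hU hB x.val (0, 1)
  rw [eta_loc0, mul_one] at h1
  have h2 := eta_zero hA hU hB x.val x.2
  unfold loc at h1
  rw [h2, eta_mr0, one_mul] at h1
  exact h1

private theorem eta_ker (hA : f (mU 1) = pA) (hU : f (mU ww) = pU) (hB : f (mB O11) = pB)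
    (x : G0) : eta_hom hA hU hB x = 1 ↔ x.val = 1 ∨ x.val = -1 := by
  constructor
  · intro h
    have := eta_pm hA hU hB x
    rw [h, map_one] at this
    exact this
  · intro h
    show (f x.val (0, 1)).2 = 1
    rcases h with h | h
    · rw [h, map_one]; rfl
    · rw [h, eta_negf hB]; rfl

/-! ### Surjectivity -/

private theorem eta_word (hA : f (mU 1) = pA) (hU : f (mU ww) = pU) (hB : f (mB O11) = pB)
    (g : GG) (m : M4 O11) (hm : M4.of g = m) (l : List (Fin 5)) (w : Wd (Fin 6))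
    (h1 : m = l.foldr (fun k m => M4.mul (eta_M k) m) M4.one ∨
      m = M4.neg (l.foldr (fun k m => M4.mul (eta_M k) m) M4.one))
    (h2 : Tb.prod W11 V11 (l.map eta_T) 0 = (0, w)) :
    (f g (0, 1)).2 = Wd.ev al11 w := by
  have h3 : f g = f ((l.map eta_L).prod) := by
    rcases h1 with h1 | h1
    · congr 1
      apply M4.of_inj
      rw [hm, h1, eta_ofW]
    · rw [← eta_fneg hB ((l.map eta_L).prod)]
      congr 1
      apply M4.of_inj
      rw [hm, h1, M4.of_neg, eta_ofW]
  rw [h3, eta_fW hA hU hB]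
  show Wd.ev al11 (Tb.prod W11 V11 (l.map eta_T) 0).2 * 1 = _
  rw [h2, mul_one]

private def eta_wy : Fin 6 → List (Fin 5) := ![
  [4, 0, 3, 4, 1, 2],
  [4, 0, 2],
  [4, 1, 3],
  [0, 3, 4, 2, 4, 3, 4, 1, 1, 4, 3, 4, 2],
  [4, 3, 4, 1, 2, 2, 4, 3, 4, 1, 2],
  [3, 4, 1, 2, 4, 3, 4, 3, 4, 2]]

private def eta_wt : List (Fin 5) := [1, 4, 3, 4, 2, 4, 0, 0, 3, 4, 2]

private theorem eta_wy1 : ∀ i : Fin 6,
    y4 i = (eta_wy i).foldr (fun k m => M4.mul (eta_M k) m) M4.one ∨
      y4 i = M4.neg ((eta_wy i).foldr (fun k m => M4.mul (eta_M k) m) M4.one) := by decide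

private theorem eta_wt1 : t4 = eta_wt.foldr (fun k m => M4.mul (eta_M k) m) M4.one ∨
      t4 = M4.neg (eta_wt.foldr (fun k m => M4.mul (eta_M k) m) M4.one) := by decide

private theorem eta_wy2 : ∀ i : Fin 6,
    Tb.prod W11 V11 ((eta_wy i).map eta_T) 0 = (0, ([(i, true)], 0)) := by decide

private theorem eta_wt2 : Tb.prod W11 V11 (eta_wt.map eta_T) 0 = (0, ([], 1)) := by decide

private theorem eta_sur (hA : f (mU 1) = pA) (hU : f (mU ww) = pU) (hB : f (mB O11) = pB)
    (h : N11) : eta_hom hA hU hB ⟨rm h, eta_rm h⟩ = h := by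
  let r : N11 →* G0 := rm.codRestrict G0 eta_rm
  let K : Subgroup N11 := MonoidHom.eqLocus ((eta_hom hA hU hB).comp r) (MonoidHom.id N11)
  have hK : h ∈ K := by
    refine eta_gen K ?_ ?_ h
    · intro i
      show (f (rm (iR al11 (FreeGroup.of i))) (0, 1)).2 = iR al11 (FreeGroup.of i)
      rw [show rm (iR al11 (FreeGroup.of i)) = my i from liR_of _ i]
      rw [eta_word hA hU hB (my i) (y4 i) rfl (eta_wy i) ([(i, true)], 0) (eta_wy1 i) (eta_wy2 i)]
      show iR al11 (FreeGroup.of i) * tR al11 ^ (0 : ℤ) = _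
      rw [zpow_zero, mul_one]
    · show (f (rm (tR al11)) (0, 1)).2 = tR al11
      rw [show rm (tR al11) = mt from liR_tR _]
      rw [eta_word hA hU hB mt t4 rfl eta_wt ([], 1) eta_wt1 eta_wt2]
      show iR al11 1 * tR al11 ^ (1 : ℤ) = _
      rw [map_one, one_mul, zpow_one]
  exact hK

/-! ### The peripheral subgroup -/

private def eta_UT : Subgroup GG where
  carrier := {M | M.val 1 0 = 0}
  one_mem' := by
    show (1 : GG).val 1 0 = 0
    exact congrArg (fun q : M4 O11 => q.2.2.1) M4.of_one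
  mul_mem' := by
    intro M N hM hN
    show (M * N).val 1 0 = 0
    have h1 : M.val 1 0 = 0 := hM
    have h2 : N.val 1 0 = 0 := hN
    rw [SL_mul, h1, h2, zero_mul, mul_zero, add_zero]
  inv_mem' := by
    intro M hM
    have h1 : M.val 1 0 = 0 := hM
    show (M⁻¹).val 1 0 = 0
    have h2 := congrArg (fun q : M4 O11 => q.2.2.1) (M4.of_inv M)
    have h3 : (M⁻¹).val 1 0 = -M.val 1 0 := h2
    rw [h3, h1, neg_zero]

private theorem eta_par1 (g : N11)
    (hg : g ∈ Subgroup.closure {iR al11 cc, iR al11 gg * tR al11}) : (rm g).val 1 0 = 0 := by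
  have h : Subgroup.closure {iR al11 cc, iR al11 gg * tR al11} ≤ eta_UT.comap rm := by
    rw [Subgroup.closure_le]
    rintro x (rfl | rfl)
    · show (rm (iR al11 cc)).val 1 0 = 0
      have h1 : rm (iR al11 cc) = FreeGroup.lift my cc := liR_iR _ _
      have h2 := congrArg (fun q : M4 O11 => q.2.2.1) (lift_my [(2, false), (1, true)])
      have h3 : (([(2, false), (1, true)] : List (Fin 6 × Bool)).foldr
        (fun p m => M4.mul (if p.2 then y4 p.1 else M4.inv (y4 p.1)) m) M4.one).2.2.1 = 0 := by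
        decide
      rw [h1]
      exact h2.trans h3
    · show (rm (iR al11 gg * tR al11)).val 1 0 = 0
      have h0 : iR al11 gg * tR al11 = Wd.ev al11 ([(1, false), (2, false), (0, false)], 1) := by
        show _ = iR al11 gg * tR al11 ^ (1 : ℤ)
        rw [zpow_one]
      have h2 := congrArg (fun q : M4 O11 => q.2.2.1)
        (of_rm ([(1, false), (2, false), (0, false)], 1))
      have h3 : (M4.wd y4 t4 ([(1, false), (2, false), (0, false)], 1)).2.2.1 = 0 := by
        decide
      rw [h0]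
      exact h2.trans h3
  exact h hg

private theorem eta_par (hA : f (mU 1) = pA) (hU : f (mU ww) = pU) (hB : f (mB O11) = pB)
    (x : G0) (hx : eta_hom hA hU hB x ∈ Subgroup.closure {iR al11 cc, iR al11 gg * tR al11}) :
    x.val.val 1 0 = 0 := by
  have h3 := eta_par1 _ hx
  rcases eta_pm hA hU hB x with h | h
  · rw [h]; exact h3
  · rw [h, SL_neg, h3, neg_zero]

/-! ### The label -/

private def eta_P : Fin 12 → ZMod 3 := ![0, 0, 2, 1, 0, 1, 2, 2, 2, 2, 2, 0]

private def eta_n (m : N11) : ZMod 3 := ((Multiplicative.toAdd (nR al11 m) : ℤ) : ZMod 3)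

private theorem eta_n_mul (m m' : N11) : eta_n (m * m') = eta_n m + eta_n m' := by
  unfold eta_n
  rw [map_mul, toAdd_mul, Int.cast_add]

private theorem eta_n_ev (w : Wd (Fin 6)) : eta_n (Wd.ev al11 w) = (w.2 : ZMod 3) := by
  unfold eta_n Wd.ev
  rw [nR_eq]
  rfl

private def eta_lam (x : Fin 12 × N11) : ZMod 3 := eta_P x.1 + eta_n x.2

private theorem eta_lam_act (t : Tb 12 (Fin 6)) (c : ZMod 3)
    (ht : ∀ i, eta_P (t i).1 + (((t i).2.2 : ℤ) : ZMod 3) = c + eta_P i) (x : Fin 12 × N11) :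
    eta_lam (Tb.act al11 t x) = c + eta_lam x := by
  unfold eta_lam Tb.act
  simp only [eta_n_mul, eta_n_ev]
  rw [← add_assoc, ht, add_assoc]

private theorem eta_psA : Multiplicative.toAdd (ps (mU 1)) = 1 := by decide
private theorem eta_psU : Multiplicative.toAdd (ps (mU ww)) = 2 := by decide
private theorem eta_psB : Multiplicative.toAdd (ps (mB O11)) = 0 := by decide

private theorem eta_labf (hA : f (mU 1) = pA) (hU : f (mU ww) = pU) (hB : f (mB O11) = pB)
    (g : GG) : ∀ x, eta_lam (f g x) = Multiplicative.toAdd (ps g) + eta_lam x := by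
  let H : Subgroup GG :=
    { carrier := {g | ∀ x, eta_lam (f g x) = Multiplicative.toAdd (ps g) + eta_lam x}
      one_mem' := by
        intro x
        rw [map_one, map_one, toAdd_one, zero_add]
        rfl
      mul_mem' := by
        intro g h hg hh x
        rw [map_mul, Equiv.Perm.mul_apply, hg, hh, map_mul, toAdd_mul, add_assoc]
      inv_mem' := by
        intro g hg x
        have h1 := hg (f g⁻¹ x)
        have h2 : f g (f g⁻¹ x) = x := by
          rw [← Equiv.Perm.mul_apply, ← map_mul, mul_inv_cancel, map_one]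
          rfl
        rw [h2] at h1
        have h3 : Multiplicative.toAdd (ps g⁻¹) = -Multiplicative.toAdd (ps g) := by
          rw [map_inv ps, toAdd_inv]
        rw [h1, h3, neg_add_cancel_left] }
  refine sub' H (fun x => ?_) (fun x => ?_) (fun x => ?_) g
  · rw [hA, eta_psA]
    exact eta_lam_act tA 1 (by decide) x
  · rw [hU, eta_psU]
    exact eta_lam_act tU 2 (by decide) x
  · rw [hB, eta_psB]
    exact eta_lam_act tB 0 (by decide) x

private theorem eta_lab (hA : f (mU 1) = pA) (hU : f (mU ww) = pU) (hB : f (mB O11) = pB)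
    (x : G0) : ps x.val = AddMonoidHom.toMultiplicative (Int.castAddHom (ZMod 3))
      (nR al11 (eta_hom hA hU hB x)) := by
  have h1 := eta_labf hA hU hB x.val (0, 1)
  unfold eta_lam at h1
  rw [eta_zero hA hU hB x.val x.2] at h1
  have h2 : eta_n 1 = 0 := by
    unfold eta_n
    rw [map_one, toAdd_one, Int.cast_zero]
  rw [h2] at h1
  have h3 : eta_P 0 = 0 := rfl
  rw [h3, zero_add, add_zero, add_zero] at h1
  apply Multiplicative.toAdd.injective
  rw [← h1]
  rfl

end

theorem p_eta : S_eta := by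
  obtain ⟨f, hA, hU, hB⟩ := pres' _ _ _ _ table
  refine ⟨eta_hom hA hU hB, ?_⟩
  have hs : ∀ h : N11, ∃ x : G0, x.val = rm h ∧ eta_hom hA hU hB x = h :=
    fun h => ⟨⟨rm h, eta_rm h⟩, rfl, eta_sur hA hU hB h⟩
  refine ⟨eta_pm hA hU hB, hs, ⟨eta_ker hA hU hB, ?_, ?_, two_ne_zero, eta_par hA hU hB⟩,
    eta_lab hA hU hB⟩
  · have : (eta_hom hA hU hB).range = ⊤ := by
      rw [MonoidHom.range_eq_top]
      intro h
      obtain ⟨x, -, hx⟩ := hs h
      exact ⟨x, hx⟩
    rw [this]
    infer_instance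
  · intro x hx
    show r2 x * s5 = s5 * r2 x
    have h1 : r2 x = 1 := hx
    rw [h1, one_mul, mul_one]

end Pool.Agent.F8.BG.D11
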