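import Pool.Agent.Lib.MP_305fdd_al.F8.BG.D11.StmE

/-!
# MP_305fdd_al, the Bianchi group of `ℚ(√-11)`: linear algebra for `S_noc`
-/

set_option autoImplicit false

namespace Pool.Agent.F8.BG.D11

open Pool.Agent.F8

private theorem lin_a : ∀ a : ZMod 7, a ^ 3 = 1 → a ≠ 1 → a = 2 ∨ a = 4 := by decide
private theorem lin_c : ∀ c : ZMod 7, c ^ 3 = 1 → c = 1 ∨ c = 2 ∨ c = 4 := by decide
private theorem lin_7 : (7 : ZMod 7) = 0 := by decide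

private theorem lin_2_1 : Lin 2 1 := by
  intro v1 v2 v3 v4 v5 v6 t h
  have h1 : t + 2 * v1 =
      (1 ^ 2) ^ 2 * ((1) ^ 2 * ((1) ^ 2 * ((1) ^ 2 * ((1 ^ 2) ^ 2 * ((1) ^ 2 * (t - v1) - v3) - v2) - v1) - v5) - v4) := h 0
  have h2 : t + 2 * v2 =
      (1 ^ 2) ^ 2 * ((1) ^ 2 * ((1) ^ 2 * ((1) ^ 2 * ((1 ^ 2) ^ 2 * ((1 ^ 2) ^ 2 * ((1) ^ 2 * (t - v1) - v3) - v3) - v2) - v1) - v5) - v4) := h 1
  have h3 : t + 2 * v3 =
      (1 ^ 2) ^ 2 * ((1) ^ 2 * ((1) ^ 2 * ((1) ^ 2 * ((1) ^ 2 * ((1 ^ 2) ^ 2 * ((1) ^ 2 * (t - v1) - v3) - v2) - v2) - v1) - v5) - v4) := h 2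
  have h4 : t + 2 * v4 =
      (1 ^ 2) ^ 2 * ((1) ^ 2 * ((1) ^ 2 * ((1 ^ 2) ^ 2 * ((1) ^ 2 * ((1) ^ 2 * ((1) ^ 2 * (t - v1) - v5) - v5) - v4) - v1) - v5) - v4) := h 3
  have h5 : t + 2 * v5 =
      (1 ^ 2) ^ 2 * ((1) ^ 2 * ((1) ^ 2 * ((1 ^ 2) ^ 2 * (t - v6) - v1) - v5) - v4) := h 4
  have h6 : t + 2 * v6 =
      (1 ^ 2) ^ 2 * ((1) ^ 2 * ((1) ^ 2 * ((1) ^ 2 * (t - v1) - v5) - v5) - v4) := h 5
  refine ⟨(-1) * t, ?_, ?_⟩
  · ext i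
    fin_cases i
    · show v1 = 0
      linear_combination (-1) * h1 + (3) * h2 + (3) * h3 + (1) * h4 + (3) * h5 + (2) * h6 + ((-2) * v1 + (-2) * v2 + (-2) * v3 + (-2) * v4 + (-3) * v5 + (-1) * v6) * lin_7
    · show v2 = (1 - 1) * ((-1) * t)
      linear_combination (-1) * h1 + (-2) * h2 + (-3) * h3 + (3) * h4 + (2) * h5 + (-1) * h6 + ((1) * v1 + (2) * v2 + (2) * v3 + (-1) * v4 + (-1) * v5) * lin_7
    · show v3 = (1 - 1 ^ 2) * ((-1) * t)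
      linear_combination (-1) * h1 + (-3) * h2 + (-2) * h3 + (3) * h4 + (2) * h5 + (-1) * h6 + ((1) * v1 + (2) * v2 + (2) * v3 + (-1) * v4 + (-1) * v5) * lin_7
    · show v4 = (1 - 1 ^ 2) * ((-1) * t)
      linear_combination (2) * h1 + (1) * h2 + (1) * h3 + (1) * h4 + ((-2) * v1 + (-1) * v2 + (-1) * v3 + (-1) * v4 + (-1) * v5) * lin_7
    · show v5 = (1 - 1) * ((-1) * t)
      linear_combination (-2) * h1 + (-1) * h2 + (-1) * h3 + (3) * h4 + (-2) * h5 + (1) * h6 + ((1) * v1 + (1) * v2 + (1) * v3 + (-1) * v4) * lin_7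
    · show v6 = (1 - 1 ^ 2) * ((-1) * t)
      linear_combination (-2) * h1 + (-1) * h2 + (-1) * h3 + (3) * h4 + (-3) * h5 + (2) * h6 + ((1) * v1 + (1) * v2 + (1) * v3 + (-1) * v4) * lin_7
  · linear_combination (0) * t * lin_7

private theorem lin_2_2 : Lin 2 2 := by
  intro v1 v2 v3 v4 v5 v6 t h
  have h1 : t + 2 * v1 =
      (2 ^ 2) ^ 2 * ((2) ^ 2 * ((1) ^ 2 * ((2) ^ 2 * ((2 ^ 2) ^ 2 * ((1) ^ 2 * (t - v1) - v3) - v2) - v1) - v5) - v4) := h 0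
  have h2 : t + 2 * v2 =
      (2 ^ 2) ^ 2 * ((2) ^ 2 * ((1) ^ 2 * ((2) ^ 2 * ((2 ^ 2) ^ 2 * ((2 ^ 2) ^ 2 * ((1) ^ 2 * (t - v1) - v3) - v3) - v2) - v1) - v5) - v4) := h 1
  have h3 : t + 2 * v3 =
      (2 ^ 2) ^ 2 * ((2) ^ 2 * ((1) ^ 2 * ((2) ^ 2 * ((2) ^ 2 * ((2 ^ 2) ^ 2 * ((1) ^ 2 * (t - v1) - v3) - v2) - v2) - v1) - v5) - v4) := h 2
  have h4 : t + 2 * v4 =
      (2 ^ 2) ^ 2 * ((2) ^ 2 * ((1) ^ 2 * ((2 ^ 2) ^ 2 * ((2) ^ 2 * ((2) ^ 2 * ((1) ^ 2 * (t - v1) - v5) - v5) - v4) - v1) - v5) - v4) := h 3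
  have h5 : t + 2 * v5 =
      (2 ^ 2) ^ 2 * ((2) ^ 2 * ((1) ^ 2 * ((2 ^ 2) ^ 2 * (t - v6) - v1) - v5) - v4) := h 4
  have h6 : t + 2 * v6 =
      (2 ^ 2) ^ 2 * ((2) ^ 2 * ((2) ^ 2 * ((1) ^ 2 * (t - v1) - v5) - v5) - v4) := h 5
  refine ⟨(-1) * t, ?_, ?_⟩
  · ext i
    fin_cases i
    · show v1 = 0
      linear_combination (-2) * h1 + (2) * h2 + (-3) * h3 + (1) * h4 + (-2) * h5 + (2) * h6 + ((-12909) * v1 + (548) * v2 + (-11702) * v3 + (-142) * v4 + (-2980) * v5 + (292) * v6 + (12654) * t) * lin_7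
    · show v2 = (1 - 2) * ((-1) * t)
      linear_combination (3) * h1 + (2) * h2 + (2) * h3 + ((-25226) * v1 + (-549) * v2 + (-26332) * v3 + (-16) * v4 + (-64) * v5 + (25160) * t) * lin_7
    · show v3 = (1 - 2 ^ 2) * ((-1) * t)
      linear_combination (-1) * h1 + (3) * h2 + (-3) * h4 + (-1) * h5 + (1) * h6 + ((-20498) * v1 + (-74) * v2 + (-29257) * v3 + (442) * v4 + (8750) * v5 + (146) * v6 + (20370) * t) * lin_7
    · show v4 = (1 - 2 ^ 2) * ((-1) * t)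
      linear_combination (1) * h1 + (-1) * h2 + (-2) * h3 + (2) * h4 + (-2) * h5 + (2) * h6 + ((8722) * v1 + (366) * v2 + (14044) * v3 + (-293) * v4 + (-5924) * v5 + (292) * v6 + (-8997) * t) * lin_7
    · show v5 = (1 - 2) * ((-1) * t)
      linear_combination (3) * h1 + (-3) * h2 + (1) * h3 + (2) * h4 + (-1) * h5 + (1) * h6 + ((19254) * v1 + (-182) * v2 + (25746) * v3 + (-300) * v4 + (-5915) * v5 + (146) * v6 + (-19420) * t) * lin_7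
    · show v6 = (1 - 2 ^ 2) * ((-1) * t)
      linear_combination (-1) * h1 + (1) * h2 + (2) * h3 + (-2) * h4 + (-2) * h5 + (-1) * h6 + ((-8722) * v1 + (-366) * v2 + (-14044) * v3 + (300) * v4 + (5916) * v5 + (293) * v6 + (8448) * t) * lin_7
  · linear_combination (0) * t * lin_7

private theorem lin_2_4 : Lin 2 4 := by
  intro v1 v2 v3 v4 v5 v6 t h
  have h1 : t + 2 * v1 =
      (4 ^ 2) ^ 2 * ((4) ^ 2 * ((1) ^ 2 * ((4) ^ 2 * ((4 ^ 2) ^ 2 * ((1) ^ 2 * (t - v1) - v3) - v2) - v1) - v5) - v4) := h 0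
  have h2 : t + 2 * v2 =
      (4 ^ 2) ^ 2 * ((4) ^ 2 * ((1) ^ 2 * ((4) ^ 2 * ((4 ^ 2) ^ 2 * ((4 ^ 2) ^ 2 * ((1) ^ 2 * (t - v1) - v3) - v3) - v2) - v1) - v5) - v4) := h 1
  have h3 : t + 2 * v3 =
      (4 ^ 2) ^ 2 * ((4) ^ 2 * ((1) ^ 2 * ((4) ^ 2 * ((4) ^ 2 * ((4 ^ 2) ^ 2 * ((1) ^ 2 * (t - v1) - v3) - v2) - v2) - v1) - v5) - v4) := h 2
  have h4 : t + 2 * v4 =
      (4 ^ 2) ^ 2 * ((4) ^ 2 * ((1) ^ 2 * ((4 ^ 2) ^ 2 * ((4) ^ 2 * ((4) ^ 2 * ((1) ^ 2 * (t - v1) - v5) - v5) - v4) - v1) - v5) - v4) := h 3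
  have h5 : t + 2 * v5 =
      (4 ^ 2) ^ 2 * ((4) ^ 2 * ((1) ^ 2 * ((4 ^ 2) ^ 2 * (t - v6) - v1) - v5) - v4) := h 4
  have h6 : t + 2 * v6 =
      (4 ^ 2) ^ 2 * ((4) ^ 2 * ((4) ^ 2 * ((1) ^ 2 * (t - v1) - v5) - v5) - v4) := h 5
  refine ⟨(-1) * t, ?_, ?_⟩
  · ext i
    fin_cases i
    · show v1 = 0
      linear_combination (-1) * h4 + (1) * h5 + (-2) * h6 + ((38366647) * v1 + (149870) * v4 + (40764562) * v5 + (-149796) * v6 + (-38216850) * t) * lin_7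
    · show v2 = (1 - 4) * ((-1) * t)
      linear_combination (2) * h1 + (-1) * h2 + (-1) * h3 + ((647121188) * v1 + (149797) * v2 + (649517934) * v3 + (-647121189) * t) * lin_7
    · show v3 = (1 - 4 ^ 2) * ((-1) * t)
      linear_combination (-3) * h1 + (-1) * h2 + (-3) * h3 + (2) * h4 + (-2) * h5 + (-3) * h6 + ((659137098) * v1 + (514926) * v2 + (738197505) * v3 + (-299228) * v4 + (-81455396) * v5 + (299594) * v6 + (-659432595) * t) * lin_7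
    · show v4 = (1 - 4 ^ 2) * ((-1) * t)
      linear_combination (2) * h2 + (1) * h3 + (3) * h4 + (-2) * h5 + (-3) * h6 + ((-1380499456) * v1 + (-177884) * v2 + (-1270274926) * v3 + (-449427) * v4 + (-122206500) * v5 + (299594) * v6 + (1380197520) * t) * lin_7
    · show v5 = (1 - 4) * ((-1) * t)
      linear_combination (2) * h2 + (1) * h3 + (-3) * h4 + (-1) * h5 + (2) * h6 + ((-1150455808) * v1 + (-177884) * v2 + (-1270274926) * v3 + (449354) * v4 + (122214693) * v5 + (149796) * v6 + (1150306596) * t) * lin_7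
    · show v6 = (1 - 4 ^ 2) * ((-1) * t)
      linear_combination (3) * h4 + (1) * h5 + (2) * h6 + ((-115064832) * v1 + (-449610) * v4 + (-122256238) * v5 + (-149797) * v6 + (115212285) * t) * lin_7
  · linear_combination (0) * t * lin_7

private theorem lin_4_1 : Lin 4 1 := by
  intro v1 v2 v3 v4 v5 v6 t h
  have h1 : t + 4 * v1 =
      (1 ^ 2) ^ 2 * ((1) ^ 2 * ((1) ^ 2 * ((1) ^ 2 * ((1 ^ 2) ^ 2 * ((1) ^ 2 * (t - v1) - v3) - v2) - v1) - v5) - v4) := h 0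
  have h2 : t + 4 * v2 =
      (1 ^ 2) ^ 2 * ((1) ^ 2 * ((1) ^ 2 * ((1) ^ 2 * ((1 ^ 2) ^ 2 * ((1 ^ 2) ^ 2 * ((1) ^ 2 * (t - v1) - v3) - v3) - v2) - v1) - v5) - v4) := h 1
  have h3 : t + 4 * v3 =
      (1 ^ 2) ^ 2 * ((1) ^ 2 * ((1) ^ 2 * ((1) ^ 2 * ((1) ^ 2 * ((1 ^ 2) ^ 2 * ((1) ^ 2 * (t - v1) - v3) - v2) - v2) - v1) - v5) - v4) := h 2
  have h4 : t + 4 * v4 =
      (1 ^ 2) ^ 2 * ((1) ^ 2 * ((1) ^ 2 * ((1 ^ 2) ^ 2 * ((1) ^ 2 * ((1) ^ 2 * ((1) ^ 2 * (t - v1) - v5) - v5) - v4) - v1) - v5) - v4) := h 3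
  have h5 : t + 4 * v5 =
      (1 ^ 2) ^ 2 * ((1) ^ 2 * ((1) ^ 2 * ((1 ^ 2) ^ 2 * (t - v6) - v1) - v5) - v4) := h 4
  have h6 : t + 4 * v6 =
      (1 ^ 2) ^ 2 * ((1) ^ 2 * ((1) ^ 2 * ((1) ^ 2 * (t - v1) - v5) - v5) - v4) := h 5
  refine ⟨2 * t, ?_, ?_⟩
  · ext i
    fin_cases i
    · show v1 = 0
      linear_combination (-2) * h2 + (-2) * h3 + (-3) * h4 + (-1) * h5 + (2) * h6 + ((2) * v1 + (2) * v2 + (2) * v3 + (3) * v4 + (2) * v5 + (-1) * v6) * lin_7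
    · show v2 = (1 - 1) * (2 * t)
      linear_combination (-3) * h1 + (1) * h2 + (3) * h3 + (-1) * h4 + (2) * h5 + (3) * h6 + ((1) * v1 + (-1) * v2 + (-2) * v3 + (-2) * v5 + (-2) * v6) * lin_7
    · show v3 = (1 - 1 ^ 2) * (2 * t)
      linear_combination (-3) * h1 + (3) * h2 + (1) * h3 + (-1) * h4 + (2) * h5 + (3) * h6 + ((1) * v1 + (-2) * v2 + (-1) * v3 + (-2) * v5 + (-2) * v6) * lin_7
    · show v4 = (1 - 1 ^ 2) * (2 * t)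
      linear_combination (-2) * h2 + (-2) * h3 + (1) * h4 + (1) * h5 + (-2) * h6 + ((1) * v1 + (2) * v2 + (2) * v3 + (1) * v6) * lin_7
    · show v5 = (1 - 1) * (2 * t)
      linear_combination (3) * h2 + (3) * h3 + (-2) * h4 + (1) * h5 + (-2) * h6 + ((-1) * v1 + (-3) * v2 + (-3) * v3 + (1) * v4 + (1) * v6) * lin_7
    · show v6 = (1 - 1 ^ 2) * (2 * t)
      linear_combination (3) * h2 + (3) * h3 + (-2) * h4 + (3) * h5 + (3) * h6 + ((-2) * v1 + (-3) * v2 + (-3) * v3 + (-3) * v5 + (-2) * v6) * lin_7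
  · linear_combination (1) * t * lin_7

private theorem lin_4_2 : Lin 4 2 := by
  intro v1 v2 v3 v4 v5 v6 t h
  have h1 : t + 4 * v1 =
      (2 ^ 2) ^ 2 * ((2) ^ 2 * ((1) ^ 2 * ((2) ^ 2 * ((2 ^ 2) ^ 2 * ((1) ^ 2 * (t - v1) - v3) - v2) - v1) - v5) - v4) := h 0
  have h2 : t + 4 * v2 =
      (2 ^ 2) ^ 2 * ((2) ^ 2 * ((1) ^ 2 * ((2) ^ 2 * ((2 ^ 2) ^ 2 * ((2 ^ 2) ^ 2 * ((1) ^ 2 * (t - v1) - v3) - v3) - v2) - v1) - v5) - v4) := h 1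
  have h3 : t + 4 * v3 =
      (2 ^ 2) ^ 2 * ((2) ^ 2 * ((1) ^ 2 * ((2) ^ 2 * ((2) ^ 2 * ((2 ^ 2) ^ 2 * ((1) ^ 2 * (t - v1) - v3) - v2) - v2) - v1) - v5) - v4) := h 2
  have h4 : t + 4 * v4 =
      (2 ^ 2) ^ 2 * ((2) ^ 2 * ((1) ^ 2 * ((2 ^ 2) ^ 2 * ((2) ^ 2 * ((2) ^ 2 * ((1) ^ 2 * (t - v1) - v5) - v5) - v4) - v1) - v5) - v4) := h 3
  have h5 : t + 4 * v5 =
      (2 ^ 2) ^ 2 * ((2) ^ 2 * ((1) ^ 2 * ((2 ^ 2) ^ 2 * (t - v6) - v1) - v5) - v4) := h 4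
  have h6 : t + 4 * v6 =
      (2 ^ 2) ^ 2 * ((2) ^ 2 * ((2) ^ 2 * ((1) ^ 2 * (t - v1) - v5) - v5) - v4) := h 5
  refine ⟨2 * t, ?_, ?_⟩
  · ext i
    fin_cases i
    · show v1 = 0
      linear_combination (-1) * h4 + (1) * h5 + (3) * h6 + ((2231) * v1 + (140) * v4 + (2788) * v5 + (-148) * v6 + (-2085) * t) * lin_7
    · show v2 = (1 - 2) * (2 * t)
      linear_combination (3) * h1 + (-3) * h3 + (3) * h4 + (-3) * h5 + (-2) * h6 + ((-1684) * v1 + (439) * v2 + (5268) * v3 + (-436) * v4 + (-8684) * v5 + (440) * v6 + (1244) * t) * lin_7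
    · show v3 = (1 - 2 ^ 2) * (2 * t)
      linear_combination (-3) * h1 + (-3) * h2 + (-1) * h3 + (3) * h4 + (-3) * h5 + (-2) * h6 + ((25300) * v1 + (404) * v2 + (33939) * v3 + (-420) * v4 + (-8620) * v5 + (440) * v6 + (-25671) * t) * lin_7
    · show v4 = (1 - 2 ^ 2) * (2 * t)
      linear_combination (2) * h1 + (1) * h2 + (2) * h3 + (-1) * h4 + (-1) * h5 + (-3) * h6 + ((-12792) * v1 + (-476) * v2 + (-15800) * v3 + (147) * v4 + (3036) * v5 + (148) * v6 + (12618) * t) * lin_7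
    · show v5 = (1 - 2) * (2 * t)
      linear_combination (2) * h1 + (1) * h2 + (2) * h3 + (-3) * h5 + (-2) * h6 + ((-15160) * v1 + (-476) * v2 + (-15800) * v3 + (75) * v5 + (440) * v6 + (14702) * t) * lin_7
    · show v6 = (1 - 2 ^ 2) * (2 * t)
      linear_combination (-2) * h4 + (-2) * h5 + (3) * h6 + ((4608) * v1 + (296) * v4 + (5752) * v5 + (291) * v6 + (-4863) * t) * lin_7
  · linear_combination (1) * t * lin_7

private theorem lin_4_4 : Lin 4 4 := by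
  intro v1 v2 v3 v4 v5 v6 t h
  have h1 : t + 4 * v1 =
      (4 ^ 2) ^ 2 * ((4) ^ 2 * ((1) ^ 2 * ((4) ^ 2 * ((4 ^ 2) ^ 2 * ((1) ^ 2 * (t - v1) - v3) - v2) - v1) - v5) - v4) := h 0
  have h2 : t + 4 * v2 =
      (4 ^ 2) ^ 2 * ((4) ^ 2 * ((1) ^ 2 * ((4) ^ 2 * ((4 ^ 2) ^ 2 * ((4 ^ 2) ^ 2 * ((1) ^ 2 * (t - v1) - v3) - v3) - v2) - v1) - v5) - v4) := h 1
  have h3 : t + 4 * v3 =
      (4 ^ 2) ^ 2 * ((4) ^ 2 * ((1) ^ 2 * ((4) ^ 2 * ((4) ^ 2 * ((4 ^ 2) ^ 2 * ((1) ^ 2 * (t - v1) - v3) - v2) - v2) - v1) - v5) - v4) := h 2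
  have h4 : t + 4 * v4 =
      (4 ^ 2) ^ 2 * ((4) ^ 2 * ((1) ^ 2 * ((4 ^ 2) ^ 2 * ((4) ^ 2 * ((4) ^ 2 * ((1) ^ 2 * (t - v1) - v5) - v5) - v4) - v1) - v5) - v4) := h 3
  have h5 : t + 4 * v5 =
      (4 ^ 2) ^ 2 * ((4) ^ 2 * ((1) ^ 2 * ((4 ^ 2) ^ 2 * (t - v6) - v1) - v5) - v4) := h 4
  have h6 : t + 4 * v6 =
      (4 ^ 2) ^ 2 * ((4) ^ 2 * ((4) ^ 2 * ((1) ^ 2 * (t - v1) - v5) - v5) - v4) := h 5
  refine ⟨2 * t, ?_, ?_⟩
  · ext i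
    fin_cases i
    · show v1 = 0
      linear_combination (-2) * h1 + (2) * h2 + (1) * h3 + (2) * h4 + (-1) * h5 + (1) * h6 + ((-1337394321) * v1 + (-159160) * v2 + (-1265481436) * v3 + (-299704) * v4 + (-81500452) * v5 + (149796) * v6 + (1337243355) * t) * lin_7
    · show v2 = (1 - 4) * (2 * t)
      linear_combination (-2) * h1 + (3) * h2 + (-1) * h3 + ((-1797558856) * v1 + (149795) * v2 + (-1804749092) * v3 + (1797558858) * t) * lin_7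
    · show v3 = (1 - 4 ^ 2) * (2 * t)
      linear_combination (3) * h1 + (3) * h2 + (3) * h3 + (-3) * h4 + (-2) * h5 + (2) * h6 + ((-1847911572) * v1 + (-533652) * v2 + (-1970124509) * v3 + (449172) * v4 + (122211768) * v5 + (299592) * v6 + (1847609640) * t) * lin_7
    · show v4 = (1 - 4 ^ 2) * (2 * t)
      linear_combination (2) * h1 + (-2) * h2 + (-1) * h3 + (1) * h4 + (2) * h5 + (-2) * h6 + ((1222357576) * v1 + (159160) * v2 + (1265481436) * v3 + (-149797) * v4 + (-40725944) * v5 + (-299592) * v6 + (-1222059150) * t) * lin_7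
    · show v5 = (1 - 4) * (2 * t)
      linear_combination (-1) * h1 + (1) * h2 + (-3) * h3 + (1) * h4 + ((-534472996) * v1 + (477476) * v2 + (-498522988) * v3 + (-149724) * v4 + (-40743497) * v5 + (534474168) * t) * lin_7
    · show v6 = (1 - 4 ^ 2) * (2 * t)
      linear_combination (-2) * h1 + (2) * h2 + (1) * h3 + (-1) * h4 + (2) * h5 + ((-1222341192) * v1 + (-159160) * v2 + (-1265481436) * v3 + (149724) * v4 + (40743496) * v5 + (-299593) * v6 + (1222639620) * t) * lin_7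
  · linear_combination (1) * t * lin_7

theorem p_lin : S_lin := by
  intro a c ha hc hne
  rcases lin_a a ha hne with rfl | rfl <;> rcases lin_c c hc with rfl | rfl | rfl
  · exact lin_2_1
  · exact lin_2_2
  · exact lin_2_4
  · exact lin_4_1
  · exact lin_4_2
  · exact lin_4_4

end Pool.Agent.F8.BG.D11
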