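import Pool.Agent.Lib.MP_305fdd_al.F8.BG.D11.StmE

/-!
# MP_305fdd_al, the Bianchi group of `ℚ(√-11)`: no cocycle modulo `7`
-/

set_option autoImplicit false

namespace Pool.Agent.F8.BG.D11

open Pool.Agent.MP_305fdd_al Pool.Agent.Lib.MP_305fdd_al Pool.Agent.F8
open Pool.Agent.F8.G (SL_ext SL_mul SL_det SL_neg)

/-! ### The elements `my i`, `mt` of `G0` -/

/-- reduction modulo two of quadruples -/
private def noc_q (x : M4 O11) : M4 (Qf (-3) 1 (ZMod 2)) :=
  (Qfm (-3) 1 (Int.castRingHom (ZMod 2)) x.1, Qfm (-3) 1 (Int.castRingHom (ZMod 2)) x.2.1,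
    Qfm (-3) 1 (Int.castRingHom (ZMod 2)) x.2.2.1, Qfm (-3) 1 (Int.castRingHom (ZMod 2)) x.2.2.2)

private theorem noc_of_r2 (g : GG) : M4.of (r2 g) = noc_q (M4.of g) := rfl

private theorem noc_dec : ∀ i, M4.mul (noc_q (y4 i)) (noc_q (y4 0)) =
    M4.mul (noc_q (y4 0)) (noc_q (y4 i)) := by decide

private theorem noc_dect : M4.mul (noc_q t4) (noc_q (y4 0)) =
    M4.mul (noc_q (y4 0)) (noc_q t4) := by decide

private theorem noc_my (i : Fin 6) : my i ∈ G0 := by
  show r2 (my i) * r2 (my 0) = r2 (my 0) * r2 (my i)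
  apply M4.of_inj
  rw [M4.of_mul, M4.of_mul, noc_of_r2, noc_of_r2]
  exact noc_dec i

private theorem noc_mt : mt ∈ G0 := by
  show r2 mt * r2 (my 0) = r2 (my 0) * r2 mt
  apply M4.of_inj
  rw [M4.of_mul, M4.of_mul, noc_of_r2, noc_of_r2]
  exact noc_dect

/-- `my i` as an element of `G0` -/
private def noc_y (i : Fin 6) : G0 := ⟨my i, noc_my i⟩

/-- `mt` as an element of `G0` -/
private def noc_t : G0 := ⟨mt, noc_mt⟩

private theorem noc_rel (i : Fin 6) :
    noc_t * noc_y i * noc_t⁻¹ = FreeGroup.lift noc_y (al11 (FreeGroup.of i)) := by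
  apply Subtype.ext
  show mt * my i * mt⁻¹ = G0.subtype (FreeGroup.lift noc_y (al11 (FreeGroup.of i)))
  rw [rel_my]
  have h : (FreeGroup.lift my : FreeGroup (Fin 6) →* GG) =
      G0.subtype.comp (FreeGroup.lift noc_y) := by
    apply FreeGroup.ext_hom
    intro j
    rw [MonoidHom.comp_apply, FreeGroup.lift_apply_of, FreeGroup.lift_apply_of]
    rfl
  rw [h]
  rfl

/-- the representation with values in `G0` -/
private def noc_r : N11 →* G0 := liR noc_y noc_t noc_rel

private theorem noc_r_val (h : N11) : (noc_r h).val = rm h := by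
  have e : G0.subtype.comp noc_r = rm := by
    apply homR_ext
    · intro i
      rw [MonoidHom.comp_apply]
      unfold noc_r rm
      rw [liR_of, liR_of]
      rfl
    · rw [MonoidHom.comp_apply]
      unfold noc_r rm
      rw [liR_tR, liR_tR]
      rfl
  exact DFunLike.congr_fun e h

private theorem noc_neg : (-1 : GG) ∈ G0 := by
  show r2 (-1) * r2 (my 0) = r2 (my 0) * r2 (-1)
  rw [← map_mul, ← map_mul, neg_one_mul, mul_neg_one]

/-- a subgroup of `G0` which contains `-1`, `my i`, `mt` is everything -/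
private theorem noc_sub (η : G0 →* N11) (he : Eta η) (S : Subgroup G0)
    (h1 : (⟨-1, noc_neg⟩ : G0) ∈ S) (hy : ∀ i, noc_y i ∈ S) (ht : noc_t ∈ S) (x : G0) :
    x ∈ S := by
  have hr : ∀ h : N11, noc_r h ∈ S := by
    intro h
    obtain ⟨w, n, rfl⟩ := GR_cases al11 h
    rw [map_mul, map_zpow]
    refine S.mul_mem ?_ (S.zpow_mem ?_ n)
    · unfold noc_r
      rw [liR_iR]
      induction w using FreeGroup.induction_on with
      | C1 => rw [map_one]; exact S.one_mem
      | of i => rw [FreeGroup.lift_apply_of]; exact hy i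
      | inv_of i hi => rw [map_inv]; exact S.inv_mem hi
      | mul a b ha hb => rw [map_mul]; exact S.mul_mem ha hb
    · unfold noc_r
      rw [liR_tR]
      exact ht
  rcases he.pm x with h | h
  · have e : x = noc_r (η x) := Subtype.ext (by rw [noc_r_val]; exact h)
    rw [e]
    exact hr _
  · have e : x = ⟨-1, noc_neg⟩ * noc_r (η x) := Subtype.ext (by
      show x.val = -1 * (noc_r (η x)).val
      rw [noc_r_val, neg_one_mul]
      exact h)
    rw [e]
    exact S.mul_mem h1 (hr _)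

/-! ### The words in the generators of `GG` -/

/-- the generators of `GG` -/
private def noc_g : Fin 3 → GG := ![mU 1, mU ww, mB O11]

/-- the generators of `GG` as quadruples -/
private def noc_g4 : Fin 3 → M4 O11 := ![(1, 1, 0, 1), (1, ⟨0, 1⟩, 0, 1), (0, -1, 1, 0)]

private theorem noc_of_g (i : Fin 3) : M4.of (noc_g i) = noc_g4 i := by
  fin_cases i
  · rfl
  · rfl
  · rfl

/-- the quadruple of a word -/
private def noc_ev (L : List (Fin 3 × Bool)) : M4 O11 :=
  L.foldr (fun p m => M4.mul (if p.2 then noc_g4 p.1 else M4.inv (noc_g4 p.1)) m) M4.one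

/-- the matrix of a word -/
private def noc_m (L : List (Fin 3 × Bool)) : GG :=
  L.foldr (fun p m => (if p.2 then noc_g p.1 else (noc_g p.1)⁻¹) * m) 1

private theorem noc_of_m (L : List (Fin 3 × Bool)) : M4.of (noc_m L) = noc_ev L := by
  induction L with
  | nil => exact M4.of_one
  | cons p L ih =>
    obtain ⟨i, b⟩ := p
    show M4.of ((if b then noc_g i else (noc_g i)⁻¹) * noc_m L) =
      M4.mul (if b then noc_g4 i else M4.inv (noc_g4 i)) (noc_ev L)
    rw [M4.of_mul, ih]
    congr 1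
    cases b
    · exact (M4.of_inv _).trans (by rw [noc_of_g]; rfl)
    · exact noc_of_g i

/-- the words of `my i` -/
private def noc_w : Fin 6 → List (Fin 3 × Bool) := ![
  [(2, true), (0, true), (1, false), (2, true), (0, false), (1, true)],
  [(2, true), (0, true), (1, true)],
  [(2, true), (0, false), (1, false)],
  [(0, true), (1, false), (2, true), (1, true), (2, true), (1, false), (2, true), (0, false),
    (0, false), (2, true), (1, false), (2, true), (1, true)],
  [(2, true), (1, false), (2, true), (0, false), (1, true), (1, true), (2, true), (1, false),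
    (2, true), (0, false), (1, true)],
  [(1, false), (2, true), (0, false), (1, true), (2, true), (1, false), (2, true), (1, false),
    (2, true), (1, true)]]

/-- the word of `mt` -/
private def noc_wt : List (Fin 3 × Bool) :=
  [(0, false), (2, true), (1, false), (2, true), (1, true), (2, true), (0, true), (0, true),
    (1, false), (2, true), (1, true)]

private theorem noc_w_dec : ∀ i, y4 i = noc_ev (noc_w i) ∨ y4 i = M4.neg (noc_ev (noc_w i)) := by
  decide +kernel

private theorem noc_wt_dec : t4 = noc_ev noc_wt ∨ t4 = M4.neg (noc_ev noc_wt) := by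
  decide +kernel

private theorem noc_my_w (i : Fin 6) : my i = noc_m (noc_w i) ∨ my i = -noc_m (noc_w i) := by
  rcases noc_w_dec i with h | h
  · left
    apply M4.of_inj
    rw [noc_of_m]
    exact h
  · right
    apply M4.of_inj
    rw [M4.of_neg, noc_of_m]
    exact h

private theorem noc_mt_w : mt = noc_m noc_wt ∨ mt = -noc_m noc_wt := by
  rcases noc_wt_dec with h | h
  · left
    apply M4.of_inj
    rw [noc_of_m]
    exact h
  · right
    apply M4.of_inj
    rw [M4.of_neg, noc_of_m]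
    exact h

/-- the value of a word -/
private def noc_v (a b : ZMod 7) (L : List (Fin 3 × Bool)) : ZMod 7 :=
  L.foldr (fun p z => (if p.2 then ![a, b, 1] p.1 else ![a, b, 1] p.1 ^ 2) * z) 1

private theorem noc_v_dec : ∀ a b : ZMod 7, a ^ 3 = 1 → b ^ 3 = 1 → ∀ i,
    noc_v a b (noc_w i) = ![1, a * b, (a * b) ^ 2, (a * b) ^ 2, a * b, (a * b) ^ 2] i := by
  decide

private theorem noc_vt_dec : ∀ a b : ZMod 7, a ^ 3 = 1 → b ^ 3 = 1 →
    noc_v a b noc_wt = a := by
  decide

/-! ### The character and the cocycle -/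

/-- the value of the character -/
private def noc_V (X : GG →* (ZMod 7)ˣ) (g : GG) : ZMod 7 := (X g).val

private theorem noc_V_mul (X : GG →* (ZMod 7)ˣ) (g h : GG) :
    noc_V X (g * h) = noc_V X g * noc_V X h := by
  unfold noc_V
  rw [map_mul, Units.val_mul]

private theorem noc_X3 (X : GG →* (ZMod 7)ˣ) (hX : X ^ 3 = 1) (g : GG) : X g ^ 3 = 1 :=
  DFunLike.congr_fun hX g

private theorem noc_V3 (X : GG →* (ZMod 7)ˣ) (hX : X ^ 3 = 1) (g : GG) : noc_V X g ^ 3 = 1 := by
  have h := congrArg Units.val (noc_X3 X hX g)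
  rw [Units.val_pow_eq_pow_val, Units.val_one] at h
  exact h

private theorem noc_V_inv (X : GG →* (ZMod 7)ˣ) (hX : X ^ 3 = 1) (g : GG) :
    noc_V X g⁻¹ = noc_V X g ^ 2 := by
  have h : X g⁻¹ = X g ^ 2 := by
    rw [map_inv, inv_eq_iff_mul_eq_one, ← pow_succ']
    exact noc_X3 X hX g
  unfold noc_V
  rw [h, Units.val_pow_eq_pow_val]

private theorem noc_BB : mB O11 * mB O11 = -1 := by
  apply M4.of_inj
  rw [M4.of_mul, M4.of_neg, M4.of_one]
  have h : M4.mul (noc_g4 2) (noc_g4 2) = M4.neg M4.one := by decide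
  exact h

private theorem noc_VB (X : GG →* (ZMod 7)ˣ) (hX : X ^ 3 = 1) : X (mB O11) = 1 := by
  have h4 : (mB O11) ^ 4 = 1 := by
    rw [show (4 : ℕ) = 2 * 2 by norm_num, pow_mul, pow_two (mB O11), noc_BB, neg_one_sq]
  have h := congrArg X h4
  rw [map_pow, map_one, pow_succ, noc_X3 X hX, one_mul] at h
  exact h

private theorem noc_V_neg (X : GG →* (ZMod 7)ˣ) (hX : X ^ 3 = 1) (g : GG) :
    noc_V X (-g) = noc_V X g := by
  have h : X (-1) = 1 := by
    rw [← noc_BB, map_mul, noc_VB X hX, one_mul]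
  unfold noc_V
  rw [← neg_one_mul g, map_mul, h, one_mul]

private theorem noc_V_m (X : GG →* (ZMod 7)ˣ) (hX : X ^ 3 = 1) (L : List (Fin 3 × Bool)) :
    noc_V X (noc_m L) = noc_v (noc_V X (mU 1)) (noc_V X (mU ww)) L := by
  have hg : ∀ i, noc_V X (noc_g i) = ![noc_V X (mU 1), noc_V X (mU ww), 1] i := by
    intro i
    fin_cases i
    · rfl
    · rfl
    · show (X (mB O11)).val = 1
      rw [noc_VB X hX, Units.val_one]
  induction L with
  | nil =>
    show (X 1).val = 1
    rw [map_one, Units.val_one]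
  | cons p L ih =>
    obtain ⟨i, b⟩ := p
    show noc_V X ((if b then noc_g i else (noc_g i)⁻¹) * noc_m L) =
      (if b then ![noc_V X (mU 1), noc_V X (mU ww), 1] i else
        ![noc_V X (mU 1), noc_V X (mU ww), 1] i ^ 2) *
      noc_v (noc_V X (mU 1)) (noc_V X (mU ww)) L
    rw [noc_V_mul, ih]
    congr 1
    cases b
    · show noc_V X (noc_g i)⁻¹ = ![noc_V X (mU 1), noc_V X (mU ww), 1] i ^ 2
      rw [noc_V_inv X hX, hg]
    · exact hg i

private theorem noc_V_my (X : GG →* (ZMod 7)ˣ) (hX : X ^ 3 = 1) (i : Fin 6) :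
    noc_V X (my i) = ![1, noc_V X (mU 1) * noc_V X (mU ww),
      (noc_V X (mU 1) * noc_V X (mU ww)) ^ 2, (noc_V X (mU 1) * noc_V X (mU ww)) ^ 2,
      noc_V X (mU 1) * noc_V X (mU ww), (noc_V X (mU 1) * noc_V X (mU ww)) ^ 2] i := by
  rw [← noc_v_dec _ _ (noc_V3 X hX _) (noc_V3 X hX _) i, ← noc_V_m X hX]
  rcases noc_my_w i with h | h
  · rw [h]
  · rw [h, noc_V_neg X hX]

private theorem noc_V_mt (X : GG →* (ZMod 7)ˣ) (hX : X ^ 3 = 1) :
    noc_V X mt = noc_V X (mU 1) := by
  have e := noc_vt_dec _ _ (noc_V3 X hX (mU 1)) (noc_V3 X hX (mU ww))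
  rw [← noc_V_m X hX] at e
  rcases noc_mt_w with h | h
  · rw [h]
    exact e
  · rw [h, noc_V_neg X hX]
    exact e

/-- a crossed homomorphism for the values of `X` -/
private def noc_C (X : GG →* (ZMod 7)ˣ) (f : G0 → ZMod 7) : Prop :=
  ∀ x y : G0, f (x * y) = f x + noc_V X x.val * f y

private theorem noc_C_one (X : GG →* (ZMod 7)ˣ) (f : G0 → ZMod 7) (hf : noc_C X f) :
    f 1 = 0 := by
  have h := hf 1 1
  have h1 : noc_V X (1 : G0).val = 1 := by
    show (X 1).val = 1
    rw [map_one, Units.val_one]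
  rw [mul_one, h1, one_mul] at h
  linear_combination -h

private theorem noc_C_inv (X : GG →* (ZMod 7)ˣ) (hX : X ^ 3 = 1) (f : G0 → ZMod 7)
    (hf : noc_C X f) (x : G0) : f x⁻¹ = -(noc_V X x.val ^ 2 * f x) := by
  have h := hf x⁻¹ x
  have h1 : noc_V X (x⁻¹ : G0).val = noc_V X x.val ^ 2 := noc_V_inv X hX x.val
  rw [inv_mul_cancel, noc_C_one X f hf, h1] at h
  linear_combination -h

private theorem noc_C_word (X : GG →* (ZMod 7)ˣ) (hX : X ^ 3 = 1) (f : G0 → ZMod 7)
    (hf : noc_C X f) (t : G0) (L : List (Fin 6 × Bool)) (hL : ∀ p ∈ L, p.2 = false) :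
    f (FreeGroup.lift noc_y (FreeGroup.mk L) * t) =
      L.foldr (fun p z => noc_V X (my p.1) ^ 2 * (z - f (noc_y p.1))) (f t) := by
  rw [FreeGroup.lift_mk]
  induction L with
  | nil => rw [List.map_nil, List.prod_nil, one_mul]; rfl
  | cons p L ih =>
    rw [List.foldr_cons, ← ih (fun q hq => hL q (List.mem_cons_of_mem _ hq)), List.map_cons,
      List.prod_cons, hL p List.mem_cons_self]
    show f ((noc_y p.1)⁻¹ * _ * t) = _
    rw [mul_assoc, hf, noc_C_inv X hX f hf]
    have h1 : noc_V X ((noc_y p.1)⁻¹ : G0).val = noc_V X (my p.1) ^ 2 := noc_V_inv X hX (my p.1)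
    have h2 : noc_V X (noc_y p.1).val = noc_V X (my p.1) := rfl
    rw [h1, h2]
    ring

private theorem noc_W : ∀ i : Fin 6, ∀ p ∈ W11 i, p.2 = false := by decide

/-- a crossed homomorphism is principal -/
private theorem noc_princ (h_lin : S_lin) (η : G0 →* N11) (he : Eta η) (X : GG →* (ZMod 7)ˣ)
    (hX : X ^ 3 = 1) (hA : X (mU 1) ≠ 1) (f : G0 → ZMod 7) (hf : noc_C X f) :
    ∃ v : ZMod 7, ∀ x : G0, f x = (1 - noc_V X x.val) * v := by
  obtain ⟨a, ha⟩ : ∃ a, a = noc_V X (mU 1) := ⟨_, rfl⟩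
  obtain ⟨c, hc⟩ : ∃ c, c = noc_V X (mU 1) * noc_V X (mU ww) := ⟨_, rfl⟩
  have ha3 : a ^ 3 = 1 := by rw [ha]; exact noc_V3 X hX _
  have hc3 : c ^ 3 = 1 := by rw [hc, ← noc_V_mul]; exact noc_V3 X hX _
  have ha1 : a ≠ 1 := by
    intro h
    apply hA
    apply Units.ext
    rw [Units.val_one, ← h, ha]
    rfl
  have hV : (fun i => noc_V X (my i)) = ![1, c, c ^ 2, c ^ 2, c, c ^ 2] := by
    funext i
    rw [noc_V_my X hX, hc]
  have hVt : noc_V X mt = a := by rw [noc_V_mt X hX, ha]
  have hF : (fun i => f (noc_y i)) = ![f (noc_y 0), f (noc_y 1), f (noc_y 2), f (noc_y 3),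
      f (noc_y 4), f (noc_y 5)] := by
    funext i
    fin_cases i <;> rfl
  obtain ⟨v, hv, hvt⟩ := h_lin a c ha3 hc3 ha1 (f (noc_y 0)) (f (noc_y 1)) (f (noc_y 2))
    (f (noc_y 3)) (f (noc_y 4)) (f (noc_y 5)) (f noc_t) (by
      intro i
      rw [← hF, ← hV]
      have e1 : noc_t * noc_y i = FreeGroup.lift noc_y (FreeGroup.mk (W11 i)) * noc_t := by
        have h1 : al11 (FreeGroup.of i) = FreeGroup.mk (W11 i) := autw_of _ _ _ _ i
        rw [← h1, ← noc_rel, inv_mul_cancel_right]
      have e2 := congrArg f e1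
      rw [hf, noc_C_word X hX f hf noc_t (W11 i) (noc_W i)] at e2
      have e3 : noc_V X noc_t.val = a := hVt
      rw [e3] at e2
      exact e2)
  refine ⟨v, ?_⟩
  -- the subgroup
  let S : Subgroup G0 :=
    { carrier := {x | f x = (1 - noc_V X x.val) * v}
      one_mem' := by
        show f 1 = (1 - noc_V X (1 : GG)) * v
        have h1 : noc_V X (1 : GG) = 1 := by
          show (X 1).val = 1
          rw [map_one, Units.val_one]
        rw [noc_C_one X f hf, h1]
        ring
      mul_mem' := by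
        intro x y hx hy
        have hx' : f x = (1 - noc_V X x.val) * v := hx
        have hy' : f y = (1 - noc_V X y.val) * v := hy
        show f (x * y) = (1 - noc_V X (x.val * y.val)) * v
        rw [hf, hx', hy', noc_V_mul]
        ring
      inv_mem' := by
        intro x hx
        have hx' : f x = (1 - noc_V X x.val) * v := hx
        show f x⁻¹ = (1 - noc_V X (x.val)⁻¹) * v
        rw [noc_C_inv X hX f hf, hx', noc_V_inv X hX]
        have h3 := noc_V3 X hX x.val
        linear_combination v * h3 }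
  intro x
  refine noc_sub η he S ?_ ?_ ?_ x
  · show f ⟨-1, noc_neg⟩ = (1 - noc_V X (-1)) * v
    have h1 : noc_V X (-1) = 1 := by
      rw [noc_V_neg X hX]
      show (X 1).val = 1
      rw [map_one, Units.val_one]
    have h2 := hf ⟨-1, noc_neg⟩ ⟨-1, noc_neg⟩
    have h3 : (⟨-1, noc_neg⟩ : G0) * ⟨-1, noc_neg⟩ = 1 := Subtype.ext (by
      show (-1 : GG) * -1 = 1
      rw [neg_mul_neg, one_mul])
    have h4 : noc_V X ((⟨-1, noc_neg⟩ : G0).val) = 1 := h1
    rw [h3, h4, noc_C_one X f hf] at h2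
    have h5 : (7 : ZMod 7) = 0 := by decide
    rw [h1]
    linear_combination 3 * h2 + f ⟨-1, noc_neg⟩ * h5
  · intro i
    show f (noc_y i) = (1 - noc_V X (my i)) * v
    have e1 : f (noc_y i) = (fun i => f (noc_y i)) i := rfl
    have e2 : noc_V X (my i) = (fun i => noc_V X (my i)) i := rfl
    rw [e1, e2, hF, hv, hV]
    fin_cases i
    · show (0 : ZMod 7) = (1 - 1) * v
      ring
    · rfl
    · rfl
    · rfl
    · rfl
    · rfl
  · show f noc_t = (1 - noc_V X mt) * v
    rw [hVt]
    exact hvt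

/-- [BG noc11] no cocycle modulo `7` on `G₀` -/
theorem p_noc (h_lin : S_lin) : S_noc := by
  intro η he X hX hA κ hm ht x hx
  have hm' : ∀ y : G0, (κ y).m = 1 := fun y => DFunLike.congr_fun hm y
  have ht' : ∀ y : G0, (κ y).t = X y.val := fun y => DFunLike.congr_fun ht y
  have hcoc : ∀ k : Fin 2, noc_C X (fun y => (κ y).v k) := by
    intro k y z
    show (κ (y * z)).v k = (κ y).v k + noc_V X y.val * (κ z).v k
    rw [map_mul, Q2.mul_v, hm', ht', Matrix.SpecialLinearGroup.coe_one, Matrix.one_mulVec]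
    rfl
  have hV : noc_V X x.val = 1 := by
    show (X x.val).val = 1
    rw [← ht', hx, Units.val_one]
  apply Q2.ext
  · rw [hx, Q2.one_t]
  · rw [hm', Q2.one_m]
  · rw [Q2.one_v]
    funext k
    obtain ⟨v, hv⟩ := noc_princ h_lin η he X hX hA _ (hcoc k)
    have h := hv x
    rw [hV, sub_self, zero_mul] at h
    exact h

end Pool.Agent.F8.BG.D11
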