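import Pool.Agent.Lib.MP_305fdd_al.F8.BG.D11.Pos11
import Pool.Agent.Lib.MP_305fdd_al.F8.BG.StmC

/-!
# MP_305fdd_al, the Bianchi group of `ℚ(√-11)`, piece sur11: surjectivity
-/

set_option autoImplicit false

namespace Pool.Agent.F8.BG.D11

open Pool.Agent.MP_305fdd_al Pool.Agent.Lib.MP_305fdd_al Pool.Agent.F8
open Pool.Agent.F8.G (SL_ext SL_mul SL_det SL_neg)

/-! ### Conjugation -/

/-- the conjugate representation -/
private def sur_conj {Λ : Type} [Group Λ] (γ : GG) (ρ : Λ →* GG) : Λ →* GG :=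
  (MulAut.conj γ).toMonoidHom.comp ρ

private theorem sur_conj_apply {Λ : Type} [Group Λ] (γ : GG) (ρ : Λ →* GG) (l : Λ) :
    sur_conj γ ρ l = γ * ρ l * γ⁻¹ := rfl

private theorem sur_conj_rho {Λ : Type} [Group Λ] (Φ : NatBij GG Λ) (ρ : Λ →* GG)
    (h : RhoQ Φ ρ) (γ : GG) : RhoQ Φ (sur_conj γ ρ) where
  ker m _ l := by
    rw [← h.ker m l, sur_conj_apply, map_mul, map_mul, map_inv]
    constructor
    · intro e
      rw [mul_inv_eq_one] at e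
      exact mul_eq_left.1 e
    · intro e
      rw [e, mul_one, mul_inv_cancel]
  img m _ g := by
    obtain ⟨l, hl⟩ := h.img m (γ⁻¹ * g * γ)
    refine ⟨l, ?_⟩
    rw [sur_conj_apply, map_mul, map_mul, hl, ← map_mul, ← map_mul]
    congr 1
    group

private theorem sur_conj_surj {Λ : Type} [Group Λ] (ρ : Λ →* GG) (γ : GG)
    (h : Function.Surjective (sur_conj γ ρ)) : Function.Surjective ρ := by
  intro g
  obtain ⟨l, hl⟩ := h (γ * g * γ⁻¹)
  refine ⟨l, ?_⟩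
  rw [sur_conj_apply] at hl
  exact mul_left_cancel (mul_right_cancel hl)

/-! ### The label -/

/-- the unit `2` of `ℤ/7` -/
private def sur_u : (ZMod 7)ˣ := ⟨2, 4, by decide, by decide⟩

private theorem sur_e7 (z : Multiplicative ℤ) :
    e7 (AddMonoidHom.toMultiplicative (Int.castAddHom (ZMod 3)) z) =
      sur_u ^ Multiplicative.toAdd z := by
  have h : e7.comp (AddMonoidHom.toMultiplicative (Int.castAddHom (ZMod 3))) =
      zpowersHom (ZMod 7)ˣ sur_u := by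
    ext
    decide
  have h2 := DFunLike.congr_fun h z
  rw [MonoidHom.comp_apply, zpowersHom_apply] at h2
  exact h2

/-- `ps` depends only on the matrix modulo `3` -/
private theorem sur_ps (x y : GG) (h : rdq (-3) 1 3 x = rdq (-3) 1 3 y) : ps x = ps y := by
  have ha : ∀ g : GG, r3a g =
      SLm (evq (-3) 1 (RingHom.id (ZMod 3)) 0 (by decide)) (rdq (-3) 1 3 g) := by
    intro g
    apply SL_ext <;> rfl
  have hb : ∀ g : GG, r3b g =
      SLm (evq (-3) 1 (RingHom.id (ZMod 3)) 1 (by decide)) (rdq (-3) 1 3 g) := by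
    intro g
    apply SL_ext <;> rfl
  have e : ∀ g : GG, ps g = chi3 (r3a g) * chi3 (r3a g) * chi3 (r3b g) * chi3 (r3b g) :=
    fun _ => rfl
  rw [e, e, ha x, hb x, ha y, hb y, h]

private theorem sur_ps_mt : ps mt ≠ 1 := by
  decide

/-! ### Elements of `G0` -/

private theorem sur_mem_t : mt ∈ G0 := by
  show r2 mt * s5 = s5 * r2 mt
  apply M4.of_inj
  decide

private theorem sur_mem_y (i : Fin 6) : my i ∈ G0 := by
  show r2 (my i) * s5 = s5 * r2 (my i)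
  apply M4.of_inj
  revert i
  decide

private theorem sur_tr (g : GG) (T : M4 O11) (h : M4.of g = T) :
    tr (rdq (-3) 1 3 g) = Qfm (-3) 1 (Int.castRingHom (ZMod 3)) (T.1 + T.2.2.2) := by
  have e : tr (rdq (-3) 1 3 g) = Qfm (-3) 1 (Int.castRingHom (ZMod 3)) (tr g) := tr_map _ g
  rw [e, tr_eq, ← h]
  rfl

private theorem sur_comm : tr (rdq (-3) 1 3 (my 0 * my 1 * (my 0)⁻¹ * (my 1)⁻¹)) = ⟨0, 2⟩ := by
  rw [sur_tr _ (M4.mul (M4.mul (M4.mul (y4 0) (y4 1)) (M4.inv (y4 0))) (M4.inv (y4 1)))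
    (by rw [M4.of_mul, M4.of_mul, M4.of_mul, M4.of_inv, M4.of_inv]; rfl)]
  decide

/-! ### Units -/

private theorem sur_unit (u : O11ˣ) : u = 1 ∨ u = -1 := by
  have h1 : nm (u : O11) * nm ((u⁻¹ : O11ˣ) : O11) = 1 := by
    rw [← nm_mul, Units.mul_inv, nm_one]
  have h2 : nm (u : O11) = 1 := by
    rcases Int.isUnit_iff.1 (IsUnit.of_mul_eq_one _ h1) with h | h
    · exact h
    · have := nm_nonneg (u : O11)
      omega
  rcases unit_cases h2 with h | h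
  · left
    exact Units.ext h
  · right
    exact Units.ext h

/-! ### The main result -/

private theorem sur_main (h_eta : S_eta) (h_noc : S_noc) (h_chr : S_chr) (h_mq : BG.S_mq)
    (h_fi : BG.S_fi) (h_con : BG.S_con) (Λ : Type) [Group Λ] [Group.FG Λ] (Φ : NatBij GG Λ)
    (ρ : Λ →* GG) (hρ : RhoQ Φ ρ) (h2 : ∀ l, r2 (ρ l) = Φ.toFun _ r2 l) :
    Function.Surjective ρ := by
  obtain ⟨η, hη⟩ := h_eta
  have hL : ∀ l, l ∈ L0 Φ ↔ ρ l ∈ G0 := by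
    intro l
    show Φ.toFun _ r2 l ∈ C5 ↔ r2 (ρ l) ∈ C5
    rw [h2]
  obtain ⟨Ψ, hΨ⟩ := natBij_comap Φ (π := r2) (π' := Φ.toFun _ r2) rfl C5
  obtain ⟨hX3, hXA⟩ := h_chr Λ Φ ρ hρ
  have : Fact (Nat.Prime 7) := ⟨by norm_num⟩
  have hχ : ∀ l : L0 Φ, Ψ.toFun _
      ((Φ.invFun _ ((e7.comp ps).comp ρ)).comp G0.subtype) l =
      sur_u ^ Multiplicative.toAdd (nR al11 (η ⟨ρ l, (hL l).1 l.2⟩)) := by
    intro l
    have e1 : Ψ.toFun _ ((Φ.invFun _ ((e7.comp ps).comp ρ)).comp G0.subtype) =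
        (Φ.toFun _ (Φ.invFun _ ((e7.comp ps).comp ρ))).comp (L0 Φ).subtype :=
      hΨ _ (Φ.invFun _ ((e7.comp ps).comp ρ))
    rw [e1, Φ.right_inv]
    show e7 (ps (ρ l)) = _
    rw [← sur_e7, ← hη.lab]
  have hfi : ρ.range.FiniteIndex := by
    refine h_fi (-3) 1 (by norm_num) (Fin 6) al11 2 w11 (by norm_num) pos11 2 cc gg G0 η hη.q
      ⟨3, ⟨by norm_num⟩, ⟨mt, sur_mem_t⟩, ?_⟩
      ⟨3, ⟨by norm_num⟩, ⟨my 0, sur_mem_y 0⟩, ⟨my 1, sur_mem_y 1⟩, ?_, ?_⟩ Λ Φ ρ hρ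
      ⟨7, this, sur_u, h_mq (-3) 1 (Fin 6) al11 G0 η Λ ρ (L0 Φ) hL Ψ 7 sur_u _ hχ
        (h_noc η hη _ hX3 hXA)⟩
    · intro x hx hn
      apply sur_ps_mt
      have e := hη.lab x
      rw [hn, map_one] at e
      rw [← sur_ps _ _ hx, e]
    · show tr (rdq (-3) 1 3 (my 0 * my 1 * (my 0)⁻¹ * (my 1)⁻¹)) ≠ 2
      rw [sur_comm]
      decide
    · show tr (rdq (-3) 1 3 (my 0 * my 1 * (my 0)⁻¹ * (my 1)⁻¹)) ≠ -2
      rw [sur_comm]
      decide
  exact h_con (-3) 1 sur_unit (Fin 6) al11 2 cc gg G0 η hη.q cc_prim cc_conj Λ Φ ρ hρ hfi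

/-- [BG sur11] MAIN RESULT of the block G for `d = 11`: surjectivity. -/
theorem p_sur (h_eta : S_eta) (h_noc : S_noc) (h_chr : S_chr) (h_cj : S_cj) (h_mq : BG.S_mq)
    (h_fi : BG.S_fi) (h_con : BG.S_con) : S_sur := by
  intro Λ _ _ Φ ρ hρ htr
  obtain ⟨γ, hγ⟩ := h_cj Λ Φ ρ htr
  exact sur_conj_surj ρ γ (sur_main h_eta h_noc h_chr h_mq h_fi h_con Λ Φ (sur_conj γ ρ)
    (sur_conj_rho Φ ρ hρ γ) hγ)

end Pool.Agent.F8.BG.D11
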