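import Pool.Agent.Lib.MP_305fdd_al.F8.BG.D11.StmE

/-!
# MP_305fdd_al, the Bianchi group of `ℚ(√-11)`: `al11 ^ 2` is positive; the peripheral elements
-/

set_option autoImplicit false

namespace Pool.Agent.F8.BG.D11

open Pool.Agent.F8

/-- the words of `al11 ^ 2` -/
def w11 : Fin 6 → List (Fin 6) := ![
  [0, 4, 4, 3, 0, 4, 3, 5, 0, 4, 3, 0, 2, 1, 0, 4, 3, 0, 2, 2, 1, 0, 4, 3, 0, 2, 1, 1, 0, 4, 3, 0, 2, 1, 0, 4, 3],
  [0, 4, 4, 3, 0, 4, 3, 5, 0, 4, 3, 0, 2, 1, 0, 4, 3, 0, 2, 2, 1, 0, 4, 3, 0, 2, 1, 1, 0, 4, 3, 0, 2, 1, 1, 0, 4, 3, 0, 2, 1, 0, 4, 3],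
  [0, 4, 4, 3, 0, 4, 3, 5, 0, 4, 3, 0, 2, 1, 0, 4, 3, 0, 2, 2, 1, 0, 4, 3, 0, 2, 2, 1, 0, 4, 3, 0, 2, 1, 1, 0, 4, 3, 0, 2, 1, 0, 4, 3],
  [0, 4, 4, 3, 0, 4, 3, 5, 0, 4, 3, 0, 2, 1, 0, 4, 3, 0, 4, 4, 3, 0, 4, 3, 5, 0, 4, 3, 5, 0, 4, 3, 0, 2, 1, 0, 4, 3],
  [0, 4, 4, 3, 0, 4, 3, 5, 0, 4, 3, 0, 2, 1, 0, 4, 3, 0, 4, 4, 3],
  [0, 4, 4, 3, 0, 4, 3, 5, 0, 4, 3, 5, 0, 4, 3, 0, 2, 1, 0, 4, 3]]

theorem pw_mk {ι : Type} (l : List ι) : pw l = FreeGroup.mk (l.map fun i => (i, true)) := by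
  induction l with
  | nil => rfl
  | cons i l ih => rw [pw_cons, ih, List.map_cons]; rfl

private theorem pos_word : ∀ i, FreeGroup.reduce (sbw W11 (W11 i)) = (w11 i).map fun i => (i, true) := by
  decide

private theorem pos_eq (i : Fin 6) : (al11 ^ 2) (FreeGroup.of i) = pw (w11 i) := by
  rw [pow_two, MulAut.mul_apply]
  have h1 : al11 (FreeGroup.of i) = FreeGroup.mk (W11 i) := autw_of _ _ _ _ i
  have h2 : al11 (FreeGroup.mk (W11 i)) = FreeGroup.mk (FreeGroup.reduce (sbw W11 (W11 i))) :=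
    autw_mk _ _ _ _ _
  rw [h1, h2, pos_word, pw_mk]

private theorem pos_irr : ∀ i j : Fin 6, j ∈ w11 i := by decide

private theorem turn_of (i b a : Fin 6) (k : ℕ) (h : ((w11 i).drop k).take 2 = [b, a]) :
    Turn w11 b a := by
  refine Turn.base i b a ?_
  rw [← h]
  exact (List.take_prefix _ _).isInfix.trans (List.drop_suffix _ _).isInfix

/-- the relation of the turns -/
private def rel (x y : Fin 6 ⊕ Fin 6) : Prop := ∃ b a, x = Sum.inl b ∧ y = Sum.inr a ∧ Turn w11 b a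

private theorem rel_of (i b a : Fin 6) (k : ℕ) (h : ((w11 i).drop k).take 2 = [b, a]) :
    Relation.EqvGen rel (Sum.inl b) (Sum.inr a) :=
  Relation.EqvGen.rel _ _ ⟨b, a, rfl, rfl, turn_of i b a k h⟩

private theorem con_r4 : Relation.EqvGen rel (Sum.inl 0) (Sum.inr 4) :=
  rel_of 0 0 4 0 (by decide)
private theorem con_r2 : Relation.EqvGen rel (Sum.inl 0) (Sum.inr 2) :=
  rel_of 0 0 2 11 (by decide)
private theorem con_l4 : Relation.EqvGen rel (Sum.inl 0) (Sum.inl 4) :=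
  con_r4.trans _ _ _ ((rel_of 0 4 4 1 (by decide)).symm)
private theorem con_l2 : Relation.EqvGen rel (Sum.inl 0) (Sum.inl 2) :=
  con_r2.trans _ _ _ ((rel_of 0 2 2 18 (by decide)).symm)
private theorem con_r3 : Relation.EqvGen rel (Sum.inl 0) (Sum.inr 3) :=
  con_l4.trans _ _ _ (rel_of 0 4 3 2 (by decide))
private theorem con_r1 : Relation.EqvGen rel (Sum.inl 0) (Sum.inr 1) :=
  con_l2.trans _ _ _ (rel_of 0 2 1 12 (by decide))
private theorem con_l1 : Relation.EqvGen rel (Sum.inl 0) (Sum.inl 1) :=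
  con_r1.trans _ _ _ ((rel_of 0 1 1 26 (by decide)).symm)
private theorem con_r0 : Relation.EqvGen rel (Sum.inl 0) (Sum.inr 0) :=
  con_l1.trans _ _ _ (rel_of 0 1 0 13 (by decide))
private theorem con_l3 : Relation.EqvGen rel (Sum.inl 0) (Sum.inl 3) :=
  con_r0.trans _ _ _ ((rel_of 0 3 0 3 (by decide)).symm)
private theorem con_l5 : Relation.EqvGen rel (Sum.inl 0) (Sum.inl 5) :=
  con_r0.trans _ _ _ ((rel_of 0 5 0 7 (by decide)).symm)
private theorem con_r5 : Relation.EqvGen rel (Sum.inl 0) (Sum.inr 5) :=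
  con_l3.trans _ _ _ (rel_of 0 3 5 6 (by decide))

private theorem con_all (x : Fin 6 ⊕ Fin 6) : Relation.EqvGen rel (Sum.inl 0) x := by
  rcases x with x | x
  · fin_cases x
    · exact Relation.EqvGen.refl _
    · exact con_l1
    · exact con_l2
    · exact con_l3
    · exact con_l4
    · exact con_l5
  · fin_cases x
    · exact con_r0
    · exact con_r1
    · exact con_r2
    · exact con_r3
    · exact con_r4
    · exact con_r5

/-- `al11 ^ 2` is positive -/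
theorem pos11 : Pos (al11 ^ 2) w11 where
  eq := pos_eq
  irr i j := Relation.ReflTransGen.single (pos_irr i j)
  con x y := (con_all x).symm.trans _ _ _ (con_all y)

/-! ### The peripheral elements -/

private def WC : Fin 6 → List (Fin 6 × Bool) := ![[(0, true)], [(2, false), (1, true)],
  [(2, true)], [(3, true)], [(4, true)], [(5, true)]]
private def VC : Fin 6 → List (Fin 6 × Bool) := ![[(0, true)], [(2, true), (1, true)],
  [(2, true)], [(3, true)], [(4, true)], [(5, true)]]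

theorem cc_prim : Prim cc :=
  ⟨autw WC VC (by decide) (by decide), 1, autw_of _ _ _ _ 1⟩

theorem cc_conj : gg * al11 cc * gg⁻¹ = cc := by
  have h1 : al11 cc = FreeGroup.mk (FreeGroup.reduce (sbw W11 [(2, false), (1, true)])) :=
    autw_mk _ _ _ _ _
  rw [h1]
  unfold gg cc
  rw [FreeGroup.inv_mk, FreeGroup.mul_mk, FreeGroup.mul_mk]
  apply FreeGroup.reduce.exact
  decide

end Pool.Agent.F8.BG.D11
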