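import Pool.Agent.Lib.MP_305fdd_al.F8.BG.D11.Arith

/-!
# MP_305fdd_al, Bianchi group for `d = 11`: the presentation of `PSL₂(O11)`

`A = mU 1`, `U = mU w`, `B = mB`. For every group `Q` with elements `al, up, be` satisfying the
relations `Rel` there is a homomorphism `SL₂(O11) → Q` with these values (`pres`). The homomorphism
is defined with the Euclidean algorithm; the main point is that its value does not depend on the
choice of the quotients (`Good`).
-/

set_option autoImplicit false

namespace Pool.Agent.F8.BG.D11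

open Pool.Agent.F8
open Pool.Agent.F8.G (SL_ext SL_mul SL_det SL_neg mU00 mU01 mU10 mU11 mB00 mB01 mB10 mB11
  one00 one01 one10 one11 U00 U01 U10 U11 B00 B01 B10 B11 mU_add mU_zero BB)
open scoped QuadraticAlgebra

/-! ### The relations -/

/-- the relations of `PSL₂(O11)` -/
structure Rel (Q : Type) [Group Q] (al up be : Q) : Prop where
  c1 : al * up = up * al
  c2 : be * be = 1
  c3 : al * be * al * be * al * be = 1
  c4 : be * al * up⁻¹ * be * up * be * al * up⁻¹ * be * up * be * al * up⁻¹ * be * up = 1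

section

variable {Q : Type} [Group Q] {al up be : Q}

/-- the image of `mU x` -/
def ee (al up : Q) (x : O11) : Q := al ^ x.re * up ^ x.im

theorem ee_zero : ee al up 0 = 1 := by
  unfold ee; simp

namespace Rel

variable (h : Rel Q al up be)
include h

theorem ee_add (x y : O11) : ee al up (x + y) = ee al up x * ee al up y := by
  unfold ee
  have hc : Commute al up := h.c1
  rw [QuadraticAlgebra.re_add, QuadraticAlgebra.im_add, zpow_add, zpow_add]
  have h1 : al ^ y.re * up ^ x.im = up ^ x.im * al ^ y.re := (hc.zpow_zpow _ _).eq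
  calc al ^ x.re * al ^ y.re * (up ^ x.im * up ^ y.im)
      = al ^ x.re * (al ^ y.re * up ^ x.im) * up ^ y.im := by group
    _ = _ := by rw [h1]; group

theorem ee_neg (x : O11) : ee al up (-x) = (ee al up x)⁻¹ := by
  apply eq_inv_of_mul_eq_one_left
  rw [← h.ee_add, neg_add_cancel, ee_zero]

theorem be_inv : be⁻¹ = be := inv_eq_of_mul_eq_one_left h.c2

theorem al_rel : be * al * be = al⁻¹ * be * al⁻¹ := by
  have h7 := h.c3
  have hb := h.be_inv
  calc be * al * be = al⁻¹ * (al * be * al * be * al * be) * be⁻¹ * al⁻¹ := by group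
    _ = al⁻¹ * be * al⁻¹ := by rw [h7, hb]; group

/-- passage to the inverse -/
theorem inv_rel {x y : Q} (hxy : be * x * be = y) : be * x⁻¹ * be = y⁻¹ := by
  rw [← hxy, mul_inv_rev, mul_inv_rev, h.be_inv, mul_assoc]

/-- the relations for the two units -/
theorem unit_rel (v : O11) (hv : nm v = 1) : v * v = 1 ∧
    (mB O11 * mU v * mB O11 = mU (-v) * mB O11 * mU (-v) ∨
      mB O11 * mU v * mB O11 = -(mU (-v) * mB O11 * mU (-v))) ∧
    be * ee al up v * be = ee al up (-v) * be * ee al up (-v) := by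
  have e1 : ee al up (1 : O11) = al := by unfold ee; simp
  rcases unit_cases hv with rfl | rfl
  · refine ⟨by decide, ?_, ?_⟩
    · left
      apply SL_ext <;> simp only [SL_mul, mU00, mU01, mU10, mU11, mB00, mB01, mB10, mB11] <;> decide
    · rw [h.ee_neg, e1, h.al_rel]
  · refine ⟨by decide, ?_, ?_⟩
    · right
      apply SL_ext <;> simp only [SL_mul, mU00, mU01, mU10, mU11, mB00, mB01, mB10, mB11,
        SL_neg] <;> decide
    · rw [neg_neg, h.ee_neg, e1, h.inv_rel h.al_rel, mul_inv_rev, mul_inv_rev, inv_inv, h.be_inv,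
        mul_assoc]

/-- the relations for the elements of norm three -/
theorem three_rel (v : O11) (hv : nm v = 3) : ∃ u : O11, u * v = 3 ∧ nm u = 3 ∧
    mB O11 * mU v * mB O11 = -(mU (-u) * mB O11 * mU (-v) * mB O11 * mU (-u) * mB O11 *
      mU (-v) * mB O11 * mU (-u)) ∧
    be * ee al up v * be = ee al up (-u) * be * ee al up (-v) * be * ee al up (-u) * be *
      ee al up (-v) * be * ee al up (-u) := by
  have hb := h.be_inv
  have hc : Commute al up := h.c1
  have e2 : ee al up (⟨0, 1⟩ : O11) = up := by unfold ee; simp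
  have e3 : ee al up (⟨1, -1⟩ : O11) = al * up⁻¹ := by unfold ee; simp
  obtain ⟨p, hp⟩ : ∃ p, p = al * up⁻¹ := ⟨_, rfl⟩
  have k : be * p * be * up * be * p * be * up * be * p * be * up = 1 := by
    rw [← h.c4, hp]; group
  rw [← hp] at e3
  -- v = w
  have r1 : be * up * be = p⁻¹ * be * up⁻¹ * be * p⁻¹ * be * up⁻¹ * be * p⁻¹ := by
    have h5 : be * up * be * (p * be * up * be * p * be * up * be * p) = 1 := by
      have : be * up * be * (p * be * up * be * p * be * up * be * p) =
        (be * p)⁻¹ * (be * p * be * up * be * p * be * up * be * p * be * up) * (be * p) := by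
          group
      rw [this, k]; group
    rw [eq_inv_of_mul_eq_one_left h5]
    simp only [mul_inv_rev, hb, mul_assoc]
  -- v = 1 - w
  have r2 : be * p * be = up⁻¹ * be * p⁻¹ * be * up⁻¹ * be * p⁻¹ * be * up⁻¹ := by
    have h5 : be * p * be * (up * be * p * be * up * be * p * be * up) = 1 := by
      rw [← k]; group
    rw [eq_inv_of_mul_eq_one_left h5]
    simp only [mul_inv_rev, hb, mul_assoc]
  rcases three_cases hv with rfl | rfl | rfl | rfl
  · refine ⟨⟨1, -1⟩, by decide, by decide, ?_, ?_⟩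
    · apply SL_ext <;> simp only [SL_mul, mU00, mU01, mU10, mU11, mB00, mB01, mB10, mB11,
        SL_neg] <;> decide
    · rw [h.ee_neg, h.ee_neg, e2, e3, r1]
  · refine ⟨⟨-1, 1⟩, by decide, by decide, ?_, ?_⟩
    · apply SL_ext <;> simp only [SL_mul, mU00, mU01, mU10, mU11, mB00, mB01, mB10, mB11,
        SL_neg] <;> decide
    · have n1 : (⟨0, -1⟩ : O11) = -⟨0, 1⟩ := by decide
      have n2 : (⟨-1, 1⟩ : O11) = -⟨1, -1⟩ := by decide
      rw [n1, n2, neg_neg, neg_neg, h.ee_neg, e2, e3, h.inv_rel r1]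
      simp only [mul_inv_rev, inv_inv, hb, mul_assoc]
  · refine ⟨⟨0, 1⟩, by decide, by decide, ?_, ?_⟩
    · apply SL_ext <;> simp only [SL_mul, mU00, mU01, mU10, mU11, mB00, mB01, mB10, mB11,
        SL_neg] <;> decide
    · rw [h.ee_neg, h.ee_neg, e2, e3, r2]
  · refine ⟨⟨0, -1⟩, by decide, by decide, ?_, ?_⟩
    · apply SL_ext <;> simp only [SL_mul, mU00, mU01, mU10, mU11, mB00, mB01, mB10, mB11,
        SL_neg] <;> decide
    · have n1 : (⟨0, -1⟩ : O11) = -⟨0, 1⟩ := by decide
      have n2 : (⟨-1, 1⟩ : O11) = -⟨1, -1⟩ := by decide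
      rw [n1, n2, neg_neg, neg_neg, h.ee_neg, e2, e3, h.inv_rel r2]
      simp only [mul_inv_rev, inv_inv, hb, mul_assoc]

end Rel

/-! ### The function defined by the Euclidean algorithm -/

/-- the value at an upper triangular matrix -/
def T0 (al up : Q) (g : SL2 O11) : Q := ee al up (g.val 0 1 * g.val 0 0)

open Classical in
/-- a quotient -/
noncomputable def qq (g : SL2 O11) : O11 :=
  if h : g.val 1 0 = 0 then 0 else Classical.choose (O_div (g.val 0 0) (g.val 1 0) h)

theorem qq_spec (g : SL2 O11) (h : g.val 1 0 ≠ 0) :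
    nm (g.val 0 0 - qq g * g.val 1 0) < nm (g.val 1 0) := by
  unfold qq
  rw [dif_neg h]
  exact Classical.choose_spec (O_div (g.val 0 0) (g.val 1 0) h)

theorem BU10 (q : O11) (g : SL2 O11) :
    (mB O11 * (mU (-q) * g)).val 1 0 = g.val 0 0 - q * g.val 1 0 := by
  rw [B10, U00]; ring

theorem BU00 (q : O11) (g : SL2 O11) : (mB O11 * (mU (-q) * g)).val 0 0 = -g.val 1 0 := by
  rw [B00, U10]

open Classical in
/-- the function defined by the Euclidean algorithm -/
noncomputable def FF (al up be : Q) (g : SL2 O11) : Q :=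
  if _h : g.val 1 0 = 0 then T0 al up g
  else ee al up (qq g) * be * FF al up be (mB O11 * (mU (-(qq g)) * g))
termination_by (nm (g.val 1 0)).toNat
decreasing_by
  rw [BU10]
  have h1 := qq_spec g _h
  have h2 := nm_nonneg (g.val 0 0 - qq g * g.val 1 0)
  omega

/-- the two equations of `FF` -/
structure IsFF (al up be : Q) (F : SL2 O11 → Q) : Prop where
  z : ∀ g, g.val 1 0 = 0 → F g = T0 al up g
  s : ∀ g, g.val 1 0 ≠ 0 → F g = ee al up (qq g) * be * F (mB O11 * (mU (-(qq g)) * g))

theorem isFF (al up be : Q) : IsFF al up be (FF al up be) where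
  z := fun g h => by rw [FF, dif_pos h]
  s := fun g h => by
    conv_lhs => rw [FF, dif_neg h]

/-- the statement of the induction -/
structure Good (al up be : Q) (F : SL2 O11 → Q) (m : ℕ) : Prop where
  I : ∀ g, nm (g.val 1 0) ≤ m → g.val 1 0 ≠ 0 → ∀ q,
    nm (g.val 0 0 - q * g.val 1 0) < nm (g.val 1 0) →
    F g = ee al up q * be * F (mB O11 * (mU (-q) * g))
  U : ∀ g, nm (g.val 1 0) ≤ m → ∀ x, F (mU x * g) = ee al up x * F g
  N : ∀ g, nm (g.val 1 0) ≤ m → F (-g) = F g
  B : ∀ g, nm (g.val 1 0) ≤ m → nm (g.val 0 0) ≤ m → F (mB O11 * g) = be * F g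

theorem BBg (g : SL2 O11) : mB O11 * (mB O11 * g) = -g := by
  rw [← mul_assoc, BB, neg_one_mul]

theorem UUg (x y : O11) (g : SL2 O11) : mU x * (mU y * g) = mU (x + y) * g := by
  rw [← mul_assoc, ← mU_add]

variable {F : SL2 O11 → Q}

/-- the main computation: the values at `B T^v B⁻¹ h` -/
theorem turn (hr : Rel Q al up be) {m M : ℕ} (hmM : m ≤ M)
    (hU : ∀ g, nm (g.val 1 0) ≤ M → ∀ x, F (mU x * g) = ee al up x * F g)
    (hN : ∀ g, nm (g.val 1 0) ≤ M → F (-g) = F g)
    (hB : ∀ g, nm (g.val 1 0) ≤ m → nm (g.val 0 0) ≤ M → F (mB O11 * g) = be * F g)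
    (v : O11) (hv : nm v = 1 ∨ nm v = 3) (y : SL2 O11)
    (h0 : nm (y.val 0 0) ≤ m) (h1 : nm (y.val 0 0 + v * y.val 1 0) ≤ M)
    (h2 : nm (y.val 0 0) ≤ nm (y.val 1 0))
    (h3 : nm (y.val 0 0 + v * y.val 1 0) ≤ nm (y.val 1 0)) :
    F (mB O11 * (mU v * y)) = be * ee al up v * be * F (mB O11 * y) := by
  have hmM' : (m : ℤ) ≤ M := by exact_mod_cast hmM
  have e0 : mB O11 * (mU v * y) = -(mB O11 * mU v * mB O11 * (mB O11 * y)) := by
    have : mB O11 * mU v * mB O11 * (mB O11 * y) = mB O11 * (mU v * (mB O11 * (mB O11 * y))) := by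
      group
    rw [this, BBg]
    rw [mul_neg, mul_neg, neg_neg]
  have hUy : ∀ x, F (mU x * (mB O11 * y)) = ee al up x * F (mB O11 * y) := fun x =>
    hU _ (by rw [B10]; exact h0.trans hmM') x
  rcases hv with hv | hv
  · obtain ⟨huv, hm, hq⟩ := hr.unit_rel v hv
    have e1 : (mU (-v) * mB O11 * mU (-v)) * (mB O11 * y) =
        mU (-v) * (mB O11 * (mU (-v) * (mB O11 * y))) := by group
    obtain ⟨z, hz⟩ : ∃ z, z = mU (-v) * (mB O11 * y) := ⟨_, rfl⟩
    have z00 : nm (z.val 0 0) ≤ M := by
      rw [hz, U00, B00, B10]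
      have : -y.val 1 0 + -v * y.val 0 0 = -(v * (y.val 0 0 + v * y.val 1 0)) := by
        linear_combination (y.val 1 0) * huv
      rw [this, nm_neg, nm_mul, hv, one_mul]
      exact h1
    have z10 : nm (z.val 1 0) ≤ m := by
      rw [hz, U10, B10]; exact h0
    have hval : F (mU (-v) * (mB O11 * z)) = be * ee al up v * be * F (mB O11 * y) := by
      rw [hU _ (by rw [B10]; exact z00), hB z z10 z00, hz, hUy, hq]
      group
    have hlow : nm ((mU (-v) * (mB O11 * z)).val 1 0) ≤ M := by
      rw [U10, B10]; exact z00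
    rw [e0]
    rcases hm with hm | hm
    · rw [hm, e1, ← hz, hN _ hlow, hval]
    · rw [hm, neg_mul, neg_neg, e1, ← hz, hval]
  · obtain ⟨u, huv, hu, hm, hq⟩ := hr.three_rel v hv
    have e1 : (mU (-u) * mB O11 * mU (-v) * mB O11 * mU (-u) * mB O11 * mU (-v) * mB O11 *
        mU (-u)) * (mB O11 * y) = mU (-u) * (mB O11 * (mU (-v) * (mB O11 * (mU (-u) *
          (mB O11 * (mU (-v) * (mB O11 * (mU (-u) * (mB O11 * y))))))))) := by group
    obtain ⟨z1, hz1⟩ : ∃ z, z = mU (-u) * (mB O11 * y) := ⟨_, rfl⟩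
    obtain ⟨z2, hz2⟩ : ∃ z, z = mU (-v) * (mB O11 * z1) := ⟨_, rfl⟩
    obtain ⟨z3, hz3⟩ : ∃ z, z = mU (-u) * (mB O11 * z2) := ⟨_, rfl⟩
    obtain ⟨z4, hz4⟩ : ∃ z, z = mU (-v) * (mB O11 * z3) := ⟨_, rfl⟩
    have a1 : z1.val 0 0 = -(y.val 1 0 + u * y.val 0 0) := by
      rw [hz1, U00, B00, B10]; ring
    have b1 : z1.val 1 0 = y.val 0 0 := by
      rw [hz1, U10, B10]
    have a2 : z2.val 0 0 = y.val 0 0 + (y.val 0 0 + v * y.val 1 0) := by
      rw [hz2, U00, B00, B10, a1, b1]
      linear_combination (y.val 0 0) * huv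
    have b2 : z2.val 1 0 = -(y.val 1 0 + u * y.val 0 0) := by
      rw [hz2, U10, B10, a1]
    have a3 : z3.val 0 0 = -(2 * y.val 1 0 + u * y.val 0 0) := by
      rw [hz3, U00, B00, B10, a2, b2]
      linear_combination (-(y.val 1 0)) * huv
    have b3 : z3.val 1 0 = y.val 0 0 + (y.val 0 0 + v * y.val 1 0) := by
      rw [hz3, U10, B10, a2]
    have a4 : z4.val 0 0 = y.val 0 0 + v * y.val 1 0 := by
      rw [hz4, U00, B00, B10, a3, b3]
      linear_combination (y.val 0 0) * huv
    have b4 : z4.val 1 0 = -(2 * y.val 1 0 + u * y.val 0 0) := by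
      rw [hz4, U10, B10, a3]
    have hs1 : nm (y.val 0 0 + (y.val 0 0 + v * y.val 1 0)) =
        2 * nm (y.val 0 0) + 2 * nm (y.val 0 0 + v * y.val 1 0) - 3 * nm (y.val 1 0) := by
      have p1 := nm_par (y.val 0 0 + v * y.val 1 0) (y.val 0 0)
      have p2 : y.val 0 0 + v * y.val 1 0 - y.val 0 0 = v * y.val 1 0 := by ring
      rw [p2, nm_mul, hv, add_comm (y.val 0 0 + v * y.val 1 0)] at p1
      linarith
    have hp1 : nm (y.val 1 0 + u * y.val 0 0) =
        2 * nm (y.val 0 0) + nm (y.val 0 0 + v * y.val 1 0) - 2 * nm (y.val 1 0) := by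
      have p1 := nm_par (y.val 0 0 + (y.val 0 0 + v * y.val 1 0)) (y.val 0 0)
      have p2 : y.val 0 0 + (y.val 0 0 + v * y.val 1 0) - y.val 0 0 =
        y.val 0 0 + v * y.val 1 0 := by ring
      have p3 : y.val 0 0 + (y.val 0 0 + v * y.val 1 0) + y.val 0 0 =
          v * (y.val 1 0 + u * y.val 0 0) := by
        linear_combination (-(y.val 0 0)) * huv
      rw [p2, p3, nm_mul, hv, hs1] at p1
      linarith
    have hq1 : nm (2 * y.val 1 0 + u * y.val 0 0) =
        nm (y.val 0 0) + 2 * nm (y.val 0 0 + v * y.val 1 0) - 2 * nm (y.val 1 0) := by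
      have p1 := nm_par (y.val 0 0 + (y.val 0 0 + v * y.val 1 0)) (y.val 0 0 + v * y.val 1 0)
      have p2 : y.val 0 0 + (y.val 0 0 + v * y.val 1 0) - (y.val 0 0 + v * y.val 1 0) =
        y.val 0 0 := by ring
      have p3 : y.val 0 0 + (y.val 0 0 + v * y.val 1 0) + (y.val 0 0 + v * y.val 1 0) =
          v * (2 * y.val 1 0 + u * y.val 0 0) := by
        linear_combination (-(y.val 0 0)) * huv
      rw [p2, p3, nm_mul, hv, hs1] at p1
      linarith
    have c1 : nm (z1.val 1 0) ≤ m := by rw [b1]; exact h0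
    have c2 : nm (z2.val 1 0) ≤ m := by rw [b2, nm_neg, hp1]; linarith
    have c3 : nm (z3.val 1 0) ≤ m := by rw [b3, hs1]; linarith
    have c4 : nm (z4.val 1 0) ≤ m := by rw [b4, nm_neg, hq1]; linarith
    have d1 : nm (z1.val 0 0) ≤ M := by rw [a1, nm_neg, hp1]; linarith
    have d2 : nm (z2.val 0 0) ≤ M := by rw [a2, hs1]; linarith
    have d3 : nm (z3.val 0 0) ≤ M := by rw [a3, nm_neg, hq1]; linarith
    have d4 : nm (z4.val 0 0) ≤ M := by rw [a4]; exact h1
    have hval : F (mU (-u) * (mB O11 * z4)) = be * ee al up v * be * F (mB O11 * y) := by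
      rw [hU _ (by rw [B10]; exact d4), hB z4 c4 d4, hz4,
        hU _ (by rw [B10]; exact d3), hB z3 c3 d3, hz3,
        hU _ (by rw [B10]; exact d2), hB z2 c2 d2, hz2,
        hU _ (by rw [B10]; exact d1), hB z1 c1 d1, hz1, hUy, hq]
      group
    rw [e0, hm, neg_mul, neg_neg, e1, ← hz1, ← hz2, ← hz3, ← hz4, hval]

/-- the step of the induction -/
theorem good_succ (hr : Rel Q al up be) (hF : IsFF al up be F) {m : ℕ}
    (h : Good al up be F m) : Good al up be F (m + 1) := by
  have hb := hr.be_inv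
  have hbb : ∀ x : Q, be * (be * x) = x := fun x => by rw [← mul_assoc, hr.c2, one_mul]
  -- steps
  have key : ∀ g : SL2 O11, nm (g.val 1 0) ≤ (m + 1 : ℕ) → g.val 1 0 ≠ 0 → ∀ q v : O11,
      (nm v = 1 ∨ nm v = 3) →
      nm (g.val 0 0 - q * g.val 1 0) < nm (g.val 1 0) →
      nm (g.val 0 0 - (q - v) * g.val 1 0) < nm (g.val 1 0) →
      ee al up q * be * F (mB O11 * (mU (-q) * g)) =
        ee al up (q - v) * be * F (mB O11 * (mU (-(q - v)) * g)) := by
    intro g hg hc q v hv h1 h2
    push_cast at hg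
    have e1 : mU (-(q - v)) * g = mU v * (mU (-q) * g) := by
      rw [UUg]; congr 2; ring
    have q0 : (mU (-q) * g).val 0 0 = g.val 0 0 - q * g.val 1 0 := by rw [U00]; ring
    have q1 : (mU (-q) * g).val 1 0 = g.val 1 0 := by rw [U10]
    have q2 : g.val 0 0 - q * g.val 1 0 + v * g.val 1 0 = g.val 0 0 - (q - v) * g.val 1 0 := by
      ring
    have h3 : F (mB O11 * (mU v * (mU (-q) * g))) =
        be * ee al up v * be * F (mB O11 * (mU (-q) * g)) := by
      apply turn hr (le_refl m) h.U h.N h.B v hv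
      · rw [q0]; omega
      · rw [q0, q1, q2]; omega
      · rw [q0, q1]; omega
      · rw [q0, q1, q2]; omega
    rw [e1, h3, show q - v = q + -v by ring, hr.ee_add, hr.ee_neg]
    calc ee al up q * be * F (mB O11 * (mU (-q) * g))
        = ee al up q * (ee al up v)⁻¹ * (ee al up v * be * F (mB O11 * (mU (-q) * g))) := by group
      _ = ee al up q * (ee al up v)⁻¹ * (be * (be * (ee al up v * be *
          F (mB O11 * (mU (-q) * g))))) := by rw [hbb]
      _ = _ := by group
  have I' : ∀ g : SL2 O11, nm (g.val 1 0) ≤ (m + 1 : ℕ) → g.val 1 0 ≠ 0 → ∀ q : O11,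
      nm (g.val 0 0 - q * g.val 1 0) < nm (g.val 1 0) →
      F g = ee al up q * be * F (mB O11 * (mU (-q) * g)) := by
    intro g hg hc q hq
    rw [hF.s g hc]
    have adj : ∀ x y : O11, Adj (g.val 0 0) (g.val 1 0) x y →
        ee al up x * be * F (mB O11 * (mU (-x) * g)) =
          ee al up y * be * F (mB O11 * (mU (-y) * g)) := by
      rintro x y ⟨h1, h2, h3⟩
      have := key g hg hc x (x - y) h1 h2 (by rw [sub_sub_cancel]; exact h3)
      rwa [sub_sub_cancel] at this
    rcases step_connect (g.val 0 0) (g.val 1 0) hc (qq g) q (qq_spec g hc) hq with h1 | h1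
    · rw [h1]
    · exact adj _ _ h1
  -- upper triangular matrices
  have hdet : ∀ g : SL2 O11, g.val 1 0 = 0 → g.val 0 0 * g.val 1 1 = 1 := by
    intro g hg
    have h1 := SL_det g
    rw [hg, mul_zero, sub_zero] at h1
    exact h1
  have U' : ∀ g : SL2 O11, nm (g.val 1 0) ≤ (m + 1 : ℕ) → ∀ x,
      F (mU x * g) = ee al up x * F g := by
    intro g hg x
    by_cases hc : g.val 1 0 = 0
    · rw [hF.z g hc, hF.z _ (by rw [U10]; exact hc)]
      unfold T0
      rw [U01, U00, hc, mul_zero, add_zero]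
      have h1 := hdet g hc
      have : (g.val 0 1 + x * g.val 1 1) * g.val 0 0 = x + g.val 0 1 * g.val 0 0 := by
        linear_combination x * h1
      rw [this, hr.ee_add]
    · have hq := qq_spec g hc
      rw [hF.s g hc, I' (mU x * g) (by rw [U10]; exact hg) (by rw [U10]; exact hc) (x + qq g)
        (by
          rw [U00, U10]
          have : g.val 0 0 + x * g.val 1 0 - (x + qq g) * g.val 1 0 =
            g.val 0 0 - qq g * g.val 1 0 := by ring
          rw [this]; exact hq)]
      rw [UUg, show -(x + qq g) + x = -qq g by ring, hr.ee_add]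
      group
  have N' : ∀ g : SL2 O11, nm (g.val 1 0) ≤ (m + 1 : ℕ) → F (-g) = F g := by
    intro g hg
    by_cases hc : g.val 1 0 = 0
    · rw [hF.z g hc, hF.z _ (by rw [SL_neg, hc, neg_zero])]
      unfold T0
      rw [SL_neg, SL_neg, neg_mul_neg]
    · have hq := qq_spec g hc
      rw [hF.s g hc, I' (-g) (by rw [SL_neg, nm_neg]; exact hg)
        (by rw [SL_neg]; exact neg_ne_zero.2 hc) (qq g)
        (by
          rw [SL_neg, SL_neg, nm_neg]
          have : -g.val 0 0 - qq g * -g.val 1 0 = -(g.val 0 0 - qq g * g.val 1 0) := by ring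
          rw [this, nm_neg]; exact hq)]
      rw [mul_neg, mul_neg, h.N _ (by
        rw [BU10]
        push_cast at hg
        omega)]
  refine ⟨I', U', N', ?_⟩
  -- the flip
  have h0' : mU (-(0 : O11)) = 1 := by rw [neg_zero, mU_zero]
  have caseA : ∀ g : SL2 O11, nm (g.val 0 0) < nm (g.val 1 0) → nm (g.val 1 0) ≤ (m + 1 : ℕ) →
      F (mB O11 * g) = be * F g := by
    intro g h1 h2
    have hc : g.val 1 0 ≠ 0 := by
      intro h0
      rw [h0, nm_zero] at h1
      have := nm_nonneg (g.val 0 0)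
      omega
    have := I' g h2 hc 0 (by rw [zero_mul, sub_zero]; exact h1)
    rw [ee_zero, one_mul, h0', one_mul] at this
    rw [this, hbb]
  have caseB : ∀ g : SL2 O11, nm (g.val 1 0) < nm (g.val 0 0) → nm (g.val 0 0) ≤ (m + 1 : ℕ) →
      F (mB O11 * g) = be * F g := by
    intro g h1 h2
    have hc : (mB O11 * g).val 1 0 ≠ 0 := by
      intro h0
      rw [B10] at h0
      rw [h0, nm_zero] at h1
      have := nm_nonneg (g.val 1 0)
      omega
    have := I' (mB O11 * g) (by rw [B10]; exact h2) hc 0 (by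
      rw [zero_mul, sub_zero, B00, B10, nm_neg]; exact h1)
    rw [ee_zero, one_mul, h0', one_mul, BBg, N' g (by omega)] at this
    exact this
  intro g hc ha
  rcases lt_trichotomy (nm (g.val 0 0)) (nm (g.val 1 0)) with h1 | h1 | h1
  · exact caseA g h1 hc
  · have hc0 : g.val 1 0 ≠ 0 := by
      intro h0
      rw [h0, nm_zero] at h1
      have h2 := nm_eq_zero h1
      have h3 := SL_det g
      rw [h0, h2] at h3
      simp at h3
    obtain ⟨v, hv, hv2⟩ := unit_step (g.val 0 0) (g.val 1 0) hc0 h1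
    obtain ⟨y, hy⟩ : ∃ y, y = mU (-v) * g := ⟨_, rfl⟩
    have hgy : g = mU v * y := by
      rw [hy, UUg, add_neg_cancel, mU_zero, one_mul]
    have y00 : y.val 0 0 = g.val 0 0 - v * g.val 1 0 := by rw [hy, U00]; ring
    have y10 : y.val 1 0 = g.val 1 0 := by rw [hy, U10]
    have y3 : g.val 0 0 - v * g.val 1 0 + v * g.val 1 0 = g.val 0 0 := by ring
    have f1 : F g = ee al up v * F y := by
      conv_lhs => rw [hgy]
      exact U' y (by rw [y10]; exact hc) v
    have f2 : F (mB O11 * y) = be * F y := caseA y (by rw [y00, y10]; exact hv2) (by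
      rw [y10]; exact hc)
    have f3 : F (mB O11 * g) = be * ee al up v * be * F (mB O11 * y) := by
      conv_lhs => rw [hgy]
      push_cast at ha hc
      apply turn hr (Nat.le_succ m) U' N' _ v hv
      · rw [y00]; omega
      · rw [y00, y10, y3]; push_cast; omega
      · rw [y00, y10]; omega
      · rw [y00, y10, y3]; omega
      · intro g' g1 g2
        push_cast at g2
        by_cases g3 : nm (g'.val 0 0) ≤ m
        · exact h.B g' g1 g3
        · exact caseB g' (by omega) (by push_cast; omega)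
    rw [f3, f2, f1]
    calc be * ee al up v * be * (be * F y) = be * ee al up v * (be * (be * F y)) := by group
      _ = _ := by rw [hbb]; group
  · exact caseB g h1 ha

theorem SL_tri (g : SL2 O11) (hg : g.val 1 0 = 0) :
    g.val 0 0 * g.val 1 1 = 1 ∧ nm (g.val 0 0) = 1 := by
  have h1 := SL_det g
  rw [hg, mul_zero, sub_zero] at h1
  refine ⟨h1, ?_⟩
  have h2 := congrArg nm h1
  rw [nm_mul, nm_one] at h2
  have h3 := nm_nonneg (g.val 0 0)
  have h4 := nm_nonneg (g.val 1 1)
  exact Int.eq_one_of_mul_eq_one_right h3 h2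

/-- the beginning of the induction -/
theorem good_zero (hr : Rel Q al up be) (hF : IsFF al up be F) : Good al up be F 0 := by
  have hz : ∀ x : O11, nm x ≤ ((0 : ℕ) : ℤ) → x = 0 := by
    intro x hx
    have := nm_nonneg x
    apply nm_eq_zero
    push_cast at hx
    omega
  refine ⟨?_, ?_, ?_, ?_⟩
  · intro g hg hc
    exact absurd (hz _ hg) hc
  · intro g hg x
    have hc := hz _ hg
    rw [hF.z g hc, hF.z _ (by rw [U10]; exact hc)]
    unfold T0
    rw [U01, U00, hc, mul_zero, add_zero]
    obtain ⟨h1, h2⟩ := SL_tri g hc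
    have : (g.val 0 1 + x * g.val 1 1) * g.val 0 0 = x + g.val 0 1 * g.val 0 0 := by
      linear_combination x * h1
    rw [this, hr.ee_add]
  · intro g hg
    have hc := hz _ hg
    rw [hF.z g hc, hF.z _ (by rw [SL_neg, hc, neg_zero])]
    unfold T0
    rw [SL_neg, SL_neg, neg_mul_neg]
  · intro g hc ha
    have h3 := SL_det g
    rw [hz _ ha, hz _ hc] at h3
    simp at h3

theorem good_all (hr : Rel Q al up be) (hF : IsFF al up be F) (m : ℕ) :
    Good al up be F m := by
  induction m with
  | zero => exact good_zero hr hF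
  | succ m ih => exact good_succ hr hF ih

end

/-! ### The homomorphism -/

/-- the induction principle for `SL₂(O11)` -/
theorem SL_ind (P : SL2 O11 → Prop) (h1 : P 1) (hU : ∀ (x : O11) (g : SL2 O11), P g → P (mU x * g))
    (hB : ∀ g : SL2 O11, P g → P (mB O11 * g)) (g : SL2 O11) : P g := by
  have hN : ∀ g : SL2 O11, P g → P (-g) := by
    intro g hg
    rw [← BBg]
    exact hB _ (hB _ hg)
  have key : ∀ n : ℕ, ∀ g : SL2 O11, nm (g.val 1 0) ≤ n → P g := by
    intro n
    induction n with
    | zero =>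
      intro g hg
      have hc : g.val 1 0 = 0 := by
        have := nm_nonneg (g.val 1 0)
        apply nm_eq_zero
        push_cast at hg
        omega
      obtain ⟨h2, h3⟩ := SL_tri g hc
      rcases unit_cases h3 with h4 | h4
      · have h5 : g.val 1 1 = 1 := by rw [h4, one_mul] at h2; exact h2
        have e : g = mU (g.val 0 1) * 1 := by
          rw [mul_one]
          exact SL_ext h4 rfl hc h5
        rw [e]
        exact hU _ _ h1
      · have h5 : g.val 1 1 = -1 := by rw [h4] at h2; linear_combination -h2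
        have e : g = -(mU (-g.val 0 1) * 1) := by
          rw [mul_one]
          apply SL_ext
          · rw [SL_neg, mU00, h4]
          · rw [SL_neg, mU01, neg_neg]
          · rw [SL_neg, mU10, hc, neg_zero]
          · rw [SL_neg, mU11, h5]
        rw [e]
        exact hN _ (hU _ _ h1)
    | succ n ih =>
      intro g hg
      by_cases hc : g.val 1 0 = 0
      · exact ih g (by rw [hc, nm_zero]; positivity)
      · obtain ⟨q, hq⟩ := O_div (g.val 0 0) (g.val 1 0) hc
        have h2 : P (mB O11 * (mU (-q) * g)) := ih _ (by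
          rw [BU10]
          push_cast at hg
          omega)
        have h3 : g = mU q * -(mB O11 * (mB O11 * (mU (-q) * g))) := by
          rw [BBg, neg_neg, UUg, add_neg_cancel, mU_zero, one_mul]
        rw [h3]
        exact hU _ _ (hN _ (hB _ h2))
  exact key (nm (g.val 1 0)).toNat g (by
    have := nm_nonneg (g.val 1 0)
    omega)

/-- the homomorphism defined by elements satisfying the relations -/
theorem pres {Q : Type} [Group Q] {al up be : Q} (hr : Rel Q al up be) : ∃ f : SL2 O11 →* Q,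
    (∀ x, f (mU x) = ee al up x) ∧ f (mB O11) = be := by
  obtain ⟨F, hF⟩ : ∃ F, IsFF al up be F := ⟨_, isFF al up be⟩
  have hU : ∀ (x : O11) (g : SL2 O11), F (mU x * g) = ee al up x * F g := fun x g =>
    (good_all hr hF (nm (g.val 1 0)).toNat).U g (by
      have := nm_nonneg (g.val 1 0)
      omega) x
  have hB : ∀ g : SL2 O11, F (mB O11 * g) = be * F g := fun g =>
    (good_all hr hF (max (nm (g.val 0 0)).toNat (nm (g.val 1 0)).toNat)).B g (by
      have := nm_nonneg (g.val 1 0)
      omega) (by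
      have := nm_nonneg (g.val 0 0)
      omega)
  have h1 : F 1 = 1 := by
    rw [hF.z 1 one10]
    unfold T0
    rw [one01, one00, zero_mul, ee_zero]
  have hm : ∀ g h : SL2 O11, F (g * h) = F g * F h := by
    have key : ∀ g : SL2 O11, ∃ q : Q, ∀ h, F (g * h) = q * F h := by
      apply SL_ind
      · exact ⟨1, fun h => by rw [one_mul, one_mul]⟩
      · rintro x g ⟨q, hq⟩
        exact ⟨ee al up x * q, fun h => by rw [mul_assoc, hU, hq, mul_assoc]⟩
      · rintro g ⟨q, hq⟩
        exact ⟨be * q, fun h => by rw [mul_assoc, hB, hq, mul_assoc]⟩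
    intro g h
    obtain ⟨q, hq⟩ := key g
    have h2 := hq 1
    rw [mul_one, h1, mul_one] at h2
    rw [hq, h2]
  refine ⟨⟨⟨F, h1⟩, hm⟩, ?_, ?_⟩
  · intro x
    have := hU x 1
    rw [mul_one, h1, mul_one] at this
    exact this
  · have := hB 1
    rw [mul_one, h1, mul_one] at this
    exact this

/-- a subgroup containing `A, U, B` is everything -/
theorem SL_sub (H : Subgroup (SL2 O11)) (hA : mU (1 : O11) ∈ H) (hU : mU (⟨0, 1⟩ : O11) ∈ H)
    (hB : mB O11 ∈ H) (g : SL2 O11) : g ∈ H := by
  have hz : ∀ (x : O11) (n : ℤ), mU ((n : O11) * x) = mU x ^ n := by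
    intro x n
    induction n using Int.induction_on with
    | zero =>
      have e0 : ((0 : ℤ) : O11) = 0 := Int.cast_zero
      rw [e0, zero_mul, mU_zero, zpow_zero]
    | succ i ih =>
      rw [zpow_add_one, ← ih, ← mU_add]
      congr 1
      push_cast; ring
    | pred i ih =>
      rw [zpow_sub_one, ← ih, eq_mul_inv_iff_mul_eq, ← mU_add]
      congr 1
      push_cast; ring
  have hx : ∀ x : O11, mU x ∈ H := by
    intro x
    have e : x = (x.re : O11) * 1 + (x.im : O11) * ⟨0, 1⟩ := by
      apply O_ext <;> simp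
    rw [e, mU_add, hz, hz]
    exact H.mul_mem (H.zpow_mem hA _) (H.zpow_mem hU _)
  exact SL_ind (fun g => g ∈ H) H.one_mem (fun x g hg => H.mul_mem (hx x) hg)
    (fun g hg => H.mul_mem hB hg) g

end Pool.Agent.F8.BG.D11
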