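import Pool.Agent.Lib.MP_305fdd_al.F8.BG.D11.Defs

/-!
# MP_305fdd_al, the Bianchi group of `ℚ(√-11)`: the presentation
-/

set_option autoImplicit false

namespace Pool.Agent.F8.BG.D11

open Pool.Agent.F8

/-- `w ∈ O11` -/
abbrev ww : O11 := wq (-3) 1 ℤ

/-- the presentation of `PSL₂(O11)` -/
theorem pres' (Q : Type) [Group Q] (al up be : Q) (h : Rel Q al up be) :
    ∃ f : GG →* Q, f (mU 1) = al ∧ f (mU ww) = up ∧ f (mB O11) = be := by
  obtain ⟨f, h1, h2⟩ := pres h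
  refine ⟨f, ?_, ?_, h2⟩
  · rw [h1]
    show al ^ (1 : ℤ) * up ^ (0 : ℤ) = al
    rw [zpow_one, zpow_zero, mul_one]
  · rw [h1]
    show al ^ (0 : ℤ) * up ^ (1 : ℤ) = up
    rw [zpow_one, zpow_zero, one_mul]

/-- generators of `SL₂(O11)` -/
theorem sub' (H : Subgroup GG) (h1 : mU 1 ∈ H) (h2 : mU ww ∈ H) (h3 : mB O11 ∈ H) (g : GG) :
    g ∈ H := SL_sub H h1 h2 h3 g

end Pool.Agent.F8.BG.D11
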