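import Pool.Agent.Lib.MP_305fdd_al.F8.BG.D11.Tab

/-!
# MP_305fdd_al, the Bianchi group of `ℚ(√-11)`: the subgroup `G0` and the homomorphism `η : G0 → N11`, statements
-/

set_option autoImplicit false

namespace Pool.Agent.F8.BG.D11

open Pool.Agent.MP_305fdd_al Pool.Agent.Lib.MP_305fdd_al Pool.Agent.F8
open Pool.Agent.F8.G (SL_ext SL_mul SL_det SL_neg)

/-- reduction modulo two -/
abbrev r2 : GG →* SL2 (Qf (-3) 1 (ZMod 2)) := rdq (-3) 1 2

/-- an element of order five of `SL₂(F₄)` -/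
def s5 : SL2 (Qf (-3) 1 (ZMod 2)) := r2 (my 0)

/-- the subgroup of order five, the centraliser of `s5` -/
def C5 : Subgroup (SL2 (Qf (-3) 1 (ZMod 2))) where
  carrier := {g | g * s5 = s5 * g}
  one_mem' := by
    show 1 * s5 = s5 * 1
    rw [one_mul, mul_one]
  mul_mem' := by
    intro x y hx hy
    show x * y * s5 = s5 * (x * y)
    have hx' : x * s5 = s5 * x := hx
    have hy' : y * s5 = s5 * y := hy
    rw [mul_assoc, hy', ← mul_assoc, hx', mul_assoc]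
  inv_mem' := by
    intro x hx
    show x⁻¹ * s5 = s5 * x⁻¹
    have hx' : x * s5 = s5 * x := hx
    rw [inv_mul_eq_iff_eq_mul, ← mul_assoc, hx', mul_inv_cancel_right]

/-- the subgroup `G₀` of index `12` -/
def G0 : Subgroup GG := C5.comap r2

/-- the subgroup of `Λ` which corresponds to `G₀` -/
def L0 {Λ : Type} [Group Λ] (Φ : NatBij GG Λ) : Subgroup Λ := C5.comap (Φ.toFun _ r2)

/-- reduction modulo `w` -/
def r3a : GG →* SL2 (ZMod 3) := SLm (evq (-3) 1 (Int.castRingHom (ZMod 3)) 0 (by decide))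

/-- reduction modulo `w - 1` -/
def r3b : GG →* SL2 (ZMod 3) := SLm (evq (-3) 1 (Int.castRingHom (ZMod 3)) 1 (by decide))

/-- the character `ψ`, `A ↦ 1`, `U ↦ 2`, `B ↦ 0` -/
def ps : GG →* Multiplicative (ZMod 3) :=
  (chi3.comp r3a) * (chi3.comp r3a) * (chi3.comp r3b) * (chi3.comp r3b)

/-- the element `c = y₃⁻¹ y₂` -/
def cc : FreeGroup (Fin 6) := FreeGroup.mk [(2, false), (1, true)]

/-- the element `g = (y₁ y₃ y₂)⁻¹` -/
def gg : FreeGroup (Fin 6) := FreeGroup.mk [(1, false), (2, false), (0, false)]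

/-- The properties of the homomorphism `η : G₀ → N11`. -/
structure Eta (η : G0 →* N11) : Prop where
  /-- `x = ± rm (η x)` -/
  pm : ∀ x : G0, x.val = rm (η x) ∨ x.val = -rm (η x)
  /-- surjectivity -/
  sur : ∀ h : N11, ∃ x : G0, x.val = rm h ∧ η x = h
  /-- the properties used in the general blocks -/
  q : EtaQ al11 2 cc gg G0 η
  /-- the label -/
  lab : ∀ x : G0, ps x.val = AddMonoidHom.toMultiplicative (Int.castAddHom (ZMod 3)) (nR al11 (η x))

/-- [BG eta11] the homomorphism `η : G₀ → N11`. (Uses `pres'`, `sub'` of `Rel.lean`, no hypotheses.)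

Proof. `f : GG →* Equiv.Perm (Fin 12 × N11)` with `f (mU 1) = pA`, `f (mU ww) = pU`, `f (mB O11) = pB` (`pres'`, `table`).
(1) For all `g`, `x`: `g * loc x = loc (f g x)` or `g * loc x = - loc (f g x)`: the set of these `g` is a subgroup (if `y = f g⁻¹ x` then `f g y = x`, so `g * loc y = ± loc x`), and `loc_A`, `loc_U`, `loc_B`, `sub'`.
(2) `f g (i, m) = ((f g (i, 1)).1, (f g (i, 1)).2 * m)`: the set of the `g` such that for all `i`, `m`, `n`: `f g (i, m * n) = ((f g (i, m)).1, (f g (i, m)).2 * n)` is a subgroup (closed under inverses: apply the statement for `g` to `f g⁻¹ (i, m)`), and the tables act by left multiplications (`Tb.act`).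
(3) `r2 (rm m) ∈ C5` for all `m : N11`: `N11` is generated by the `iR al11 (of i)` and `tR al11` (`GR_cases`, `FreeGroup.induction_on`), `rm` of them are `my i`, `mt`; membership in `C5` is an equation of matrices over `Qf (-3) 1 (ZMod 2)`, by `decide` after `M4.of_inj` (or directly).
(4) `r2 (mr i) ∉ C5` for `i ≠ 0` (`decide`), `mr 0 = 1`. So for `g ∈ G₀`: `f g (0, 1) = (j, h)`, `g = ± mr j * rm h` by (1) (`loc (0, 1) = 1`), `r2 (mr j) = r2 g * (r2 (rm h))⁻¹ ∈ C5` (`-1 = 1` modulo `2`), so `j = 0`.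
`η g = (f g (0, 1)).2` is a homomorphism by (2) and (4), `g = ± rm (η g)`: `pm`. `ker`: `η g = 1` gives `g = ± 1`; `f (-1) = f (mB) ^ 2 = 1` (`mB * mB = -1`).
`sur`: the set of the `h` with `η ⟨rm h, _⟩ = h` is a subgroup (`rm` and `η` are homomorphisms) and contains the generators: `my 0 = ± BAuBaU`, `my 1 = ± BAU`, `my 2 = ± Bau`, `my 3 = ± AuBUBuBaaBuBU`, `my 4 = ± BuBaUUBuBaU`, `my 5 = ± uBaUBuBuBU`, `mt = ± aBuBUBAAuBU`
(`A = mU 1`, `U = mU ww`, `B = mB`, small letters are the inverses; check with `M4` and `decide`), and the products of the tables in the same order, `Tb.prod W11 V11 [tB, tA, tUi, ..] 0`, are `(0, ([(i, true)], 0))`, `(0, ([], 1))` (`decide`; `act_prod`); `η (-1) = 1`.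
`q`: `fin`: `η` is onto; `lev`: `C5` contains `1`; `par`: `rm (iR al11 cc)` and `rm (iR al11 gg * tR al11)` have lower left entry zero (`decide` with `of_rm` or `lift_my`), the matrices with lower left entry zero form a subgroup; `pm`.
`lab`: let `P : Fin 12 → ZMod 3` be `![0, 0, 2, 1, 0, 1, 2, 2, 2, 2, 2, 0]` (values for `i = 0, .., 11`). For every entry `t i = (j, (L, n))` of the tables: `P j + n = P i + ps (generator)`, `ps A = 1`, `ps U = 2`, `ps B = 0` (`decide`). So `P (f g x).1 + n (f g x).2 = P x.1 + n x.2 + ps g` for all `g` (subgroup argument), at `x = (0, 1)`. -/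
def S_eta : Prop := ∃ η : G0 →* N11, Eta η

/-- [BG lin11] linear algebra for `S_noc`: see `Lin.lean`. -/
def Lin (a c : ZMod 7) : Prop := ∀ v1 v2 v3 v4 v5 v6 t : ZMod 7,
  -- the cocycle equations of the relations `t y_i = al11 (y_i) t`
  (∀ i : Fin 6, t + a * ![v1, v2, v3, v4, v5, v6] i =
    (W11 i).foldr (fun p z =>
      -- `z (y⁻¹ x) = -ε⁻¹ z y + ε⁻¹ z x`
      (![1, c, c ^ 2, c ^ 2, c, c ^ 2] p.1) ^ 2 * (z - ![v1, v2, v3, v4, v5, v6] p.1)) t) →
  ∃ v : ZMod 7, ![v1, v2, v3, v4, v5, v6] = ![0, (1 - c) * v, (1 - c ^ 2) * v, (1 - c ^ 2) * v,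
    (1 - c) * v, (1 - c ^ 2) * v] ∧ t = (1 - a) * v

/-- the linear algebra -/
def S_lin : Prop := ∀ a c : ZMod 7, a ^ 3 = 1 → c ^ 3 = 1 → a ≠ 1 → Lin a c

/-- [BG noc11] no cocycle modulo `7` on `G₀`, for the characters of order three of `GG` which are not trivial on `A`. (Uses `S_lin`.)

Proof. `a = X (mU 1)`, `b = X (mU ww)`, `X (mB O11) = 1` (`mB ^ 4 = 1`, `X ^ 3 = 1`), `c = a b`. The words in `S_eta` give `X (-1) = 1`, `X (my i) = 1, c, c², c², c, c²` for `i = 0, .., 5` (`c³ = 1`), `X mt = a` (`± BAuBaU` has the value `1`, `± BAU`: `a b`, `± Bau`: `a⁻¹ b⁻¹ = c²`,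
`± AuBUBuBaaBuBU`: `a⁻¹ b⁻¹` (`a = 1 - 2`, `u`: `-1 + 1 - 1 - 1 + 1 = -1`), `± BuBaUUBuBaU`: `a⁻² b = a b`, `± uBaUBuBuBU`: `a⁻¹ b⁻¹`, `± aBuBUBAAuBU`: `a`). `κ (-1) = 1`: it commutes with everything, or: `κ (-1) ^ 2 = 1` with `t = 1`, `m = 1`, so `2 v = 0`.
The elements `my i`, `mt` are in `G₀` and satisfy `mt * my i = (product of the my j ^ ± 1 along W11 i) * mt` (`rel_my`, `lift_my`). For each of the two coordinates of the translation parts `v_i` of `κ (my i)` and `t` of `κ mt` this gives the hypothesis of `Lin a c` (`(κ (x * y)).v = (κ x).v + X x * (κ y).v`, `(κ x⁻¹).v = - (X x)⁻¹ (κ x).v`; `ε⁻¹ = ε²`).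
So there is `v : Fin 2 → ZMod 7` with `(κ x).v = (1 - X x) v` for `x = my i`, `mt`, and for `x = -1`; the set of the `x : G₀` with this property is a subgroup; by `Eta.pm` and `rm (m) ∈ closure {my i, mt}` it is everything. So `(κ x).t = 1` implies `(κ x).v = 0`, `κ x = 1`. -/
def S_noc : Prop := ∀ η : G0 →* N11, Eta η → ∀ X : GG →* (ZMod 7)ˣ, X ^ 3 = 1 → X (mU 1) ≠ 1 →
  ∀ κ : G0 →* Q2 (ZMod 7), Q2.mH.comp κ = 1 → Q2.tH.comp κ = X.comp G0.subtype →
  ∀ x, (κ x).t = 1 → κ x = 1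

/-- the homomorphism `ℤ/3 → (ℤ/7)ˣ`, `1 ↦ 2` -/
def e7 : Multiplicative (ZMod 3) →* (ZMod 7)ˣ where
  toFun x := (⟨2, 4, by decide, by decide⟩ : (ZMod 7)ˣ) ^ (Multiplicative.toAdd x).val
  map_one' := by decide
  map_mul' := by decide

/-- [BG chr11] the character which corresponds to `ψ ∘ ρ`. (Uses `pres'`, `sub'` of `Rel.lean`, no hypotheses.)

Proof. `p7 = e7.comp ps`, `X = Φ.invFun _ (p7.comp ρ)`, so `Φ.toFun _ X = p7.comp ρ`. `X ^ 3 = 1`: naturality of `Φ` for the homomorphism `y ↦ y ^ 3` of `(ZMod 7)ˣ` (`powMonoidHom 3`; `NatBij.nat`, `NatBij.one`, `NatBij.injective`) and `p7 ^ 3 = 1`.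
Suppose `X (mU 1) = 1`. `X (mB O11) = 1` (`mB ^ 4 = 1` and `X ^ 3 = 1`), `b = X (mU ww)`; if `b = 1` then `X = 1` (`sub'`), `p7.comp ρ = 1`, but by `RhoQ.img` (`m = 3`) there is `l` with `rdq 3 (ρ l) = rdq 3 (mU 1)`, so `ps (ρ l) = ps (mU 1)` (`ps` factors through `rdq 3`: `r3a`, `r3b` do), contradiction.
By `pres'` there are `X₉ : GG →* Multiplicative (ZMod 9)` with `A, B ↦ 0`, `U ↦ 1`, and `π : Multiplicative (ZMod 9) →* (ZMod 7)ˣ` with `1 ↦ b`; `X = π ∘ X₉` (`sub'`), so `p7.comp ρ = Φ X = π ∘ Φ X₉`. Let `Z = Φ.invFun _ (X₉.comp ρ) : GG →* Multiplicative (ZMod 9)`, so `Φ (π ∘ Z) = X.comp ρ`.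
In `ZMod 9`: `4 Z(B) = 0`, so `Z(B) = 0` and by `(A B)³ = ± 1`, `3 Z(A) = 0`, `Z(A) ∈ {0, 3, 6}`, `π (Z A) = 1` (`b³ = 1`). So `π ∘ Z` is trivial on `A`, `B` and equal to a power `b ^ k` on `U`: `π ∘ Z = X ^ k` (`sub'`), and `X.comp ρ = Φ (X ^ k) = (Φ X) ^ k = (p7 ^ k).comp ρ`.
`X` also factors through `rdq 3`: it is equal (`sub'`) to `(π' ∘ chi3 ∘ r3b) * (π' ∘ chi3 ∘ r3a)⁻¹`, `π' : 1 ↦ b`, which is `1` on `A`, `B` and `b` on `U`. By `RhoQ.img` (`m = 3`) `X = p7 ^ k` on `GG`: `1 = X (mU 1) = 2 ^ k`, so `3 ∣ k` and `X = 1`, contradiction. -/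
def S_chr : Prop := ∀ (Λ : Type) [Group Λ] (Φ : NatBij GG Λ) (ρ : Λ →* GG), RhoQ Φ ρ →
  (Φ.invFun _ ((e7.comp ps).comp ρ)) ^ 3 = 1 ∧ Φ.invFun _ ((e7.comp ps).comp ρ) (mU 1) ≠ 1

/-- [BG cj11] conjugation modulo two. (Uses `BG.S_X3`.)

Proof. `R = Qf (-3) 1 (ZMod 2)` is a field with four elements (`w² = 1 + w`), so a local ring; `S_X3` for `r = Φ.toFun _ r2` and `r' = r2.comp ρ` (`mU 1` and `mB` are in the range of `r2`, so of `Φ.toFun _ r2`: `NatBij.range_eq`) gives `C`, `D` with `(Φ r2 l).val = C * (r2 (ρ l)).val * D`, `C D = 1`. `det C = s²` (every element of `R` is a square), so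
`C₁ = s⁻¹ C`, `D₁ = s D` have determinant one and the same property. `r2 : GG → SL₂(R)` is onto (elementary matrices, `decide`, or row reduction), `r2 γ = C₁`. -/
def S_cj : Prop := ∀ (Λ : Type) [Group Λ] (Φ : NatBij GG Λ) (ρ : Λ →* GG),
  (∀ l, tr (r2 (ρ l)) = tr (Φ.toFun _ r2 l)) → ∃ γ : GG, ∀ l, r2 (γ * ρ l * γ⁻¹) = Φ.toFun _ r2 l

/-- [BG sur11] MAIN RESULT of the block G for `d = 11`: surjectivity. (Uses `S_eta`, `S_noc`, `S_chr`, `S_cj`, `BG.S_mq`, `BG.S_fi`, `BG.S_con`; `pos11`.)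

Proof. By `S_cj` we may replace `ρ` by `ρ' = γ ρ γ⁻¹` (`RhoQ Φ ρ'`: the kernels are the same; `img`: apply it to `γ⁻¹ g γ`); now `r2 (ρ l) = Φ.toFun _ r2 l`. So `l ∈ L0 Φ` iff `ρ l ∈ G0`. `natBij_comap Φ rfl C5` gives `Ψ : NatBij G0 (L0 Φ)`, compatible with the restriction. `X = Φ.invFun _ ((e7.comp ps).comp ρ)`, `χ = X.comp G0.subtype`; `Ψ χ` is the restriction of
`(e7.comp ps).comp ρ` to `L0 Φ`, and this is `u ^ n (η (ρ l))`, `u = 2`, by `Eta.lab` (`u ^ 3 = 1`). `S_noc`, `S_chr`, `BG.S_mq` (`q = 7`) give the last hypothesis of `BG.S_fi`. Other hypotheses of `S_fi`: `pos11`, `N = 2`; `b² + 4 a = 1 - 12 < 0`; `m = 3`, `x₀ = mt` (`ps` factors through `rdq 3`, `ps mt = ofAdd 1 ≠ 1`; if `nR (η x) = 1` then `ps x = 1`); the commutator of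
`x₀ = my 0`, `y₀ = my 1` (compute the trace, `m` a prime for which it is `≠ ± 2`, by `decide`). Then `BG.S_con`: units of `O11` (`x² + x y + 3 y² = 1` implies `y = 0`), `Prim cc`, `gg * al11 cc * gg⁻¹ = cc` (`Pos11.lean`). -/
def S_sur : Prop := ∀ (Λ : Type) [Group Λ] [Group.FG Λ] (Φ : NatBij GG Λ) (ρ : Λ →* GG), RhoQ Φ ρ →
  (∀ l, tr (r2 (ρ l)) = tr (Φ.toFun _ r2 l)) → Function.Surjective ρ

end Pool.Agent.F8.BG.D11
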