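import Pool.Agent.Lib.MP_305fdd_al.F8.BG.D11.Rel

/-!
# MP_305fdd_al, the Bianchi group of `ℚ(√-11)`: the table of the cosets

The tables `tA`, `tU`, `tB` satisfy the relations of `PSL₂(O11)`, and they describe the action on the matrices `mr i * rm m`.
-/

set_option autoImplicit false

namespace Pool.Agent.F8.BG.D11

open Pool.Agent.F8
open Pool.Agent.F8.G (SL_ext SL_mul SL_det SL_neg)

/-- the table of `mU 1` -/
def tA : Tb 12 (Fin 6) := ![
  (8, ([(0, false), (3, true), (5, false)], -1)),
  (10, ([(5, false)], -1)),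
  (3, ([(4, false), (3, true), (5, false)], -1)),
  (2, ([(3, false)], 0)),
  (5, ([(4, true), (3, true)], 0)),
  (4, ([], 2)),
  (7, ([(4, true), (3, true)], 1)),
  (6, ([], 1)),
  (0, ([], 0)),
  (11, ([(0, true), (0, true)], 0)),
  (1, ([(3, false), (4, false), (3, true)], 0)),
  (9, ([], -1))]

/-- the table of `mU w` -/
def tU : Tb 12 (Fin 6) := ![
  (9, ([(0, false), (1, true)], 0)),
  (3, ([(5, true), (3, false), (4, true)], -2)),
  (10, ([(5, false)], -1)),
  (1, ([(3, false)], 0)),
  (6, ([(0, true), (2, false), (4, true), (4, true), (3, true)], 0)),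
  (7, ([(0, false), (1, true), (5, false)], 1)),
  (4, ([], 1)),
  (5, ([], 0)),
  (11, ([(0, true), (2, false), (0, false)], 1)),
  (0, ([(2, false), (0, false)], 1)),
  (2, ([(3, false)], -1)),
  (8, ([(2, false), (0, false)], 0))]

/-- the table of `mB` -/
def tB : Tb 12 (Fin 6) := ![
  (11, ([(0, true)], 0)),
  (4, ([], 0)),
  (10, ([], 0)),
  (5, ([], 0)),
  (1, ([], 0)),
  (3, ([], 0)),
  (8, ([(0, false)], 0)),
  (9, ([], 0)),
  (6, ([(0, true)], 0)),
  (7, ([], 0)),
  (2, ([], 0)),
  (0, ([(0, false)], 0))]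

/-- the inverse of `tA` -/
def tAi : Tb 12 (Fin 6) := ![
  (8, ([], 0)),
  (10, ([(3, false), (4, true), (3, true)], 0)),
  (3, ([(3, true)], 0)),
  (2, ([(5, false)], 1)),
  (5, ([], -2)),
  (4, ([(3, false), (4, false)], 0)),
  (7, ([], -1)),
  (6, ([(3, true), (5, false), (0, false), (1, true), (0, false), (2, true), (0, false), (3, true), (5, false)], -1)),
  (0, ([(1, false), (2, false), (0, false)], 1)),
  (11, ([], 1)),
  (1, ([(3, false), (4, false), (4, false), (0, false)], 1)),
  (9, ([(0, false), (0, false)], 0))]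

/-- the inverse of `tU` -/
def tUi : Tb 12 (Fin 6) := ![
  (9, ([(0, false), (2, true), (0, false), (3, true), (5, false)], -1)),
  (3, ([(3, true)], 0)),
  (10, ([(3, false), (4, false), (0, false), (3, false), (4, false), (4, false), (0, false)], 1)),
  (1, ([(3, false), (4, false), (4, false), (0, false)], 2)),
  (6, ([], -1)),
  (7, ([], 0)),
  (4, ([(3, false), (4, false), (4, false), (2, true), (0, false)], 0)),
  (5, ([(4, false), (2, true), (0, false), (3, true), (5, false), (0, false), (1, true), (0, false), (2, true), (0, false), (3, true), (5, false)], -1)),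
  (11, ([(0, true), (2, true)], 0)),
  (0, ([(1, false), (0, true)], 0)),
  (2, ([(3, false), (4, false), (4, false), (0, false)], 1)),
  (8, ([(1, false), (0, true)], -1))]

theorem tAA : Tb.prod W11 V11 [tA, tAi] = Tb.one := by funext i; revert i; decide
theorem tAA' : Tb.prod W11 V11 [tAi, tA] = Tb.one := by funext i; revert i; decide
theorem tUU : Tb.prod W11 V11 [tU, tUi] = Tb.one := by funext i; revert i; decide
theorem tUU' : Tb.prod W11 V11 [tUi, tU] = Tb.one := by funext i; revert i; decide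
theorem tBB : Tb.prod W11 V11 [tB, tB] = Tb.one := by funext i; revert i; decide
theorem tAU : Tb.prod W11 V11 [tA, tU] = Tb.prod W11 V11 [tU, tA] := by
  funext i; revert i; decide
theorem tAB3 : Tb.prod W11 V11 [tA, tB, tA, tB, tA, tB] = Tb.one := by
  funext i; revert i; decide
theorem tR4 : Tb.prod W11 V11 [tB, tA, tUi, tB, tU, tB, tA, tUi, tB, tU, tB, tA, tUi, tB, tU] =
    Tb.one := by funext i; revert i; decide

/-- the permutation of `A` -/
def pA : Equiv.Perm (Fin 12 × N11) := Tb.perm W11 V11 WV VW tA tAi tAA tAA'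
/-- the permutation of `U` -/
def pU : Equiv.Perm (Fin 12 × N11) := Tb.perm W11 V11 WV VW tU tUi tUU tUU'
/-- the permutation of `B` -/
def pB : Equiv.Perm (Fin 12 × N11) := Tb.perm W11 V11 WV VW tB tB tBB tBB

theorem pA_apply (x : Fin 12 × N11) : pA x = Tb.act al11 tA x := rfl
theorem pU_apply (x : Fin 12 × N11) : pU x = Tb.act al11 tU x := rfl
theorem pB_apply (x : Fin 12 × N11) : pB x = Tb.act al11 tB x := rfl
theorem pUi_apply (x : Fin 12 × N11) : pU⁻¹ x = Tb.act al11 tUi x := rfl

theorem act_prod (l : List (Tb 12 (Fin 6))) (x : Fin 12 × N11) :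
    Tb.act al11 (Tb.prod W11 V11 l) x = l.foldr (fun t y => Tb.act al11 t y) x := by
  induction l with
  | nil => exact Tb.act_one _ _
  | cons t l ih =>
    rw [Tb.prod_cons, List.foldr_cons, ← ih]
    exact Tb.act_mul W11 V11 WV VW t _ x

theorem act_eq (l l' : List (Tb 12 (Fin 6))) (h : Tb.prod W11 V11 l = Tb.prod W11 V11 l')
    (x : Fin 12 × N11) : l.foldr (fun t y => Tb.act al11 t y) x =
      l'.foldr (fun t y => Tb.act al11 t y) x := by
  rw [← act_prod, ← act_prod, h]

theorem act_eq_one (l : List (Tb 12 (Fin 6))) (h : Tb.prod W11 V11 l = Tb.one)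
    (x : Fin 12 × N11) : l.foldr (fun t y => Tb.act al11 t y) x = x := by
  rw [← act_prod, h, Tb.act_one]

theorem table : Rel (Equiv.Perm (Fin 12 × N11)) pA pU pB := by
  refine ⟨?_, ?_, ?_, ?_⟩
  · ext1 x
    have h := act_eq [tA, tU] [tU, tA] tAU x
    simp only [List.foldr_cons, List.foldr_nil] at h
    simp only [Equiv.Perm.mul_apply, pA_apply, pU_apply]
    exact h
  · ext1 x
    have h := act_eq_one [tB, tB] tBB x
    simp only [List.foldr_cons, List.foldr_nil] at h
    simp only [Equiv.Perm.mul_apply, pB_apply, Equiv.Perm.one_apply]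
    exact h
  · ext1 x
    have h := act_eq_one [tA, tB, tA, tB, tA, tB] tAB3 x
    simp only [List.foldr_cons, List.foldr_nil] at h
    simp only [Equiv.Perm.mul_apply, pA_apply, pB_apply, Equiv.Perm.one_apply]
    exact h
  · ext1 x
    have h := act_eq_one [tB, tA, tUi, tB, tU, tB, tA, tUi, tB, tU, tB, tA, tUi, tB, tU] tR4 x
    simp only [List.foldr_cons, List.foldr_nil] at h
    simp only [Equiv.Perm.mul_apply, pA_apply, pB_apply, pU_apply, pUi_apply,
      Equiv.Perm.one_apply]
    exact h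

/-! ### The matrices -/

theorem lift_my (L : List (Fin 6 × Bool)) : M4.of (FreeGroup.lift my (FreeGroup.mk L)) =
    L.foldr (fun p m => M4.mul (if p.2 then y4 p.1 else M4.inv (y4 p.1)) m) M4.one := by
  rw [FreeGroup.lift_mk]
  induction L with
  | nil => exact M4.of_one
  | cons p L ih =>
    rw [List.map_cons, List.prod_cons, M4.of_mul, ih, List.foldr_cons]
    congr 1
    obtain ⟨i, b⟩ := p
    cases b
    · exact M4.of_inv _
    · rfl

theorem rel_my (i : Fin 6) :
    mt * my i * mt⁻¹ = FreeGroup.lift my (al11 (FreeGroup.of i)) := by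
  apply M4.of_inj
  have h1 : al11 (FreeGroup.of i) = FreeGroup.mk (W11 i) := autw_of _ _ _ _ i
  rw [h1, lift_my, ← rel4, M4.of_mul, M4.of_mul, M4.of_inv]
  rfl

/-- the representation of `N11` -/
def rm : N11 →* GG := liR my mt rel_my

theorem of_rm (w : Wd (Fin 6)) : M4.of (rm (Wd.ev al11 w)) = M4.wd y4 t4 w :=
  M4.of_wd my mt rel_my w

/-- the matrix of an element of `Fin 12 × N11` -/
def loc (x : Fin 12 × N11) : GG := mr x.1 * rm x.2

/-- the table `t` describes the multiplication with `g` -/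
def Desc (g : M4 O11) (t : Tb 12 (Fin 6)) : Prop := ∀ i,
  M4.mul g (r4 i) = M4.mul (r4 (t i).1) (M4.wd y4 t4 (t i).2) ∨
  M4.mul g (r4 i) = M4.neg (M4.mul (r4 (t i).1) (M4.wd y4 t4 (t i).2))

instance (g : M4 O11) (t : Tb 12 (Fin 6)) : Decidable (Desc g t) := by
  unfold Desc; infer_instance

theorem desc_loc (g : GG) (t : Tb 12 (Fin 6)) (h : Desc (M4.of g) t) (x : Fin 12 × N11) :
    g * loc x = loc (Tb.act al11 t x) ∨ g * loc x = -loc (Tb.act al11 t x) := by
  have e : g * mr x.1 = mr (t x.1).1 * rm (Wd.ev al11 (t x.1).2) ∨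
      g * mr x.1 = -(mr (t x.1).1 * rm (Wd.ev al11 (t x.1).2)) := by
    rcases h x.1 with h | h
    · left
      apply M4.of_inj
      rw [M4.of_mul, M4.of_mul, of_rm]
      exact h
    · right
      apply M4.of_inj
      rw [M4.of_mul, M4.of_neg, M4.of_mul, of_rm]
      exact h
  unfold loc Tb.act
  rw [map_mul]
  rcases e with e | e
  · left
    rw [← mul_assoc, e, mul_assoc]
  · right
    rw [← mul_assoc, e, ← mul_assoc, neg_mul]

theorem dA : Desc (M4.of (mU 1)) tA := by
  have h : Desc (1, 1, 0, 1) tA := by decide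
  exact h
theorem dU : Desc (M4.of (mU ww)) tU := by
  have h : Desc (1, ⟨0, 1⟩, 0, 1) tU := by decide
  exact h
theorem dB : Desc (M4.of (mB O11)) tB := by
  have h : Desc (0, -1, 1, 0) tB := by decide
  exact h

theorem loc_A (x : Fin 12 × N11) : mU 1 * loc x = loc (pA x) ∨ mU 1 * loc x = -loc (pA x) :=
  desc_loc (mU 1) tA dA x

theorem loc_U (x : Fin 12 × N11) : mU ww * loc x = loc (pU x) ∨ mU ww * loc x = -loc (pU x) :=
  desc_loc (mU ww) tU dU x

theorem loc_B (x : Fin 12 × N11) :
    mB O11 * loc x = loc (pB x) ∨ mB O11 * loc x = -loc (pB x) :=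
  desc_loc (mB O11) tB dB x

end Pool.Agent.F8.BG.D11
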